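import Mathlib
import Pool.Agent.H908R3.Disc.Defs

/-!
# Splitting the disc into three congruent pieces (S10842): the chain lemmas and their assembly
-/

set_option autoImplicit false

namespace Pool.Agent.H373R4.Disc

open Complex ComplexConjugate Pool.Agent.H908R3.Disc

/-- `d = 2 sin (e/2)`; `eta = arcsin (d sin (b/2))`. -/
noncomputable def eta (b e : ℝ) : ℝ := Real.arcsin (2 * Real.sin (e / 2) * Real.sin (b / 2))
/-- `ee = arcsin (d cos (c/2))`. -/
noncomputable def ee (c e : ℝ) : ℝ := Real.arcsin (2 * Real.sin (e / 2) * Real.cos (c / 2))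

/-- basic inequalities. -/
structure Base (b c e : ℝ) : Prop where
  b0 : 0 < b
  b1 : b < Real.pi
  e0 : 0 < e
  e1 : e ≤ Real.pi / 3
  c0 : b / 2 ≤ c
  c1 : e ≤ c
  c2 : c ≤ b - e

/-- the remaining zone of large `b`. -/
def Big (b e : ℝ) : Prop := 3 * Real.pi / 2 + e / 2 + eta b e ≤ 5 * b / 2

def TRange : Prop := ∀ (o : Bool) (b c e : ℝ) (L1 L2 L3 : ℂ → Prop),
  0 < b → b < Real.pi → 0 < e → e ≤ Real.pi / 3 → b / 2 ≤ c → c ≤ b / 2 + Real.pi →
  CfgO o b c e L1 L2 L3 → e ≤ c ∧ c ≤ b - e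

def T1 : Prop := ∀ (o : Bool) (b c e : ℝ) (L1 L2 L3 : ℂ → Prop), Base b c e →
  (Real.pi - e) / 3 < b → b < (Real.pi + e) / 2 → CfgO o b c e L1 L2 L3 → False

def T2X : Prop := ∀ (o : Bool) (b c e : ℝ) (L1 L2 L3 : ℂ → Prop), Base b c e →
  CfgO o b c e L1 L2 L3 → L3 (E (Real.pi + c + b / 2 - eta b e)) →
  L3 (E (Real.pi + c - b / 2 + eta b e)) → False

def T2a : Prop := ∀ (o : Bool) (b c e : ℝ) (L1 L2 L3 : ℂ → Prop), Base b c e →
  b ≤ (Real.pi - e) / 3 → CfgO o b c e L1 L2 L3 → L3 (E (Real.pi + c + b / 2 - eta b e)) ∧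
  L3 (E (Real.pi + c - b / 2 + eta b e))

def T2b : Prop := ∀ (o : Bool) (b c e : ℝ) (L1 L2 L3 : ℂ → Prop), Base b c e →
  (Real.pi + e) / 2 ≤ b → 5 * b / 2 < 3 * Real.pi / 2 + e / 2 + eta b e →
  CfgO o b c e L1 L2 L3 → L3 (E (Real.pi + c + b / 2 - eta b e)) ∧
  L3 (E (Real.pi + c - b / 2 + eta b e))

def T3p : Prop := ∀ (b c e : ℝ) (L1 L2 L3 : ℂ → Prop), Base b c e →
  Real.pi - b < c → c < 2 * b - Real.pi → CfgO true b c e L1 L2 L3 → False

def T3r : Prop := ∀ (b c e : ℝ) (L1 L2 L3 : ℂ → Prop), Base b c e →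
  Real.pi - b < c → c < 2 * b - Real.pi → CfgO false b c e L1 L2 L3 → False

def T4 : Prop := ∀ (o : Bool) (b c e : ℝ) (L1 L2 L3 : ℂ → Prop), Base b c e → Big b e →
  c < Real.pi - b → CfgO o b c e L1 L2 L3 → False

def TCorner : Prop := ∀ (o : Bool) (e : ℝ) (L1 L2 L3 : ℂ → Prop), 0 < e → e ≤ Real.pi / 3 →
  CfgO o (2 * Real.pi / 3) (Real.pi / 3) e L1 L2 L3 → False

def T5 : Prop := ∀ (b c e : ℝ) (L1 L2 L3 : ℂ → Prop), Base b c e →
  Real.pi - b < c → 2 * b - Real.pi ≤ c → b < 3 * c / 2 + ee c e + e / 2 →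
  2 * b + c / 2 + ee c e < 2 * Real.pi + e / 2 → CfgO true b c e L1 L2 L3 → False

def T6 : Prop := ∀ (b c e : ℝ) (L1 L2 L3 : ℂ → Prop), Base b c e →
  Real.pi - b < c → 2 * b - Real.pi ≤ c → 3 * c / 2 + ee c e + e / 2 ≤ b →
  CfgO true b c e L1 L2 L3 → False

def T7 : Prop := ∀ (b c e : ℝ) (L1 L2 L3 : ℂ → Prop), Base b c e →
  Real.pi - b < c → 2 * b - Real.pi < c → 2 * Real.pi + e / 2 ≤ 2 * b + c / 2 + ee c e →
  CfgO true b c e L1 L2 L3 → False

def T8p : Prop := ∀ (b e : ℝ) (L1 L2 L3 : ℂ → Prop), Base b (Real.pi - b) e → Big b e →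
  b < 2 * Real.pi / 3 → CfgO true b (Real.pi - b) e L1 L2 L3 → False

def T8r : Prop := ∀ (b e : ℝ) (L1 L2 L3 : ℂ → Prop), Base b (Real.pi - b) e → Big b e →
  b < 2 * Real.pi / 3 → CfgO false b (Real.pi - b) e L1 L2 L3 → False

def T9p : Prop := ∀ (b e : ℝ) (L1 L2 L3 : ℂ → Prop), Base b (2 * b - Real.pi) e →
  2 * Real.pi / 3 < b → Real.pi - b < (2 * Real.pi + e) / 7 →
  CfgO true b (2 * b - Real.pi) e L1 L2 L3 → False

def T9r : Prop := ∀ (b e : ℝ) (L1 L2 L3 : ℂ → Prop), Base b (2 * b - Real.pi) e →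
  2 * Real.pi / 3 < b → CfgO false b (2 * b - Real.pi) e L1 L2 L3 → False

def T10 : Prop := ∀ (b c e : ℝ) (L1 L2 L3 : ℂ → Prop), Base b c e → Big b e →
  Real.pi - b < c → 2 * b - Real.pi < c → CfgO false b c e L1 L2 L3 → False

theorem ee_le {c e : ℝ} (h0 : 0 < e) (h1 : e ≤ Real.pi / 3) (h2 : e ≤ c) (h3 : c ≤ Real.pi) :
    ee c e ≤ e := by
  have hs : 0 ≤ Real.sin (e / 2) :=
    Real.sin_nonneg_of_nonneg_of_le_pi (by linarith) (by linarith [Real.pi_pos])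
  have hc : Real.cos (c / 2) ≤ Real.cos (e / 2) :=
    Real.cos_le_cos_of_nonneg_of_le_pi (by linarith) (by linarith [Real.pi_pos]) (by linarith)
  have h : 2 * Real.sin (e / 2) * Real.cos (c / 2) ≤ Real.sin e := by
    have h4 : Real.sin e = 2 * Real.sin (e / 2) * Real.cos (e / 2) := by
      rw [← Real.sin_two_mul]
      congr 1
      ring
    rw [h4]
    exact mul_le_mul_of_nonneg_left hc (by linarith)
  unfold ee
  calc Real.arcsin (2 * Real.sin (e / 2) * Real.cos (c / 2)) ≤ Real.arcsin (Real.sin e) :=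
        Real.monotone_arcsin h
    _ = e := Real.arcsin_sin (by linarith [Real.pi_pos]) (by linarith [Real.pi_pos])

/-- the assembly. -/
theorem core3 (hR : TRange) (h1 : T1) (h2X : T2X) (h2a : T2a) (h2b : T2b) (h3p : T3p)
    (h3r : T3r) (h4 : T4) (hC : TCorner) (h5 : T5) (h6 : T6) (h7 : T7) (h8p : T8p) (h8r : T8r)
    (h9p : T9p) (h9r : T9r) (h10 : T10) : Core3 := by
  intro o b c e L1 L2 L3 hb0 hb1 he0 he1 hc0 hc1 h
  obtain ⟨hc2, hc3⟩ := hR o b c e L1 L2 L3 hb0 hb1 he0 he1 hc0 hc1 h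
  have hB : Base b c e := ⟨hb0, hb1, he0, he1, hc0, hc2, hc3⟩
  have hpi := Real.pi_pos
  rcases lt_or_ge b ((Real.pi + e) / 2) with hb2 | hb2
  · rcases lt_or_ge ((Real.pi - e) / 3) b with hb3 | hb3
    · exact h1 o b c e L1 L2 L3 hB hb3 hb2 h
    · obtain ⟨ha, hb⟩ := h2a o b c e L1 L2 L3 hB hb3 h
      exact h2X o b c e L1 L2 L3 hB h ha hb
  rcases lt_or_ge (5 * b / 2) (3 * Real.pi / 2 + e / 2 + eta b e) with hb3 | hb3
  · obtain ⟨ha, hb⟩ := h2b o b c e L1 L2 L3 hB hb2 hb3 h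
    exact h2X o b c e L1 L2 L3 hB h ha hb
  have hbig : Big b e := hb3
  rcases lt_trichotomy c (Real.pi - b) with hc4 | hc4 | hc4
  · exact h4 o b c e L1 L2 L3 hB hbig hc4 h
  · rcases lt_or_ge b (2 * Real.pi / 3) with hb4 | hb4
    · subst hc4
      cases o with
      | true => exact h8p b e L1 L2 L3 hB hbig hb4 h
      | false => exact h8r b e L1 L2 L3 hB hbig hb4 h
    · have hb5 : b = 2 * Real.pi / 3 := by linarith
      have hc5 : c = Real.pi / 3 := by linarith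
      rw [hb5, hc5] at h
      exact hC o e L1 L2 L3 he0 he1 h
  rcases lt_trichotomy c (2 * b - Real.pi) with hc5 | hc5 | hc5
  · cases o with
    | true => exact h3p b c e L1 L2 L3 hB hc4 hc5 h
    | false => exact h3r b c e L1 L2 L3 hB hc4 hc5 h
  · have hb4 : 2 * Real.pi / 3 < b := by linarith
    cases o with
    | false =>
      subst hc5
      exact h9r b e L1 L2 L3 hB hb4 h
    | true =>
      rcases lt_or_ge (Real.pi - b) ((2 * Real.pi + e) / 7) with hb5 | hb5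
      · subst hc5
        exact h9p b e L1 L2 L3 hB hb4 hb5 h
      · rcases lt_or_ge b (3 * c / 2 + ee c e + e / 2) with hb6 | hb6
        · refine h5 b c e L1 L2 L3 hB hc4 hc5.ge hb6 ?_ h
          have := ee_le he0 he1 hc2 (by linarith)
          linarith
        · exact h6 b c e L1 L2 L3 hB hc4 hc5.ge hb6 h
  · cases o with
    | false => exact h10 b c e L1 L2 L3 hB hbig hc4 hc5 h
    | true =>
      rcases lt_or_ge b (3 * c / 2 + ee c e + e / 2) with hb6 | hb6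
      · rcases lt_or_ge (2 * b + c / 2 + ee c e) (2 * Real.pi + e / 2) with hb7 | hb7
        · exact h5 b c e L1 L2 L3 hB hc4 hc5.le hb6 hb7 h
        · exact h7 b c e L1 L2 L3 hB hc4 hc5 hb7 h
      · exact h6 b c e L1 L2 L3 hB hc4 hc5.le hb6 h

end Pool.Agent.H373R4.Disc
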