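import Mathlib
import Pool.Agent.H373R4.Disc.Stmts

/-!
# Basic lemmas for the chain arguments
-/

set_option autoImplicit false

namespace Pool.Agent.H373R4.Disc

open Complex ComplexConjugate Pool.Agent.H908R3.Disc

theorem E_add (s t : ℝ) : E (s + t) = E s * E t := by
  unfold E
  rw [← Complex.exp_add]
  congr 1
  push_cast
  ring

theorem E_zero : E 0 = 1 := by simp [E]

theorem norm_E (t : ℝ) : ‖E t‖ = 1 := by
  unfold E
  exact Complex.norm_exp_ofReal_mul_I t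

theorem E_ne (t : ℝ) : E t ≠ 0 := Complex.exp_ne_zero _

theorem re_E (t : ℝ) : (E t).re = Real.cos t := by
  unfold E
  exact Complex.exp_ofReal_mul_I_re t

theorem im_E (t : ℝ) : (E t).im = Real.sin t := by
  unfold E
  exact Complex.exp_ofReal_mul_I_im t

theorem conj_E (t : ℝ) : conj (E t) = E (-t) := by
  apply Complex.ext
  · simp [re_E]
  · simp [im_E]

theorem E_mul_neg (t : ℝ) : E t * E (-t) = 1 := by
  rw [← E_add, add_neg_cancel, E_zero]

theorem E_neg_mul (t : ℝ) : E (-t) * E t = 1 := by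
  rw [← E_add, neg_add_cancel, E_zero]

theorem E_pi : E Real.pi = -1 := by
  apply Complex.ext
  · simp [re_E]
  · simp [im_E]

theorem E_add_pi (t : ℝ) : E (t + Real.pi) = - E t := by
  rw [E_add, E_pi]
  ring

theorem E_sub_pi (t : ℝ) : E (t - Real.pi) = - E t := by
  have := E_add_pi (t - Real.pi)
  rw [sub_add_cancel] at this
  rw [this]
  ring

theorem E_add_two_pi (t : ℝ) : E (t + 2 * Real.pi) = E t := by
  rw [show t + 2 * Real.pi = (t + Real.pi) + Real.pi by ring, E_add_pi, E_add_pi]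
  ring

theorem E_sub_two_pi (t : ℝ) : E (t - 2 * Real.pi) = E t := by
  have := E_add_two_pi (t - 2 * Real.pi)
  rw [sub_add_cancel] at this
  exact this.symm

/-- `|w + d P|² = 1 + d (2 Re (conj w P) + d |P|²)`. -/
theorem normSq_add {w P : ℂ} {d : ℝ} (hw : ‖w‖ = 1) :
    ‖w + d * P‖ ^ 2 = 1 + d * (2 * (conj w * P).re + d * ‖P‖ ^ 2) := by
  have h1 : w.re * w.re + w.im * w.im = 1 := by
    have := Complex.normSq_apply w
    rw [← this, Complex.normSq_eq_norm_sq, hw]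
    norm_num
  rw [← Complex.normSq_eq_norm_sq, ← Complex.normSq_eq_norm_sq, Complex.normSq_apply,
    Complex.normSq_apply]
  simp only [add_re, add_im, mul_re, mul_im, ofReal_re, ofReal_im, conj_re, conj_im]
  linear_combination h1

theorem one_lt_norm_iff {w P : ℂ} {d : ℝ} (hw : ‖w‖ = 1) (hd : 0 < d) :
    1 < ‖w + d * P‖ ↔ 0 < 2 * (conj w * P).re + d * ‖P‖ ^ 2 := by
  have h := normSq_add (P := P) (d := d) hw
  constructor
  · intro h1
    have h2 : 1 < ‖w + d * P‖ ^ 2 := by nlinarith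
    rw [h] at h2
    have h3 : 0 < d * (2 * (conj w * P).re + d * ‖P‖ ^ 2) := by linarith
    exact (mul_pos_iff_of_pos_left hd).1 h3
  · intro h1
    have h2 : 0 < d * (2 * (conj w * P).re + d * ‖P‖ ^ 2) := mul_pos hd h1
    by_contra h3
    push Not at h3
    have h4 := norm_nonneg (w + d * P)
    nlinarith

theorem norm_le_one_iff {w P : ℂ} {d : ℝ} (hw : ‖w‖ = 1) (hd : 0 < d) :
    ‖w + d * P‖ ≤ 1 ↔ 2 * (conj w * P).re + d * ‖P‖ ^ 2 ≤ 0 := by
  have := one_lt_norm_iff (P := P) hw hd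
  constructor
  · intro h
    by_contra h1
    push Not at h1
    exact absurd (this.2 h1) (not_lt.2 h)
  · intro h
    by_contra h1
    push Not at h1
    exact absurd (this.1 h1) (not_lt.2 h)

theorem d_pos {e : ℝ} (h0 : 0 < e) (h1 : e ≤ Real.pi / 3) : 0 < 2 * Real.sin (e / 2) := by
  have := Real.sin_pos_of_pos_of_lt_pi (x := e / 2) (by linarith) (by linarith [Real.pi_pos])
  linarith

/-- `E a` outside the disc `D (d E t)`. -/
theorem out_iff {e : ℝ} (h0 : 0 < e) (h1 : e ≤ Real.pi / 3) (a t : ℝ) :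
    1 < ‖E a - (2 * Real.sin (e / 2) : ℝ) * E t‖ ↔ Real.cos (a - t) < Real.sin (e / 2) := by
  have hd := d_pos h0 h1
  have h := one_lt_norm_iff (w := E a) (P := - E t) (norm_E a) hd
  have h2 : E a - (2 * Real.sin (e / 2) : ℝ) * E t =
      E a + (2 * Real.sin (e / 2) : ℝ) * (- E t) := by ring
  rw [h2, h, norm_neg, norm_E, conj_E, mul_neg, ← E_add, neg_re, re_E,
    show -a + t = -(a - t) by ring, Real.cos_neg]
  constructor <;> intro h3 <;> linarith

theorem out1_iff {e : ℝ} (h0 : 0 < e) (h1 : e ≤ Real.pi / 3) (a : ℝ) :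
    1 < ‖E a - (2 * Real.sin (e / 2) : ℝ)‖ ↔ Real.cos a < Real.sin (e / 2) := by
  have := out_iff h0 h1 a 0
  rw [E_zero, mul_one, sub_zero] at this
  exact this

/-- `E a` outside the disc `D (- d E c)`. -/
theorem out3_iff {e : ℝ} (h0 : 0 < e) (h1 : e ≤ Real.pi / 3) (a c : ℝ) :
    1 < ‖E a + (2 * Real.sin (e / 2) : ℝ) * E c‖ ↔ - Real.sin (e / 2) < Real.cos (a - c) := by
  have := out_iff h0 h1 a (c + Real.pi)
  rw [E_add_pi, show a - (c + Real.pi) = (a - c) - Real.pi by ring, Real.cos_sub_pi] at this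
  rw [mul_neg, sub_neg_eq_add] at this
  rw [this]
  constructor <;> intro h3 <;> linarith

/-- `cos a < sin (e/2)` for `a` in `(th, 2 pi - th)`, `th = (pi - e)/2`. -/
theorem cos_lt_sin {e a : ℝ} (h0 : 0 < e) (h1 : e ≤ Real.pi / 3)
    (h2 : (Real.pi - e) / 2 < a) (h3 : a < 2 * Real.pi - (Real.pi - e) / 2) :
    Real.cos a < Real.sin (e / 2) := by
  have hpi := Real.pi_pos
  have h4 : Real.sin (e / 2) = Real.cos ((Real.pi - e) / 2) := by
    rw [← Real.cos_pi_div_two_sub]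
    congr 1
    ring
  rw [h4]
  rcases le_or_gt a Real.pi with h5 | h5
  · exact Real.cos_lt_cos_of_nonneg_of_le_pi (by linarith) h5 h2
  · rw [← Real.cos_two_pi_sub a]
    exact Real.cos_lt_cos_of_nonneg_of_le_pi (by linarith) (by linarith) (by linarith)

/-- `- sin (e/2) < cos a` for `|a| < pi - th`. -/
theorem neg_sin_lt_cos {e a : ℝ} (h0 : 0 < e) (h1 : e ≤ Real.pi / 3)
    (h2 : -((Real.pi + e) / 2) < a) (h3 : a < (Real.pi + e) / 2) :
    - Real.sin (e / 2) < Real.cos a := by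
  have hpi := Real.pi_pos
  have h4 : - Real.sin (e / 2) = Real.cos ((Real.pi + e) / 2) := by
    rw [show (Real.pi + e) / 2 = e / 2 + Real.pi / 2 by ring, Real.cos_add_pi_div_two]
  rw [h4, ← Real.cos_abs a]
  exact Real.cos_lt_cos_of_nonneg_of_le_pi (abs_nonneg a) (by linarith) (abs_lt.2 ⟨h2, h3⟩)

section

variable {o : Bool} {b c e : ℝ} {L1 L2 L3 : ℂ → Prop}

/-- unfolding of a configuration. `d = 2 sin (e/2)`. -/
theorem cfg (h : CfgO o b c e L1 L2 L3) : ∃ g gi : ℂ → ℂ, Cfg b g gi L1 L2 L3 ∧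
    (∀ x, ‖g x‖ = ‖x - (2 * Real.sin (e / 2) : ℝ)‖) ∧
    (∀ x, ‖gi x‖ = ‖x + (2 * Real.sin (e / 2) : ℝ) * E c‖) ∧
    (∀ x, g (gi x) = x) ∧ (∀ x, gi (g x) = x) ∧
    (o = true → g = gP c (2 * Real.sin (e / 2)) ∧ gi = giP c (2 * Real.sin (e / 2))) ∧
    (o = false → g = gR c (2 * Real.sin (e / 2)) ∧ gi = giR c (2 * Real.sin (e / 2))) := by
  cases o with
  | true =>
    refine ⟨_, _, h, ?_, ?_, ?_, ?_, fun _ => ⟨rfl, rfl⟩, fun h => absurd h (by decide)⟩
    · intro x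
      unfold gP
      rw [norm_mul, norm_E, one_mul]
    · intro x
      unfold giP
      have : x + ((2 * Real.sin (e / 2) : ℝ) : ℂ) * E c =
          E c * (((2 * Real.sin (e / 2) : ℝ) : ℂ) + E (-c) * x) := by
        linear_combination (-x) * E_mul_neg c
      rw [this, norm_mul, norm_E, one_mul]
    · intro x
      unfold gP giP
      linear_combination x * E_mul_neg c
    · intro x
      unfold gP giP
      linear_combination (x - ((2 * Real.sin (e / 2) : ℝ) : ℂ)) * E_neg_mul c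
  | false =>
    refine ⟨_, _, h, ?_, ?_, ?_, ?_, (fun h => absurd h (by decide)), fun _ => ⟨rfl, rfl⟩⟩
    · intro x
      unfold gR
      rw [norm_mul, norm_E, one_mul, ← Complex.norm_conj, map_sub, Complex.conj_conj,
        Complex.conj_ofReal]
    · intro x
      unfold giR
      have : x + ((2 * Real.sin (e / 2) : ℝ) : ℂ) * E c =
          E c * conj (((2 * Real.sin (e / 2) : ℝ) : ℂ) + E c * conj x) := by
        rw [map_add, map_mul, Complex.conj_conj, Complex.conj_ofReal, conj_E]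
        linear_combination (-x) * E_mul_neg c
      rw [this, norm_mul, norm_E, one_mul, Complex.norm_conj]
    · intro x
      unfold gR giR
      rw [map_add, map_mul, Complex.conj_conj, Complex.conj_ofReal, conj_E]
      linear_combination x * E_mul_neg c
    · intro x
      unfold gR giR
      rw [map_mul, map_sub, Complex.conj_conj, Complex.conj_ofReal, conj_E]
      linear_combination (x - ((2 * Real.sin (e / 2) : ℝ) : ℂ)) * E_mul_neg c

theorem lens1 (h : CfgO o b c e L1 L2 L3) {x : ℂ} (hx : L1 x) :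
    ‖x - (2 * Real.sin (e / 2) : ℝ)‖ ≤ 1 := by
  obtain ⟨g, gi, hc, h1, -, -, -, -, -⟩ := cfg h
  rw [← h1]
  exact hc.in3 _ (hc.g13 _ hx)

theorem lens2 (h : CfgO o b c e L1 L2 L3) {x : ℂ} (hx : L2 x) :
    ‖x - (2 * Real.sin (e / 2) : ℝ) * E b‖ ≤ 1 := by
  obtain ⟨g, gi, hc, h1, -, -, -, -, -⟩ := cfg h
  have h2 := lens1 h (hc.r21 _ hx)
  have h3 : x - ((2 * Real.sin (e / 2) : ℝ) : ℂ) * E b =
      E b * (E (-b) * x - ((2 * Real.sin (e / 2) : ℝ) : ℂ)) := by
    linear_combination (-x) * E_mul_neg b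
  rw [h3, norm_mul, norm_E, one_mul]
  exact h2

theorem lens3 (h : CfgO o b c e L1 L2 L3) {x : ℂ} (hx : L3 x) :
    ‖x + (2 * Real.sin (e / 2) : ℝ) * E c‖ ≤ 1 := by
  obtain ⟨g, gi, hc, -, h1, -, -, -, -⟩ := cfg h
  rw [← h1]
  exact hc.in1 _ (hc.g31 _ hx)

theorem cov (h : CfgO o b c e L1 L2 L3) {x : ℂ} (hx : ‖x‖ ≤ 1) : L1 x ∨ L2 x ∨ L3 x := by
  obtain ⟨g, gi, hc, -⟩ := cfg h
  exact hc.cov x hx

/-- exclusive label 1. -/
theorem ex1 (h : CfgO o b c e L1 L2 L3) {x : ℂ} (hx : ‖x‖ ≤ 1)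
    (h2 : 1 < ‖x - (2 * Real.sin (e / 2) : ℝ) * E b‖)
    (h3 : 1 < ‖x + (2 * Real.sin (e / 2) : ℝ) * E c‖) : L1 x := by
  rcases cov h hx with h4 | h4 | h4
  · exact h4
  · exact absurd (lens2 h h4) (not_le.2 h2)
  · exact absurd (lens3 h h4) (not_le.2 h3)

/-- exclusive label 2. -/
theorem ex2 (h : CfgO o b c e L1 L2 L3) {x : ℂ} (hx : ‖x‖ ≤ 1)
    (h1 : 1 < ‖x - (2 * Real.sin (e / 2) : ℝ)‖)
    (h3 : 1 < ‖x + (2 * Real.sin (e / 2) : ℝ) * E c‖) : L2 x := by
  rcases cov h hx with h4 | h4 | h4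
  · exact absurd (lens1 h h4) (not_le.2 h1)
  · exact h4
  · exact absurd (lens3 h h4) (not_le.2 h3)

/-- exclusive label 3. -/
theorem ex3 (h : CfgO o b c e L1 L2 L3) {x : ℂ} (hx : ‖x‖ ≤ 1)
    (h1 : 1 < ‖x - (2 * Real.sin (e / 2) : ℝ)‖)
    (h2 : 1 < ‖x - (2 * Real.sin (e / 2) : ℝ) * E b‖) : L3 x := by
  rcases cov h hx with h4 | h4 | h4
  · exact absurd (lens1 h h4) (not_le.2 h1)
  · exact absurd (lens2 h h4) (not_le.2 h2)
  · exact h4

/-- exclusive label 1 on the unit circle. -/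
theorem s1 (h : CfgO o b c e L1 L2 L3) (h0 : 0 < e) (h1 : e ≤ Real.pi / 3) {a : ℝ}
    (h2 : Real.cos (a - b) < Real.sin (e / 2)) (h3 : - Real.sin (e / 2) < Real.cos (a - c)) :
    L1 (E a) :=
  ex1 h (norm_E a).le ((out_iff h0 h1 a b).2 h2) ((out3_iff h0 h1 a c).2 h3)

/-- exclusive label 2 on the unit circle. -/
theorem s2 (h : CfgO o b c e L1 L2 L3) (h0 : 0 < e) (h1 : e ≤ Real.pi / 3) {a : ℝ}
    (h2 : Real.cos a < Real.sin (e / 2)) (h3 : - Real.sin (e / 2) < Real.cos (a - c)) :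
    L2 (E a) :=
  ex2 h (norm_E a).le ((out1_iff h0 h1 a).2 h2) ((out3_iff h0 h1 a c).2 h3)

/-- exclusive label 3 on the unit circle. -/
theorem s3 (h : CfgO o b c e L1 L2 L3) (h0 : 0 < e) (h1 : e ≤ Real.pi / 3) {a : ℝ}
    (h2 : Real.cos a < Real.sin (e / 2)) (h3 : Real.cos (a - b) < Real.sin (e / 2)) :
    L3 (E a) :=
  ex3 h (norm_E a).le ((out1_iff h0 h1 a).2 h2) ((out_iff h0 h1 a b).2 h3)

/-- label 1 because the rotated point has label 2. -/
theorem s1' (h : CfgO o b c e L1 L2 L3) (h0 : 0 < e) (h1 : e ≤ Real.pi / 3) {a : ℝ}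
    (h2 : Real.cos (a + b) < Real.sin (e / 2))
    (h3 : - Real.sin (e / 2) < Real.cos (a + b - c)) : L1 (E a) := by
  obtain ⟨g, gi, hc, -⟩ := cfg h
  have h4 := hc.r21 _ (s2 h h0 h1 h2 h3)
  rw [← E_add] at h4
  rwa [show -b + (a + b) = a by ring] at h4

end

end Pool.Agent.H373R4.Disc
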