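import Pool.Agent.H373R4.Disc.Stmts
import Pool.Agent.H908R3.Disc.Basic

set_option autoImplicit false

namespace Pool.Agent.H373R4.Disc.T1

open Complex ComplexConjugate Pool.Agent.H908R3.Disc Pool.Agent.H373R4.Disc

theorem t : T1 := by
  intro o b c e L1 L2 L3 hB hb1 hb2 h
  have hpi := Real.pi_pos
  have hl := h.lab
  have hc0 : 0 < c := by linarith [hB.c1, hB.e0]
  have hmid : max (c - Real.pi / 2 - e / 2) (Real.pi / 2 - e / 2 - 2 * b) <
      min (b - Real.pi / 2 + e / 2) (c + Real.pi / 2 + e / 2 - 2 * b) := by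
    apply max_lt <;> apply lt_min <;> linarith [hB.c2, hB.e0]
  obtain ⟨a, ha1, ha2⟩ := exists_between hmid
  rw [max_lt_iff] at ha1
  rw [lt_min_iff] at ha2
  have h1 : L1 (E a) := hl.ex1 hB.e0 hB.e1 hB.b0 hB.b1 hc0 hB.c2 ha1.1 ha2.1
  have h2 : L2 (E (a + 2 * b)) :=
    hl.ex2 hB.e0 hB.e1 hB.b0 hB.b1 hc0 hB.c2 (by linarith [ha1.2]) (by linarith [ha2.2])
  have h3 := hl.r12 _ h1
  have h4 := hl.r21 _ h2
  rw [E_mul] at h3 h4
  have h5 : -b + (a + 2 * b) = b + a := by ring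
  rw [h5] at h4
  exact hl.n12 _ h4 h3

end Pool.Agent.H373R4.Disc.T1
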