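import Pool.Agent.H373R4.Disc.Stmts
import Pool.Agent.H908R3.Disc.Basic

/-!
# Splitting the disc into three congruent pieces (S10842): task T10
-/

set_option autoImplicit false

namespace Pool.Agent.H373R4.Disc.T10

open Complex ComplexConjugate Pool.Agent.H908R3.Disc Pool.Agent.H373R4.Disc

theorem out_re (s q r : ℝ) (z : ℂ) (hz : z = E s * (E q + (r : ℂ))) (hr : 0 < r)
    (hq : 0 < 2 * Real.cos q + r) : ¬ ‖z‖ ≤ 1 := by
  rw [hz, norm_E_mul]
  apply norm_gt_one
  rw [Complex.add_re, Complex.add_im, E_re, E_im, Complex.ofReal_re, Complex.ofReal_im]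
  have h := Real.sin_sq_add_cos_sq q
  have h2 : 0 < r * (2 * Real.cos q + r) := mul_pos hr hq
  nlinarith

theorem out_im (s q r : ℝ) (z : ℂ) (hz : z = E s * (E q + (r : ℂ) * Complex.I)) (hr : 0 < r)
    (hq : 0 < 2 * Real.sin q + r) : ¬ ‖z‖ ≤ 1 := by
  rw [hz, norm_E_mul]
  apply norm_gt_one
  have h1 : (E q + (r : ℂ) * Complex.I).re = Real.cos q := by
    rw [Complex.add_re, E_re]; simp
  have h2 : (E q + (r : ℂ) * Complex.I).im = Real.sin q + r := by
    rw [Complex.add_im, E_im]; simp
  rw [h1, h2]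
  have h := Real.sin_sq_add_cos_sq q
  have h2 : 0 < r * (2 * Real.sin q + r) := mul_pos hr hq
  nlinarith

theorem E_sum (s : ℝ) : E s + E (-s) = ((2 * Real.cos s : ℝ) : ℂ) := by
  apply Complex.ext
  · rw [Complex.add_re, E_re, E_re, Real.cos_neg, Complex.ofReal_re]; ring
  · rw [Complex.add_im, E_im, E_im, Real.sin_neg, Complex.ofReal_im]; ring

theorem E_diff (s : ℝ) : E s - E (-s) = ((2 * Real.sin s : ℝ) : ℂ) * Complex.I := by
  apply Complex.ext
  · rw [Complex.sub_re, E_re, E_re, Real.cos_neg]; simp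
  · rw [Complex.sub_im, E_im, E_im, Real.sin_neg, Complex.im_ofReal_mul, Complex.I_im]; ring

theorem t : T10 := by
  intro b c e L1 L2 L3 hB hbig hc1 hc2 h
  obtain ⟨hb0, hb1, he0, he1, hcb, hce, hcb2⟩ := hB
  have hpi := Real.pi_pos
  have L := h.lab
  have h' : Cfg b (gR c (2 * Real.sin (e/2))) (giR c (2 * Real.sin (e/2))) L1 L2 L3 := by
    simpa [CfgO] using h
  set d : ℝ := 2 * Real.sin (e/2) with hd
  have hd0 : 0 < d := by
    have := Real.sin_pos_of_pos_of_lt_pi (x := e/2) (by linarith) (by linarith)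
    rw [hd]; linarith
  have m1 : ∀ x, L1 x → ‖x - (d : ℂ)‖ ≤ 1 := L.m1
  have m3 : ∀ x, L3 x → ‖x + (d : ℂ) * E c‖ ≤ 1 := L.m3
  have heta : 0 ≤ eta b e := by
    unfold eta
    apply Real.arcsin_nonneg.2
    have h1 := Real.sin_pos_of_pos_of_lt_pi (x := b/2) (by linarith) (by linarith)
    rw [← hd]
    positivity
  unfold Big at hbig
  -- `E (b/2)` is not in `L3`
  have hn3 : ¬ L3 (E (b/2)) := by
    intro h3
    have h4 := m3 _ h3
    refine out_re c (b/2 - c) d _ ?_ hd0 ?_ h4
    · rw [mul_add, E_mul]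
      rw [show c + (b/2 - c) = b/2 by ring]
      ring
    · have : 0 < Real.cos (b/2 - c) :=
        Real.cos_pos_of_mem_Ioo ⟨by linarith, by linarith⟩
      linarith
  -- `E (b/2)` is not in `L1`
  have hn1 : ¬ L1 (E (b/2)) := by
    intro h1
    have h3 := h'.g13 _ h1
    have hg : gR c d (E (b/2)) = E (c - b/2) - d * E c := by
      unfold gR
      rw [conj_E, mul_sub, E_mul, show c + -(b/2) = c - b/2 by ring]
      ring
    have ht : E b * gR c d (E (b/2)) = E (c + b/2) - d * E (b + c) := by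
      rw [hg, mul_sub, E_mul, show b + (c - b/2) = c + b/2 by ring, E_add b c]
      ring
    have hle : ‖E b * gR c d (E (b/2))‖ ≤ 1 := by
      rw [norm_E_mul]
      exact L.in3 _ h3
    rcases L.cov _ hle with k | k | k
    · have k1 := m1 _ k
      rw [ht] at k1
      refine out_re ((b+c)/2) (c/2) (-(2 * d * Real.cos ((b+c)/2))) _ ?_ ?_ ?_ k1
      · have e1 := E_sum ((b+c)/2)
        have e2 : E ((b+c)/2) * E ((b+c)/2) = E (b+c) := by
          rw [E_mul]; congr 1; ring
        have e3 : E ((b+c)/2) * E (-((b+c)/2)) = 1 := by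
          rw [E_mul, add_neg_cancel, E_zero]
        have e4 : E ((b+c)/2) * E (c/2) = E (c + b/2) := by
          rw [E_mul]; congr 1; ring
        push_cast at e1 ⊢
        linear_combination (-1) * e4 + (-(d:ℂ)) * E ((b+c)/2) * e1 + (d:ℂ) * e2 + (d:ℂ) * e3
      · have : Real.cos ((b+c)/2) < 0 :=
          Real.cos_neg_of_pi_div_two_lt_of_lt (by linarith) (by linarith)
        nlinarith
      · have h5 : Real.cos ((b+c)/2) < 0 :=
          Real.cos_neg_of_pi_div_two_lt_of_lt (by linarith) (by linarith)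
        have h6 : 0 < Real.cos (c/2) :=
          Real.cos_pos_of_mem_Ioo ⟨by linarith, by linarith⟩
        nlinarith
    · have k1 := L.r21 _ k
      have k2 : E (-b) * (E b * gR c d (E (b/2))) = gR c d (E (b/2)) := by
        rw [← mul_assoc, E_mul, neg_add_cancel, E_zero, one_mul]
      rw [k2] at k1
      exact L.n13 _ k1 h3
    · have k1 := m3 _ k
      rw [ht] at k1
      rw [← Complex.norm_conj] at k1
      refine out_im (-(c + b/2)) 0 (2 * d * Real.sin (b/2)) _ ?_ ?_ ?_ k1
      · rw [map_add, map_sub, map_mul, map_mul, conj_E, conj_E, conj_E, Complex.conj_ofReal,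
          E_zero]
        have e1 := E_diff (b/2)
        have e2 : E (-(c + b/2)) * E (b/2) = E (-c) := by
          rw [E_mul]; congr 1; ring
        have e3 : E (-(c + b/2)) * E (-(b/2)) = E (-(b+c)) := by
          rw [E_mul]; congr 1; ring
        push_cast at e1 ⊢
        linear_combination (-(d:ℂ)) * e2 + (d:ℂ) * e3 + (d:ℂ) * E (-(c + b/2)) * e1
      · have := Real.sin_pos_of_pos_of_lt_pi (x := b/2) (by linarith) (by linarith)
        positivity
      · have := Real.sin_pos_of_pos_of_lt_pi (x := b/2) (by linarith) (by linarith)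
        rw [Real.sin_zero]
        positivity
  have hL2 : L2 (E (b/2)) := by
    rcases L.cov (E (b/2)) (by rw [norm_E]) with k | k | k
    · exact absurd k hn1
    · exact k
    · exact absurd k hn3
  have hx2 : ¬ L2 (E (3*b/2)) := by
    intro k
    have k1 := L.r21 _ k
    rw [E_mul, show -b + 3*b/2 = b/2 by ring] at k1
    exact hn1 k1
  have hx1 : ¬ L1 (E (3*b/2)) := by
    intro k
    have k1 := m1 _ k
    have hcos : Real.cos (3*b/2) ≤ 0 :=
      Real.cos_nonpos_of_pi_div_two_le_of_le (by linarith) (by linarith)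
    refine out_re Real.pi (3*b/2 + Real.pi) d _ ?_ hd0 ?_ k1
    · rw [E_pi, E_add_pi]
      ring
    · rw [Real.cos_add_pi]
      linarith
  have hx3 : L3 (E (3*b/2)) := by
    rcases L.cov (E (3*b/2)) (by rw [norm_E]) with k | k | k
    · exact absurd k hx1
    · exact absurd k hx2
    · exact k
  have hX1 := h'.g31 _ hx3
  have hX : giR c d (E (3*b/2)) = d + E (c - 3*b/2) := by
    unfold giR
    rw [conj_E, E_mul, show c + -(3*b/2) = c - 3*b/2 by ring]
  set X : ℂ := giR c d (E (3*b/2)) with hXd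
  have hbX : L2 (E b * X) := L.r12 _ hX1
  have hY : E (2*b) * X = d * E (2*b) + E (c + b/2) := by
    rw [hX, mul_add, E_mul, show 2*b + (c - 3*b/2) = c + b/2 by ring]
    ring
  have hYle : ‖E (2*b) * X‖ ≤ 1 := by
    rw [norm_E_mul]
    exact L.in1 _ hX1
  rcases L.cov _ hYle with k | k | k
  · have k1 := m1 _ k
    rw [hY] at k1
    have hsb := Real.sin_pos_of_pos_of_lt_pi (x := b) hb0 hb1
    have hsc := Real.sin_nonneg_of_nonneg_of_le_pi (x := c - b/2) (by linarith) (by linarith)
    refine out_im b (c - b/2) (2 * d * Real.sin b) _ ?_ (by positivity) (by positivity) k1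
    have e1 := E_diff b
    have e2 : E b * E b = E (2*b) := by rw [E_mul]; congr 1; ring
    have e3 : E b * E (-b) = 1 := by rw [E_mul, add_neg_cancel, E_zero]
    have e4 : E b * E (c - b/2) = E (c + b/2) := by rw [E_mul]; congr 1; ring
    push_cast at e1 ⊢
    linear_combination (-1) * e4 + (d:ℂ) * E b * e1 + (-(d:ℂ)) * e2 + (d:ℂ) * e3
  · have k1 := L.r21 _ k
    rw [← mul_assoc, E_mul, show -b + 2*b = b by ring] at k1
    exact L.n12 _ k1 hbX
  · have k1 := m3 _ k
    rw [hY] at k1
    have hs1 : 0 < Real.cos (b - c/2) :=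
      Real.cos_pos_of_mem_Ioo ⟨by linarith, by linarith⟩
    have hs2 : 0 < Real.cos ((c - b)/2) :=
      Real.cos_pos_of_mem_Ioo ⟨by linarith, by linarith⟩
    refine out_re (b + c/2) ((c - b)/2) (2 * d * Real.cos (b - c/2)) _ ?_ (by positivity)
      (by positivity) k1
    have e1 := E_sum (b - c/2)
    have e2 : E (b + c/2) * E (b - c/2) = E (2*b) := by rw [E_mul]; congr 1; ring
    have e3 : E (b + c/2) * E (-(b - c/2)) = E c := by rw [E_mul]; congr 1; ring
    have e4 : E (b + c/2) * E ((c - b)/2) = E (c + b/2) := by rw [E_mul]; congr 1; ring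
    push_cast at e1 ⊢
    linear_combination (-1) * e4 + (d:ℂ) * E (b + c/2) * e1 + (-(d:ℂ)) * e2 + (-(d:ℂ)) * e3

end Pool.Agent.H373R4.Disc.T10
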