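import Pool.Agent.H373R4.Disc.Stmts
import Pool.Agent.H373R4.Disc.Basic

/-!
# Splitting the disc into three congruent pieces (S10842): the chain lemma T2X
-/

set_option autoImplicit false

namespace Pool.Agent.H373R4.Disc.T2X

open Complex ComplexConjugate Pool.Agent.H908R3.Disc Pool.Agent.H373R4.Disc

theorem sin_eta {b e : ℝ} (b0 : 0 < b) (b1 : b < Real.pi) (e0 : 0 < e) (e1 : e ≤ Real.pi / 3) :
    Real.sin (eta b e) = 2 * Real.sin (e / 2) * Real.sin (b / 2) := by
  have hpi := Real.pi_pos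
  have h1 : 0 ≤ Real.sin (b / 2) := Real.sin_nonneg_of_nonneg_of_le_pi (by linarith) (by linarith)
  have h2 : Real.sin (b / 2) ≤ 1 := Real.sin_le_one _
  have h3 : 0 ≤ Real.sin (e / 2) := Real.sin_nonneg_of_nonneg_of_le_pi (by linarith) (by linarith)
  have h4 : Real.sin (e / 2) ≤ 1 / 2 := by
    rw [← Real.sin_pi_div_six]
    exact Real.sin_le_sin_of_le_of_le_pi_div_two (by linarith) (by linarith) (by linarith)
  unfold eta
  apply Real.sin_arcsin
  · have : 0 ≤ 2 * Real.sin (e / 2) * Real.sin (b / 2) := by positivity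
    linarith
  · nlinarith

/-- the point `X`. -/
noncomputable def pX (b e : ℝ) : ℂ :=
  -((Real.cos (eta b e) - 2 * Real.sin (e / 2) * Real.cos (b / 2) : ℝ) : ℂ) * E (b / 2)

theorem E_eq (t : ℝ) : E t = (Real.cos t : ℂ) + (Real.sin t : ℂ) * I := by
  apply Complex.ext
  · simp [re_E, -ofReal_cos, -ofReal_sin]
  · simp [im_E, -ofReal_cos, -ofReal_sin]

theorem E_neg_eq (t : ℝ) : E (-t) = (Real.cos t : ℂ) - (Real.sin t : ℂ) * I := by
  rw [E_eq, Real.cos_neg, Real.sin_neg]
  push_cast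
  ring

theorem key1 {b e : ℝ} (b0 : 0 < b) (b1 : b < Real.pi) (e0 : 0 < e) (e1 : e ≤ Real.pi / 3) :
    pX b e - (2 * Real.sin (e / 2) : ℝ) = E (Real.pi + b / 2 - eta b e) := by
  have hs := sin_eta b0 b1 e0 e1
  have h1 : E (Real.pi + b / 2 - eta b e) = -(E (b / 2) * E (-(eta b e))) := by
    rw [← E_add, ← E_add_pi]
    congr 1
    ring
  rw [h1, E_neg_eq (eta b e), hs]
  have h2 := E_mul_neg (b / 2)
  rw [E_neg_eq (b / 2)] at h2
  unfold pX
  push_cast at *
  linear_combination (2 * Complex.sin (e / 2)) * h2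

theorem key2 {b e : ℝ} (b0 : 0 < b) (b1 : b < Real.pi) (e0 : 0 < e) (e1 : e ≤ Real.pi / 3) :
    E (-b) * pX b e - (2 * Real.sin (e / 2) : ℝ) = E (Real.pi - b / 2 + eta b e) := by
  have hs := sin_eta b0 b1 e0 e1
  have h1 : E (Real.pi - b / 2 + eta b e) = -(E (-(b / 2)) * E (eta b e)) := by
    rw [← E_add, ← E_add_pi]
    congr 1
    ring
  have h3 : E (-b) * pX b e =
    -((Real.cos (eta b e) - 2 * Real.sin (e / 2) * Real.cos (b / 2) : ℝ) : ℂ) * E (-(b / 2)) := by
    unfold pX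
    have : E (-(b / 2)) = E (-b) * E (b / 2) := by
      rw [← E_add]
      congr 1
      ring
    rw [this]
    ring
  rw [h1, h3, E_eq (eta b e), hs]
  have h2 := E_mul_neg (b / 2)
  rw [E_eq (b / 2)] at h2
  push_cast at *
  linear_combination (2 * Complex.sin (e / 2)) * h2

theorem conj_pX (b e : ℝ) : conj (pX b e) = E (-b) * pX b e := by
  unfold pX
  rw [map_mul, map_neg, Complex.conj_ofReal, conj_E]
  have : E (-(b / 2)) = E (-b) * E (b / 2) := by
    rw [← E_add]
    congr 1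
    ring
  rw [this]
  ring

theorem t : T2X := by
  intro o b c e L1 L2 L3 hB h ha hb
  obtain ⟨b0, b1, e0, e1, c0, c1, c2⟩ := hB
  obtain ⟨g, gi, hc, -, -, -, hgi, hP, hR⟩ := cfg h
  have k1 := key1 b0 b1 e0 e1
  have k2 := key2 b0 b1 e0 e1
  have eA : E (Real.pi + c + b / 2 - eta b e) = E c * E (Real.pi + b / 2 - eta b e) := by
    rw [← E_add]
    congr 1
    ring
  have eB : E (Real.pi + c - b / 2 + eta b e) = E c * E (Real.pi - b / 2 + eta b e) := by
    rw [← E_add]
    congr 1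
    ring
  have hboth : L1 (pX b e) ∧ L1 (E (-b) * pX b e) := by
    cases o with
    | true =>
      obtain ⟨hg, -⟩ := hP rfl
      have g1 : g (pX b e) = E (Real.pi + c + b / 2 - eta b e) := by
        rw [hg, gP, eA, ← k1]
      have g2 : g (E (-b) * pX b e) = E (Real.pi + c - b / 2 + eta b e) := by
        rw [hg, gP, eB, ← k2]
      rw [← g1] at ha
      rw [← g2] at hb
      have a1 := hc.g31 _ ha
      have a2 := hc.g31 _ hb
      rw [hgi] at a1 a2
      exact ⟨a1, a2⟩
    | false =>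
      obtain ⟨hg, -⟩ := hR rfl
      have g1 : g (pX b e) = E (Real.pi + c - b / 2 + eta b e) := by
        rw [hg, gR, eB, ← k2, conj_pX]
      have g2 : g (E (-b) * pX b e) = E (Real.pi + c + b / 2 - eta b e) := by
        rw [hg, gR, eA, ← k1, map_mul, conj_pX, conj_E, neg_neg]
        congr 2
        rw [← mul_assoc, E_mul_neg, one_mul]
      rw [← g1] at hb
      rw [← g2] at ha
      have a1 := hc.g31 _ ha
      have a2 := hc.g31 _ hb
      rw [hgi] at a1 a2
      exact ⟨a2, a1⟩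
  have h2 := hc.r12 _ hboth.2
  rw [← mul_assoc, E_mul_neg, one_mul] at h2
  exact hc.n12 _ hboth.1 h2

end Pool.Agent.H373R4.Disc.T2X
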