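import Pool.Agent.H373R4.Disc.Stmts
import Pool.Agent.H908R3.Disc.Basic

/-!
# T2a (helper86): small `b`, both image points lie on the exclusive-3 arc
-/

set_option autoImplicit false

namespace Pool.Agent.H373R4.Disc.T2a

open Complex ComplexConjugate Pool.Agent.H908R3.Disc

theorem eta_nonneg {b e : ℝ} (hb0 : 0 < b) (hb1 : b < Real.pi) (he0 : 0 < e)
    (he1 : e ≤ Real.pi / 3) : 0 ≤ Pool.Agent.H373R4.Disc.eta b e := by
  have hpi := Real.pi_pos
  unfold Pool.Agent.H373R4.Disc.eta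
  apply Real.arcsin_nonneg.mpr
  have h1 : 0 ≤ Real.sin (e / 2) :=
    Real.sin_nonneg_of_nonneg_of_le_pi (by linarith) (by linarith)
  have h2 : 0 ≤ Real.sin (b / 2) :=
    Real.sin_nonneg_of_nonneg_of_le_pi (by linarith) (by linarith)
  positivity

theorem eta_le_half {b e : ℝ} (hb0 : 0 < b) (he0 : 0 < e)
    (he1 : e ≤ Real.pi / 3) (hb2 : b ≤ Real.pi / 3) :
    Pool.Agent.H373R4.Disc.eta b e ≤ e / 2 := by
  have hpi := Real.pi_pos
  have h1 : 0 ≤ Real.sin (e / 2) :=
    Real.sin_nonneg_of_nonneg_of_le_pi (by linarith) (by linarith)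
  have h2 : Real.sin (b / 2) ≤ 1 / 2 := by
    rw [← Real.sin_pi_div_six]
    exact Real.sin_le_sin_of_le_of_le_pi_div_two (by linarith) (by linarith) (by linarith)
  have h3 : 2 * Real.sin (e / 2) * Real.sin (b / 2) ≤ Real.sin (e / 2) := by nlinarith
  unfold Pool.Agent.H373R4.Disc.eta
  calc Real.arcsin (2 * Real.sin (e / 2) * Real.sin (b / 2)) ≤ Real.arcsin (Real.sin (e / 2)) :=
        Real.monotone_arcsin h3
    _ = e / 2 := Real.arcsin_sin (by linarith) (by linarith)

theorem t : T2a := by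
  intro o b c e L1 L2 L3 hB hb h
  have hpi := Real.pi_pos
  have hl := h.lab
  obtain ⟨hb0, hb1, he0, he1, hc0, hc1, hc2⟩ := hB
  have h1 := eta_nonneg hb0 hb1 he0 he1
  have h2 := eta_le_half hb0 he0 he1 (by linarith)
  constructor
  · exact hl.ex3 he0 he1 hb0 hb1 (by linarith) (by linarith)
  · exact hl.ex3 he0 he1 hb0 hb1 (by linarith) (by linarith)

end Pool.Agent.H373R4.Disc.T2a
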