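import Mathlib
import Pool.Agent.H373R4.Disc.Stmts

/-!
# H908-DISC, task T2b
-/

set_option autoImplicit false

namespace Pool.Agent.H373R4.Disc.T2b

open Complex ComplexConjugate Pool.Agent.H908R3.Disc Pool.Agent.H373R4.Disc

theorem E_mul (s t : ℝ) : E s * E t = E (s + t) := by
  unfold E
  rw [← Complex.exp_add]
  congr 1
  push_cast
  ring

theorem norm_E (t : ℝ) : ‖E t‖ = 1 := by
  unfold E
  exact Complex.norm_exp_ofReal_mul_I t

theorem E_re (t : ℝ) : (E t).re = Real.cos t := by
  unfold E
  exact Complex.exp_ofReal_mul_I_re t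

theorem E_im (t : ℝ) : (E t).im = Real.sin t := by
  unfold E
  exact Complex.exp_ofReal_mul_I_im t

theorem conj_E (t : ℝ) : conj (E t) = E (-t) := by
  apply Complex.ext
  · rw [Complex.conj_re, E_re, E_re, Real.cos_neg]
  · rw [Complex.conj_im, E_im, E_im, Real.sin_neg]

theorem cos_of_sub (t d : ℝ) (hd : 0 < d) (h : ‖E t - (d : ℂ)‖ ≤ 1) : d / 2 ≤ Real.cos t := by
  have h1 : ‖E t - (d : ℂ)‖ ^ 2 ≤ 1 := by
    have := norm_nonneg (E t - (d : ℂ))
    nlinarith
  rw [Complex.sq_norm, Complex.normSq_apply, Complex.sub_re, Complex.sub_im, E_re, E_im,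
    Complex.ofReal_re, Complex.ofReal_im] at h1
  have h2 := Real.sin_sq_add_cos_sq t
  have h3 : d * d ≤ 2 * d * Real.cos t := by nlinarith
  have h4 : d ≤ 2 * Real.cos t := by
    by_contra hcon
    push Not at hcon
    nlinarith
  linarith

theorem cos_of_add (t d : ℝ) (hd : 0 < d) (h : ‖(d : ℂ) + E t‖ ≤ 1) :
    Real.cos t ≤ - (d / 2) := by
  have h1 : ‖(d : ℂ) + E t‖ ^ 2 ≤ 1 := by
    have := norm_nonneg ((d : ℂ) + E t)
    nlinarith
  rw [Complex.sq_norm, Complex.normSq_apply, Complex.add_re, Complex.add_im, E_re, E_im,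
    Complex.ofReal_re, Complex.ofReal_im] at h1
  have h2 := Real.sin_sq_add_cos_sq t
  have h3 : d * d ≤ - (2 * d * Real.cos t) := by nlinarith
  have h4 : d ≤ - (2 * Real.cos t) := by
    by_contra hcon
    push Not at hcon
    nlinarith
  linarith

/-- the facts about labels on the unit circle. -/
structure Facts (b c e : ℝ) (L1 L2 L3 : ℂ → Prop) : Prop where
  cov : ∀ a, L1 (E a) ∨ L2 (E a) ∨ L3 (E a)
  o1 : ∀ a, L1 (E a) → Real.sin (e / 2) ≤ Real.cos a
  o2 : ∀ a, L2 (E a) → Real.sin (e / 2) ≤ Real.cos (a - b)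
  o3 : ∀ a, L3 (E a) → Real.cos (a - c) ≤ - Real.sin (e / 2)
  r12 : ∀ a, L1 (E a) → L2 (E (a + b))
  r21 : ∀ a, L2 (E a) → L1 (E (a - b))
  n12 : ∀ a, L1 (E a) → ¬ L2 (E a)

theorem facts (o : Bool) (b c e : ℝ) (L1 L2 L3 : ℂ → Prop) (he0 : 0 < e)
    (he1 : e ≤ Real.pi / 3) (h : CfgO o b c e L1 L2 L3) : Facts b c e L1 L2 L3 := by
  have hs : 0 < Real.sin (e / 2) :=
    Real.sin_pos_of_pos_of_lt_pi (by linarith) (by linarith [Real.pi_pos])
  have hd : 0 < 2 * Real.sin (e / 2) := by linarith
  have key : ∃ g gi : ℂ → ℂ, Cfg b g gi L1 L2 L3 ∧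
      (∀ x, ‖g x‖ = ‖x - ((2 * Real.sin (e / 2) : ℝ) : ℂ)‖) ∧
      (∀ a, ‖gi (E a)‖ ≤ 1 → Real.cos (a - c) ≤ - Real.sin (e / 2)) := by
    cases o with
    | true =>
      refine ⟨_, _, h, ?_, ?_⟩
      · intro x
        unfold gP
        rw [norm_mul, norm_E, one_mul]
      · intro a ha
        unfold giP at ha
        rw [E_mul] at ha
        have h1 := cos_of_add (-c + a) (2 * Real.sin (e / 2)) hd ha
        have h2 : a - c = -c + a := by ring
        rw [h2]
        linarith
    | false =>
      refine ⟨_, _, h, ?_, ?_⟩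
      · intro x
        unfold gR
        rw [norm_mul, norm_E, one_mul]
        have h1 : conj x - (2 * Complex.sin (e / 2) : ℂ) =
            conj (x - ((2 * Real.sin (e / 2) : ℝ) : ℂ)) := by
          rw [map_sub, Complex.conj_ofReal]
          push_cast
          rfl
        have h2 : ‖conj (x - ((2 * Real.sin (e / 2) : ℝ) : ℂ))‖ =
            ‖x - ((2 * Real.sin (e / 2) : ℝ) : ℂ)‖ := RCLike.norm_conj _
        rw [← h2, ← h1]
        push_cast
        rfl
      · intro a ha
        unfold giR at ha
        rw [conj_E, E_mul] at ha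
        have h1 := cos_of_add (c + -a) (2 * Real.sin (e / 2)) hd ha
        have h2 : a - c = -(c + -a) := by ring
        rw [h2, Real.cos_neg]
        linarith
  obtain ⟨g, gi, hC, hg, hgi⟩ := key
  have o1 : ∀ a, L1 (E a) → Real.sin (e / 2) ≤ Real.cos a := by
    intro a ha
    have h1 := hC.in3 _ (hC.g13 _ ha)
    rw [hg] at h1
    have h2 := cos_of_sub a _ hd h1
    linarith
  have r21 : ∀ a, L2 (E a) → L1 (E (a - b)) := by
    intro a ha
    have h1 := hC.r21 _ ha
    rw [E_mul] at h1
    have h2 : a - b = -b + a := by ring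
    rw [h2]
    exact h1
  refine ⟨fun a => hC.cov _ (norm_E a).le, o1, fun a ha => o1 _ (r21 a ha), ?_, ?_, r21,
    fun a ha => hC.n12 _ ha⟩
  · intro a ha
    exact hgi a (hC.in1 _ (hC.g31 _ ha))
  · intro a ha
    have h1 := hC.r12 _ ha
    rw [E_mul] at h1
    have h2 : a + b = b + a := by ring
    rw [h2]
    exact h1

/-- `cos x < sin (e/2)` for `x` in `(π/2 - e/2, 3π/2 + e/2)`. -/
theorem cos_lt (e x : ℝ) (he0 : 0 < e) (he1 : e ≤ Real.pi / 3) (h1 : Real.pi / 2 - e / 2 < x)
    (h2 : x < 3 * Real.pi / 2 + e / 2) : Real.cos x < Real.sin (e / 2) := by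
  have hpi := Real.pi_pos
  have h3 : Real.sin (e / 2) = Real.cos (Real.pi / 2 - e / 2) := by
    rw [Real.cos_pi_div_two_sub]
  rw [h3]
  rcases le_or_gt x Real.pi with h | h
  · exact Real.cos_lt_cos_of_nonneg_of_le_pi (by linarith) h h1
  · have h4 : Real.cos x = Real.cos (2 * Real.pi - x) := by
      rw [Real.cos_two_pi_sub]
    rw [h4]
    exact Real.cos_lt_cos_of_nonneg_of_le_pi (by linarith) (by linarith) (by linarith)

theorem eta_bounds (b e : ℝ) (hb0 : 0 < b) (hb1 : b < Real.pi) (he0 : 0 < e)
    (he1 : e ≤ Real.pi / 3) : 0 ≤ eta b e ∧ eta b e ≤ 3 * e / 2 := by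
  have hpi := Real.pi_pos
  have hs : 0 < Real.sin (e / 2) :=
    Real.sin_pos_of_pos_of_lt_pi (by linarith) (by linarith)
  have hs2 : Real.sin (e / 2) ≤ 1 / 2 := by
    rw [← Real.sin_pi_div_six]
    exact Real.sin_le_sin_of_le_of_le_pi_div_two (by linarith) (by linarith) (by linarith)
  have hb : 0 < Real.sin (b / 2) :=
    Real.sin_pos_of_pos_of_lt_pi (by linarith) (by linarith)
  have hb2 : Real.sin (b / 2) ≤ 1 := Real.sin_le_one _
  unfold eta
  refine ⟨Real.arcsin_nonneg.mpr (by positivity), ?_⟩
  have h3 : 2 * Real.sin (e / 2) * Real.sin (b / 2) ≤ Real.sin (3 * e / 2) := by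
    have h4 : Real.sin (3 * e / 2) = 3 * Real.sin (e / 2) - 4 * Real.sin (e / 2) ^ 3 := by
      rw [← Real.sin_three_mul]
      congr 1
      ring
    rw [h4]
    have h5 : Real.sin (e / 2) * Real.sin (b / 2) ≤ Real.sin (e / 2) := by nlinarith
    have h6 : 4 * Real.sin (e / 2) ^ 3 ≤ Real.sin (e / 2) := by
      have h7 : Real.sin (e / 2) ^ 2 ≤ 1 / 4 := by nlinarith
      nlinarith
    linarith
  calc Real.arcsin (2 * Real.sin (e / 2) * Real.sin (b / 2))
      ≤ Real.arcsin (Real.sin (3 * e / 2)) := Real.monotone_arcsin h3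
    _ = 3 * e / 2 := Real.arcsin_sin (by linarith) (by linarith)

theorem t : T2b := by
  intro o b c e L1 L2 L3 hB hb2 hb3 h
  have hpi := Real.pi_pos
  obtain ⟨b0, b1, e0, e1, c0, c1, c2⟩ := hB
  obtain ⟨h0, h1⟩ := eta_bounds b e b0 b1 e0 e1
  have F := facts o b c e L1 L2 L3 e0 e1 h
  set n := eta b e with hn
  have hy : Real.cos (5 * b / 2 - n) < Real.sin (e / 2) :=
    cos_lt e _ e0 e1 (by linarith) (by linarith)
  constructor
  · -- the point `z`
    have n2 : ¬ L2 (E (Real.pi + c + b / 2 - n)) := by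
      intro hL
      have := F.o2 _ hL
      have h2 := cos_lt e (Real.pi + c + b / 2 - n - b) e0 e1 (by linarith) (by linarith)
      linarith
    have n1 : ¬ L1 (E (Real.pi + c + b / 2 - n)) := by
      intro hL
      rcases lt_or_ge (c + b / 2 - n) (Real.pi / 2 + e / 2) with hcase | hcase
      · have := F.o1 _ hL
        have h2 := cos_lt e (Real.pi + c + b / 2 - n) e0 e1 (by linarith) (by linarith)
        linarith
      · have hX : L2 (E (Real.pi + c + b / 2 - n + b + b)) := by
          rcases F.cov (Real.pi + c + b / 2 - n + b + b) with hh | hh | hh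
          · exfalso
            have := F.o1 _ hh
            have h2 := cos_lt e (Real.pi + c + b / 2 - n + b + b - 2 * Real.pi) e0 e1
              (by linarith) (by linarith)
            rw [Real.cos_sub_two_pi] at h2
            linarith
          · exact hh
          · exfalso
            have h3 := F.o3 _ hh
            have h4 : Real.cos (Real.pi + c + b / 2 - n + b + b - c) =
                - Real.cos (5 * b / 2 - n) := by
              rw [← Real.cos_add_pi]
              congr 1
              ring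
            linarith
        have h5 := F.r21 _ hX
        have h6 : Real.pi + c + b / 2 - n + b + b - b = Real.pi + c + b / 2 - n + b := by ring
        rw [h6] at h5
        exact F.n12 _ h5 (F.r12 _ hL)
    rcases F.cov (Real.pi + c + b / 2 - n) with hh | hh | hh
    · exact absurd hh n1
    · exact absurd hh n2
    · exact hh
  · -- the point `w`
    have n1 : ¬ L1 (E (Real.pi + c - b / 2 + n)) := by
      intro hL
      have := F.o1 _ hL
      have h2 := cos_lt e (Real.pi + c - b / 2 + n) e0 e1 (by linarith) (by linarith)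
      linarith
    have n2 : ¬ L2 (E (Real.pi + c - b / 2 + n)) := by
      intro hL
      rcases lt_or_ge (b - Real.pi / 2 - e / 2 - n) (c - b / 2) with hcase | hcase
      · have := F.o2 _ hL
        have h2 := cos_lt e (Real.pi + c - b / 2 + n - b) e0 e1 (by linarith) (by linarith)
        linarith
      · have hX : L1 (E (Real.pi + c - b / 2 + n - b - b)) := by
          rcases F.cov (Real.pi + c - b / 2 + n - b - b) with hh | hh | hh
          · exact hh
          · exfalso
            have := F.o2 _ hh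
            have h2 := cos_lt e (-(Real.pi + c - b / 2 + n - b - b - b)) e0 e1
              (by linarith) (by linarith)
            rw [Real.cos_neg] at h2
            linarith
          · exfalso
            have h3 := F.o3 _ hh
            have h4 : Real.cos (Real.pi + c - b / 2 + n - b - b - c) =
                - Real.cos (5 * b / 2 - n) := by
              rw [← Real.cos_neg (Real.pi + c - b / 2 + n - b - b - c), ← Real.cos_sub_pi]
              congr 1
              ring
            linarith
        have h5 := F.r12 _ hX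
        have h6 : Real.pi + c - b / 2 + n - b - b + b = Real.pi + c - b / 2 + n - b := by ring
        rw [h6] at h5
        exact F.n12 _ (F.r21 _ hL) h5
    rcases F.cov (Real.pi + c - b / 2 + n) with hh | hh | hh
    · exact absurd hh n1
    · exact absurd hh n2
    · exact hh

end Pool.Agent.H373R4.Disc.T2b
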