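import Pool.Agent.H373R4.Disc.Stmts

/-!
# Task T3p of project H908-DISC
-/

set_option autoImplicit false

namespace Pool.Agent.H373R4.Disc.T3p

open Complex ComplexConjugate Pool.Agent.H908R3.Disc

theorem E_re (t : ℝ) : (E t).re = Real.cos t := by
  unfold E; exact Complex.exp_ofReal_mul_I_re t

theorem E_im (t : ℝ) : (E t).im = Real.sin t := by
  unfold E; exact Complex.exp_ofReal_mul_I_im t

theorem E_add (a b : ℝ) : E a * E b = E (a + b) := by
  unfold E
  rw [← Complex.exp_add]
  congr 1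
  push_cast
  ring

theorem E_norm (t : ℝ) : ‖E t‖ = 1 := by
  unfold E; exact Complex.norm_exp_ofReal_mul_I t

theorem E_zero : E 0 = 1 := by
  unfold E; simp

/-- norm of a sum of three -/
theorem nsq3 (α β γ r s : ℝ) : Complex.normSq (E α + r * E β + s * E γ) =
    1 + r ^ 2 + s ^ 2 + 2 * r * Real.cos (α - β) + 2 * s * Real.cos (α - γ) +
      2 * r * s * Real.cos (β - γ) := by
  rw [Complex.normSq_apply, Real.cos_sub, Real.cos_sub, Real.cos_sub]
  simp only [Complex.add_re, Complex.add_im, Complex.mul_re, Complex.mul_im, Complex.ofReal_re,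
    Complex.ofReal_im, E_re, E_im, zero_mul, sub_zero, add_zero]
  have h1 := Real.sin_sq_add_cos_sq α
  have h2 := Real.sin_sq_add_cos_sq β
  have h3 := Real.sin_sq_add_cos_sq γ
  linear_combination h1 + r ^ 2 * h2 + s ^ 2 * h3

theorem norm_gt {z : ℂ} (h : 1 < Complex.normSq z) : ¬ ‖z‖ ≤ 1 := by
  intro h1
  rw [Complex.normSq_eq_norm_sq] at h
  have h2 := norm_nonneg z
  nlinarith

section lens

variable {b c d : ℝ} {L1 L2 L3 : ℂ → Prop}

theorem lens1 (h : Cfg b (gP c d) (giP c d) L1 L2 L3) {y : ℂ} (hy : L1 y) : ‖y - d‖ ≤ 1 := by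
  have h1 := h.in3 _ (h.g13 _ hy)
  unfold gP at h1
  rwa [norm_mul, E_norm, one_mul] at h1

theorem lens2 (h : Cfg b (gP c d) (giP c d) L1 L2 L3) {y : ℂ} (hy : L2 y) :
    ‖y - d * E b‖ ≤ 1 := by
  have h1 := lens1 h (h.r21 _ hy)
  have e : y - d * E b = E b * (E (-b) * y - d) := by
    rw [mul_sub, ← mul_assoc, E_add, add_neg_cancel, E_zero]
    ring
  rwa [e, norm_mul, E_norm, one_mul]

theorem lens3 (h : Cfg b (gP c d) (giP c d) L1 L2 L3) {y : ℂ} (hy : L3 y) :
    ‖y + d * E c‖ ≤ 1 := by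
  have h1 := h.in1 _ (h.g31 _ hy)
  unfold giP at h1
  have e : y + d * E c = E c * (d + E (-c) * y) := by
    rw [mul_add, ← mul_assoc (E c) (E (-c)), E_add, add_neg_cancel, E_zero]
    ring
  rwa [e, norm_mul, E_norm, one_mul]

end lens

theorem t : Disc.T3p := by
  intro b c e L1 L2 L3 hB hc1 hc2 h
  obtain ⟨b0, b1, e0, e1, c0, c1, c2⟩ := hB
  have hpi := Real.pi_pos
  have hcfg : Cfg b (gP c (2 * Real.sin (e/2))) (giP c (2 * Real.sin (e/2))) L1 L2 L3 := by
    simpa [CfgO] using h
  set d : ℝ := 2 * Real.sin (e / 2) with hd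
  have hcast : (2 * Real.sin (e/2) : ℝ) = d := rfl
  have hd0 : 0 < d := by
    have := Real.sin_pos_of_pos_of_lt_pi (show 0 < e / 2 by linarith) (by linarith)
    linarith
  have hcb : Real.cos b < 1 := by
    have h1 := Real.cos_lt_cos_of_nonneg_of_le_pi (le_refl (0:ℝ)) b1.le b0
    rwa [Real.cos_zero] at h1
  have hkey : ∀ P Q : ℝ, Real.cos P < 0 → 0 < Real.cos Q →
      1 < 1 + d ^ 2 + d ^ 2 - 2 * d * Real.cos (P - Q) - 2 * d * Real.cos (P + Q) +
        2 * d * d * Real.cos (2 * P) := by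
    intro P Q hP hQ
    rw [Real.cos_sub, Real.cos_add, Real.cos_two_mul]
    have h1 : Real.cos P * Real.cos Q < 0 := mul_neg_of_neg_of_pos hP hQ
    nlinarith [mul_pos hd0 (neg_pos.2 h1), mul_nonneg (sq_nonneg d) (sq_nonneg (Real.cos P))]
  have hx : ‖E (b / 2)‖ ≤ 1 := (E_norm _).le
  have hx3 : ¬ L3 (E (b / 2)) := by
    intro h3
    have h1 := lens3 hcfg h3
    refine norm_gt ?_ h1
    have h2 := nsq3 (b / 2) c 0 d 0
    have h4 : 0 < Real.cos (b / 2 - c) := Real.cos_pos_of_mem_Ioo ⟨by linarith, by linarith⟩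
    have h5 : E (b / 2) + (d : ℂ) * E c + ((0 : ℝ) : ℂ) * E 0 = E (b / 2) + d * E c := by
      push_cast; ring
    rw [h5] at h2
    rw [h2]
    nlinarith [mul_pos hd0 h4]
  rcases hcfg.cov _ hx with h1 | h2 | h3
  · -- x in L1
    have hg := hcfg.g13 _ h1
    set t : ℂ := E (-b) * gP c d (E (b / 2)) with ht
    have hbt : E b * t = gP c d (E (b / 2)) := by
      rw [ht, ← mul_assoc, E_add, add_neg_cancel, E_zero, one_mul]
    have ht1 : ‖t‖ ≤ 1 := by
      rw [ht, norm_mul, E_norm, one_mul]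
      exact hcfg.in3 _ hg
    have hte : t = E (c - b / 2) - d * E (c - b) := by
      rw [ht]
      unfold gP
      rw [mul_sub, mul_sub, E_add, E_add, ← mul_assoc, E_add]
      rw [show -b + (c + b / 2) = c - b / 2 by ring, show -b + c = c - b by ring]
      ring
    have hn1 : ¬ L1 t := by
      intro h4
      have h5 := hcfg.r12 _ h4
      rw [hbt] at h5
      exact hcfg.n23 _ h5 hg
    have hn3 : ¬ L3 t := by
      intro h4
      refine norm_gt ?_ (lens3 hcfg h4)
      have h5 := nsq3 (c - b / 2) (c - b) c (-d) d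
      have h6 : E (c - b / 2) + ((-d : ℝ) : ℂ) * E (c - b) + (d : ℂ) * E c = t + d * E c := by
        rw [hte]; push_cast; ring
      rw [h6] at h5
      rw [h5, show c - b / 2 - (c - b) = b / 2 by ring, show c - b / 2 - c = -(b / 2) by ring,
        show c - b - c = -b by ring, Real.cos_neg, Real.cos_neg]
      nlinarith [mul_pos (mul_pos hd0 hd0) (sub_pos.2 hcb)]
    have hn2 : ¬ L2 t := by
      intro h4
      refine norm_gt ?_ (lens2 hcfg h4)
      have h5 := nsq3 (c - b / 2) (c - b) b (-d) (-d)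
      have h6 : E (c - b / 2) + ((-d : ℝ) : ℂ) * E (c - b) + ((-d : ℝ) : ℂ) * E b
          = t - d * E b := by
        rw [hte]; push_cast; ring
      rw [h6] at h5
      have h7 := hkey (b - c / 2) ((b - c) / 2)
        (Real.cos_neg_of_pi_div_two_lt_of_lt (by linarith) (by linarith))
        (Real.cos_pos_of_mem_Ioo ⟨by linarith, by linarith⟩)
      rw [h5, show c - b / 2 - (c - b) = b / 2 by ring,
        show c - b / 2 - b = -(3 * b / 2 - c) by ring,
        show c - b - b = -(2 * (b - c / 2)) by ring, Real.cos_neg, Real.cos_neg]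
      rw [show b - c / 2 - (b - c) / 2 = b / 2 by ring,
        show b - c / 2 + (b - c) / 2 = 3 * b / 2 - c by ring] at h7
      linarith
    rcases hcfg.cov _ ht1 with h4 | h4 | h4
    · exact hn1 h4
    · exact hn2 h4
    · exact hn3 h4
  · -- x in L2
    have hy := hcfg.r21 _ h2
    rw [E_add, show -b + b / 2 = -(b / 2) by ring] at hy
    have hg := hcfg.g13 _ hy
    set t : ℂ := E b * gP c d (E (-(b / 2))) with ht
    have hbt : E (-b) * t = gP c d (E (-(b / 2))) := by
      rw [ht, ← mul_assoc, E_add, neg_add_cancel, E_zero, one_mul]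
    have ht1 : ‖t‖ ≤ 1 := by
      rw [ht, norm_mul, E_norm, one_mul]
      exact hcfg.in3 _ hg
    have hte : t = E (c + b / 2) - d * E (b + c) := by
      rw [ht]
      unfold gP
      rw [mul_sub, mul_sub, E_add, E_add, ← mul_assoc, E_add]
      rw [show b + (c + -(b / 2)) = c + b / 2 by ring]
      ring
    have hn2 : ¬ L2 t := by
      intro h4
      have h5 := hcfg.r21 _ h4
      rw [hbt] at h5
      exact hcfg.n13 _ h5 hg
    have hn3 : ¬ L3 t := by
      intro h4
      refine norm_gt ?_ (lens3 hcfg h4)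
      have h5 := nsq3 (c + b / 2) (b + c) c (-d) d
      have h6 : E (c + b / 2) + ((-d : ℝ) : ℂ) * E (b + c) + (d : ℂ) * E c = t + d * E c := by
        rw [hte]; push_cast; ring
      rw [h6] at h5
      rw [h5, show c + b / 2 - (b + c) = -(b / 2) by ring, show c + b / 2 - c = b / 2 by ring,
        show b + c - c = b by ring, Real.cos_neg]
      nlinarith [mul_pos (mul_pos hd0 hd0) (sub_pos.2 hcb)]
    have hn1 : ¬ L1 t := by
      intro h4
      refine norm_gt ?_ (lens1 hcfg h4)
      have h5 := nsq3 (c + b / 2) (b + c) 0 (-d) (-d)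
      have h6 : E (c + b / 2) + ((-d : ℝ) : ℂ) * E (b + c) + ((-d : ℝ) : ℂ) * E 0
          = t - d := by
        rw [hte, E_zero]; push_cast; ring
      rw [h6] at h5
      have h7 := hkey ((b + c) / 2) (c / 2)
        (Real.cos_neg_of_pi_div_two_lt_of_lt (by linarith) (by linarith))
        (Real.cos_pos_of_mem_Ioo ⟨by linarith, by linarith⟩)
      rw [h5, show c + b / 2 - (b + c) = -(b / 2) by ring, show c + b / 2 - 0 = c + b / 2 by ring,
        show b + c - 0 = 2 * ((b + c) / 2) by ring, Real.cos_neg]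
      rw [show (b + c) / 2 - c / 2 = b / 2 by ring,
        show (b + c) / 2 + c / 2 = c + b / 2 by ring] at h7
      linarith
    rcases hcfg.cov _ ht1 with h4 | h4 | h4
    · exact hn1 h4
    · exact hn2 h4
    · exact hn3 h4
  · exact hx3 h3

end Pool.Agent.H373R4.Disc.T3p
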