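import Pool.Agent.H373R4.Disc.Stmts

set_option autoImplicit false

namespace Pool.Agent.H373R4.Disc.T3r

open Complex ComplexConjugate Pool.Agent.H908R3.Disc Pool.Agent.H373R4.Disc

lemma E_add (s t : ℝ) : E (s + t) = E s * E t := by
  unfold E
  rw [← Complex.exp_add]
  congr 1
  push_cast
  ring

lemma E_zero : E 0 = 1 := by simp [E]

lemma E_neg_mul (t : ℝ) : E (-t) * E t = 1 := by
  rw [← E_add, neg_add_cancel, E_zero]

lemma norm_E (t : ℝ) : ‖E t‖ = 1 := by
  unfold E
  exact Complex.norm_exp_ofReal_mul_I t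

lemma conj_E (t : ℝ) : conj (E t) = E (-t) := by
  unfold E
  rw [← Complex.exp_conj]
  congr 1
  simp

lemma E_re (t : ℝ) : (E t).re = Real.cos t := by
  unfold E
  exact Complex.exp_ofReal_mul_I_re t

lemma E_im (t : ℝ) : (E t).im = Real.sin t := by
  unfold E
  exact Complex.exp_ofReal_mul_I_im t

lemma two_cos (t : ℝ) : ((2 * Real.cos t : ℝ) : ℂ) = E t + E (-t) := by
  apply Complex.ext
  · rw [Complex.ofReal_re, Complex.add_re, E_re, E_re, Real.cos_neg]; ring
  · rw [Complex.ofReal_im, Complex.add_im, E_im, E_im, Real.sin_neg]; ring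

lemma two_sin (t : ℝ) : ((2 * Real.sin t : ℝ) : ℂ) * I = E t - E (-t) := by
  apply Complex.ext
  · rw [Complex.re_ofReal_mul, Complex.I_re, Complex.sub_re, E_re, E_re, Real.cos_neg]; ring
  · rw [Complex.im_ofReal_mul, Complex.I_im, Complex.sub_im, E_im, E_im, Real.sin_neg]; ring

/-- `|E α (1 + r E φ)| > 1` if `r cos φ > 0` -/
lemma big_re (a r f : ℝ) (h : 0 < r * Real.cos f) : 1 < ‖E a * (1 + (r : ℂ) * E f)‖ := by
  rw [norm_mul, norm_E, one_mul]
  have h1 : (1 + (r : ℂ) * E f).re = 1 + r * Real.cos f := by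
    rw [Complex.add_re, Complex.one_re, Complex.re_ofReal_mul, E_re]
  calc (1 : ℝ) < 1 + r * Real.cos f := by linarith
    _ = (1 + (r : ℂ) * E f).re := h1.symm
    _ ≤ ‖1 + (r : ℂ) * E f‖ := Complex.re_le_norm _

lemma big_im (a r : ℝ) (h : r ≠ 0) : 1 < ‖E a * (1 + (r : ℂ) * I)‖ := by
  rw [norm_mul, norm_E, one_mul]
  have h1 : ‖(1 + (r : ℂ) * I)‖ ^ 2 = 1 + r ^ 2 := by
    rw [← Complex.normSq_eq_norm_sq, Complex.normSq_apply]
    simp
    ring
  have h2 : 0 < r ^ 2 := by positivity
  by_contra hcon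
  push Not at hcon
  nlinarith [norm_nonneg (1 + (r : ℂ) * I)]

section

variable {b c d : ℝ} {L1 L2 L3 : ℂ → Prop}

lemma notL1 (h : Cfg b (gR c d) (giR c d) L1 L2 L3) {x : ℂ} (hx : 1 < ‖x - d‖) : ¬ L1 x := by
  intro h1
  have h2 := h.in3 _ (h.g13 _ h1)
  unfold gR at h2
  rw [norm_mul, norm_E, one_mul] at h2
  have h3 : conj x - (d : ℂ) = conj (x - d) := by simp
  rw [h3, Complex.norm_conj] at h2
  linarith

lemma notL2 (h : Cfg b (gR c d) (giR c d) L1 L2 L3) {x : ℂ} (hx : 1 < ‖x - d * E b‖) : ¬ L2 x := by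
  intro h1
  have h3 : 1 < ‖E (-b) * x - d‖ := by
    have e1 : E (-b) * x - d = E (-b) * (x - d * E b) := by
      have := E_neg_mul b
      linear_combination (d : ℂ) * this
    rw [e1, norm_mul, norm_E, one_mul]
    exact hx
  exact notL1 h h3 (h.r21 _ h1)

lemma notL3 (h : Cfg b (gR c d) (giR c d) L1 L2 L3) {x : ℂ} (hx : 1 < ‖x + d * E c‖) : ¬ L3 x := by
  intro h1
  have h2 := h.in1 _ (h.g31 _ h1)
  unfold giR at h2
  have e1 : (d : ℂ) + E c * conj x = E c * conj (x + d * E c) := by
    rw [map_add, map_mul, Complex.conj_ofReal, conj_E]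
    have := E_neg_mul c
    linear_combination -(d : ℂ) * this
  rw [e1, norm_mul, norm_E, one_mul, Complex.norm_conj] at h2
  linarith

end

theorem t : T3r := by
  intro b c e L1 L2 L3 hB h1 h2 h0
  have hpi := Real.pi_pos
  obtain ⟨hb0, hb1, he0, he1, hc0, hc1, hc2⟩ := hB
  have hd0 : 0 < 2 * Real.sin (e / 2) := by
    have := Real.sin_pos_of_pos_of_lt_pi (show 0 < e / 2 by linarith) (by linarith)
    linarith
  have h : Cfg b (gR c (2 * Real.sin (e/2))) (giR c (2 * Real.sin (e/2))) L1 L2 L3 := by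
    simpa [CfgO] using h0
  set d : ℝ := 2 * Real.sin (e / 2) with hd
  clear_value d
  have hcosA : Real.cos ((b + c) / 2) < 0 :=
    Real.cos_neg_of_pi_div_two_lt_of_lt (by linarith) (by linarith)
  have hcosB : Real.cos (b - c / 2) < 0 :=
    Real.cos_neg_of_pi_div_two_lt_of_lt (by linarith) (by linarith)
  have hcosC : 0 < Real.cos (c / 2) := Real.cos_pos_of_mem_Ioo ⟨by linarith, by linarith⟩
  have hcosD : 0 < Real.cos ((c - b) / 2) := Real.cos_pos_of_mem_Ioo ⟨by linarith, by linarith⟩
  have hcosE : 0 < Real.cos (c - b / 2) := Real.cos_pos_of_mem_Ioo ⟨by linarith, by linarith⟩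
  have hsin : 0 < Real.sin (b / 2) := Real.sin_pos_of_pos_of_lt_pi (by linarith) (by linarith)
  -- half angles
  set u := E (b / 2) with hu
  set u' := E (-(b / 2)) with hu'
  set v := E (c / 2) with hv
  set v' := E (-(c / 2)) with hv'
  have huu : u' * u = 1 := E_neg_mul _
  have hvv : v' * v = 1 := E_neg_mul _
  have eb : E b = u * u := by rw [hu, ← E_add]; congr 1; ring
  have eb' : E (-b) = u' * u' := by rw [hu', ← E_add]; congr 1; ring
  have ec : E c = v * v := by rw [hv, ← E_add]; congr 1; ring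
  have ec' : E (-c) = v' * v' := by rw [hv', ← E_add]; congr 1; ring
  have e3 : E (b / 2 + c) = u * (v * v) := by rw [E_add, ec]
  have e4 : E (c - b / 2) = (v * v) * u' := by rw [sub_eq_add_neg, E_add, ec]
  have e5 : E ((b + c) / 2) = u * v := by rw [hu, hv, ← E_add]; congr 1; ring
  have e5' : E (-((b + c) / 2)) = u' * v' := by rw [hu', hv', ← E_add]; congr 1; ring
  have e6 : E (b - c / 2) = u * u * v' := by rw [sub_eq_add_neg, E_add, eb]
  have e6' : E (-(b - c / 2)) = u' * u' * v := by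
    rw [show -(b - c / 2) = -b + c / 2 by ring, E_add, eb']
  have e7 : E ((b - c) / 2) = u * v' := by rw [hu, hv', ← E_add]; congr 1; ring
  have tc1 : ((2 * Real.cos ((b + c) / 2) : ℝ) : ℂ) = u * v + u' * v' := by
    rw [two_cos, e5, e5']
  have tc2 : ((2 * Real.cos (b - c / 2) : ℝ) : ℂ) = u * u * v' + u' * u' * v := by
    rw [two_cos, e6, e6']
  have ts : ((2 * Real.sin (b / 2) : ℝ) : ℂ) * I = u - u' := two_sin _
  -- `x = E (b / 2)` is not in `L3`
  have hx3 : ¬ L3 u := by
    apply notL3 h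
    have e1 : u + (d : ℂ) * E c = E (b / 2) * (1 + (d : ℂ) * E (c - b / 2)) := by
      rw [ec, e4, ← hu]
      linear_combination (-(d : ℂ) * v * v) * huu
    rw [e1]
    exact big_re _ _ _ (by positivity)
  have hxn : ‖u‖ ≤ 1 := (norm_E _).le
  rcases h.cov u hxn with hx | hx | hx
  · -- `u ∈ L1`
    have hg3 := h.g13 _ hx
    have hg1 : ¬ L1 (gR c d u) := fun h5 => h.n13 _ h5 hg3
    have hgn := h.in3 _ hg3
    set t := E b * gR c d u with ht
    have htn : ‖t‖ ≤ 1 := by rw [ht, norm_mul, norm_E, one_mul]; exact hgn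
    have hteq : t = u * (v * v) - d * (u * u * (v * v)) := by
      rw [ht]
      unfold gR
      rw [hu, conj_E, ← hu', ← hu, eb, ec]
      linear_combination (u * v * v) * huu
    have ht2 : ¬ L2 t := by
      intro h5
      have h6 := h.r21 _ h5
      have h7 : E (-b) * t = gR c d u := by
        rw [ht, ← mul_assoc, E_neg_mul, one_mul]
      rw [h7] at h6
      exact hg1 h6
    have ht1 : ¬ L1 t := by
      apply notL1 h
      have e1 : t - (d : ℂ) = E (b / 2 + c) *
          (1 + ((-(2 * Real.cos ((b + c) / 2)) * d : ℝ) : ℂ) * E (-(c / 2))) := by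
        rw [hteq, e3, Complex.ofReal_mul, Complex.ofReal_neg, tc1, ← hv']
        linear_combination ((d:ℂ) * (u * u * v * v)) * hvv + (d : ℂ) * (v' * v) ^ 2 * huu +
          (d : ℂ) * (v' * v + 1) * hvv
      rw [e1]
      apply big_re
      rw [Real.cos_neg]
      have : 0 < -Real.cos ((b + c) / 2) * d * Real.cos (c / 2) := by
        have h5 : 0 < -Real.cos ((b + c) / 2) := by linarith
        positivity
      nlinarith
    have ht3 : ¬ L3 t := by
      apply notL3 h
      have e1 : t + (d : ℂ) * E c = E (b / 2 + c) *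
          (1 + ((-(2 * Real.sin (b / 2)) * d : ℝ) : ℂ) * I) := by
        have e2 : ((-(2 * Real.sin (b / 2)) * d : ℝ) : ℂ) * I =
            -(d : ℂ) * (((2 * Real.sin (b / 2) : ℝ) : ℂ) * I) := by
          push_cast; ring
        rw [hteq, e3, ec, e2, ts]
        linear_combination (-(d : ℂ) * v * v) * huu
      rw [e1]
      apply big_im
      have : 0 < Real.sin (b / 2) * d := by positivity
      intro h5
      nlinarith
    rcases h.cov t htn with h5 | h5 | h5
    · exact ht1 h5
    · exact ht2 h5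
    · exact ht3 h5
  · -- `u ∈ L2`
    have hy := h.r21 _ hx
    have hyeq : E (-b) * u = u' := by rw [eb']; linear_combination u' * huu
    rw [hyeq] at hy
    have hg3 := h.g13 _ hy
    have hg2 : ¬ L2 (gR c d u') := fun h5 => h.n23 _ h5 hg3
    have hgn := h.in3 _ hg3
    set t := E (-b) * gR c d u' with ht
    have htn : ‖t‖ ≤ 1 := by rw [ht, norm_mul, norm_E, one_mul]; exact hgn
    have hteq : t = (v * v) * u' - d * (u' * u' * (v * v)) := by
      rw [ht]
      unfold gR
      rw [hu', conj_E, neg_neg, ← hu, ← hu', eb', ec]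
      linear_combination (u' * v * v) * huu
    have ht1 : ¬ L1 t := by
      intro h5
      have h6 := h.r12 _ h5
      have h7 : E b * t = gR c d u' := by
        rw [ht, ← mul_assoc, mul_comm (E b), E_neg_mul, one_mul]
      rw [h7] at h6
      exact hg2 h6
    have ht2 : ¬ L2 t := by
      apply notL2 h
      have e1 : t - (d : ℂ) * E b = E (c - b / 2) *
          (1 + ((-(2 * Real.cos (b - c / 2)) * d : ℝ) : ℂ) * E ((b - c) / 2)) := by
        rw [hteq, e4, e7, Complex.ofReal_mul, Complex.ofReal_neg, tc2, eb]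
        linear_combination (d : ℂ) * u ^ 2 * ((v' * v) ^ 2 * huu + (v' * v + 1) * hvv) +
          (d : ℂ) * v ^ 2 * u' ^ 2 * ((v' * v) * huu + hvv)
      rw [e1]
      apply big_re
      have e2 : Real.cos ((b - c) / 2) = Real.cos ((c - b) / 2) := by
        rw [← Real.cos_neg]; congr 1; ring
      rw [e2]
      have : 0 < -Real.cos (b - c / 2) * d * Real.cos ((c - b) / 2) := by
        have h5 : 0 < -Real.cos (b - c / 2) := by linarith
        positivity
      nlinarith
    have ht3 : ¬ L3 t := by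
      apply notL3 h
      have e1 : t + (d : ℂ) * E c = E (c - b / 2) *
          (1 + (((2 * Real.sin (b / 2)) * d : ℝ) : ℂ) * I) := by
        have e2 : (((2 * Real.sin (b / 2)) * d : ℝ) : ℂ) * I =
            (d : ℂ) * (((2 * Real.sin (b / 2) : ℝ) : ℂ) * I) := by
          push_cast; ring
        rw [hteq, e4, ec, e2, ts]
        linear_combination (-(d : ℂ) * v * v) * huu
      rw [e1]
      apply big_im
      have : 0 < Real.sin (b / 2) * d := by positivity
      intro h5
      nlinarith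
    rcases h.cov t htn with h5 | h5 | h5
    · exact ht1 h5
    · exact ht2 h5
    · exact ht3 h5
  · exact hx3 hx

end Pool.Agent.H373R4.Disc.T3r
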