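import Pool.Agent.H373R4.Disc.Stmts
import Pool.Agent.H908R3.Disc.Basic

set_option autoImplicit false

/-! Chain lemma T4. -/

namespace Pool.Agent.H373R4.Disc.T4

open Complex ComplexConjugate Pool.Agent.H908R3.Disc Pool.Agent.H373R4.Disc

theorem arith {b c d θ ka rho : ℝ} (hd0 : 0 < d) (hd1 : d < 1) (hθ : θ = 3 * b / 2)
    (hka0 : 0 ≤ Real.cos ka) (hka : Real.sin ka = d * Real.sin θ)
    (hrho : rho = Real.cos ka + d * Real.cos θ) (hcb : b / 2 ≤ c) (hc : c < Real.pi - b)
    (hb0 : 0 < b) (hb : b < 2 * Real.pi / 3) :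
    1 < (rho * Real.cos (b / 2) + d * Real.cos c) ^ 2 +
      (rho * Real.sin (b / 2) + d * Real.sin c) ^ 2 := by
  have hpi := Real.pi_pos
  have h1 : Real.cos ka ^ 2 = 1 - d ^ 2 * Real.sin θ ^ 2 := by
    have := Real.sin_sq_add_cos_sq ka
    rw [hka] at this
    nlinarith
  have h2 : Real.sin θ ^ 2 + Real.cos θ ^ 2 = 1 := Real.sin_sq_add_cos_sq θ
  have hrho0 : 0 < rho := by
    by_contra hcon
    push Not at hcon
    have h3 : Real.cos ka ≤ - (d * Real.cos θ) := by linarith
    have h4 : Real.cos ka ^ 2 ≤ (- (d * Real.cos θ)) ^ 2 := by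
      apply pow_le_pow_left₀ hka0 h3
    have h5 : d ^ 2 < 1 := by nlinarith
    nlinarith
  have h6 : rho ^ 2 - 2 * rho * d * Real.cos θ + d ^ 2 = 1 := by
    rw [hrho]
    have : (Real.cos ka + d * Real.cos θ) ^ 2 - 2 * (Real.cos ka + d * Real.cos θ) * d * Real.cos θ
        + d ^ 2 = Real.cos ka ^ 2 + d ^ 2 * (1 - Real.cos θ ^ 2) := by ring
    rw [this, h1]
    nlinarith
  have h7 : - Real.cos θ < Real.cos (c - b / 2) := by
    rw [← Real.cos_pi_sub]
    apply Real.cos_lt_cos_of_nonneg_of_le_pi (by linarith)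
    · rw [hθ]; linarith
    · rw [hθ]; linarith
  have h8 : (rho * Real.cos (b / 2) + d * Real.cos c) ^ 2 +
      (rho * Real.sin (b / 2) + d * Real.sin c) ^ 2
      = rho ^ 2 * (Real.sin (b / 2) ^ 2 + Real.cos (b / 2) ^ 2)
        + d ^ 2 * (Real.sin c ^ 2 + Real.cos c ^ 2) + 2 * rho * d * Real.cos (c - b / 2) := by
    rw [Real.cos_sub]; ring
  rw [h8, Real.sin_sq_add_cos_sq, Real.sin_sq_add_cos_sq]
  have h9 : 0 < rho * d * (Real.cos (c - b / 2) + Real.cos θ) :=
    mul_pos (mul_pos hrho0 hd0) (by linarith)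
  nlinarith

theorem E_polar {d θ ka rho : ℝ} (hka : Real.sin ka = d * Real.sin θ)
    (hrho : rho = Real.cos ka + d * Real.cos θ) :
    (d : ℂ) + E (θ + ka) = (rho : ℂ) * E θ := by
  have h2 : Real.sin θ ^ 2 + Real.cos θ ^ 2 = 1 := Real.sin_sq_add_cos_sq θ
  apply Complex.ext
  · simp only [Complex.add_re, Complex.mul_re, Complex.ofReal_re, Complex.ofReal_im, E_re, E_im]
    rw [Real.cos_add, hka, hrho]
    linear_combination (-d) * h2
  · simp only [Complex.add_im, Complex.mul_im, Complex.ofReal_re, Complex.ofReal_im, E_re, E_im]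
    rw [Real.sin_add, hka, hrho]
    ring

theorem E_polar' {d θ ka rho : ℝ} (hka : Real.sin ka = d * Real.sin θ)
    (hrho : rho = Real.cos ka + d * Real.cos θ) :
    (d : ℂ) + E (-θ - ka) = (rho : ℂ) * E (-θ) := by
  have h := congrArg conj (E_polar hka hrho)
  rw [map_add, map_mul, Complex.conj_ofReal, Complex.conj_ofReal, conj_E, conj_E] at h
  have h1 : -(θ + ka) = -θ - ka := by ring
  rwa [h1] at h

theorem t : T4 := by
  intro o b c e L1 L2 L3 hB hbig hcb h
  have hpi := Real.pi_pos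
  obtain ⟨b0, b1, e0, e1, c0, c1, c2⟩ := hB
  have lab := h.lab
  have hb2 : b < 2 * Real.pi / 3 := by linarith
  have hs0 : 0 < Real.sin (e / 2) :=
    Real.sin_pos_of_pos_of_lt_pi (by linarith) (by linarith)
  have hsb0 : 0 < Real.sin (b / 2) :=
    Real.sin_pos_of_pos_of_lt_pi (by linarith) (by linarith)
  have heta : 0 ≤ eta b e := by
    unfold eta
    apply Real.arcsin_nonneg.2
    positivity
  unfold Big at hbig
  have hb3 : 3 * Real.pi / 5 < b := by linarith
  have he2 : e < Real.pi / 3 := by linarith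
  set d : ℝ := 2 * Real.sin (e / 2) with hd
  have hd0 : 0 < d := by positivity
  have hd1 : d < 1 := by
    have h1 : Real.sin (e / 2) < Real.sin (Real.pi / 6) :=
      Real.sin_lt_sin_of_lt_of_le_pi_div_two (by linarith) (by linarith) (by linarith)
    rw [Real.sin_pi_div_six] at h1
    linarith
  set θ : ℝ := 3 * b / 2 with hθ
  have hsθ0 : 0 < Real.sin θ :=
    Real.sin_pos_of_pos_of_lt_pi (by linarith) (by linarith)
  have hsθ1 : Real.sin θ < 1 / 2 := by
    rw [← Real.sin_pi_sub, ← Real.sin_pi_div_six]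
    exact Real.sin_lt_sin_of_lt_of_le_pi_div_two (by linarith) (by linarith) (by linarith)
  set ka : ℝ := Real.arcsin (d * Real.sin θ) with hkadef
  have hprod : d * Real.sin θ ≤ 1 := by nlinarith
  have hka : Real.sin ka = d * Real.sin θ :=
    Real.sin_arcsin (by have := mul_pos hd0 hsθ0; linarith) hprod
  have hka0 : 0 ≤ ka := Real.arcsin_nonneg.2 (mul_pos hd0 hsθ0).le
  have hka1 : ka < e / 2 := by
    have h1 : d * Real.sin θ < Real.sin (e / 2) := by
      rw [hd]; nlinarith
    rw [hkadef]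
    rw [Real.arcsin_lt_iff_lt_sin' (by constructor <;> linarith)]
    exact h1
  have hcka : 0 ≤ Real.cos ka := Real.cos_arcsin_nonneg _
  set rho : ℝ := Real.cos ka + d * Real.cos θ with hrho
  -- the two points labelled 3
  have hA1 : L3 (E (c + θ + ka)) := lab.ex3 e0 e1 b0 b1 (by linarith) (by linarith)
  have hA2 : L3 (E (c - θ - ka + 2 * Real.pi)) :=
    lab.ex3 e0 e1 b0 b1 (by linarith) (by linarith)
  rw [E_two_pi] at hA2
  have hp := E_polar' hka hrho
  have hq := E_polar hka hrho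
  -- labels of p and its conjugate
  have hpq : L1 ((rho : ℂ) * E (-θ)) ∧ L1 ((rho : ℂ) * E θ) := by
    unfold CfgO at h
    cases o with
    | true =>
      simp only [if_true] at h
      have h1 := h.g31 _ hA1
      have h2 := h.g31 _ hA2
      unfold giP at h1 h2
      rw [E_mul] at h1 h2
      have e1' : -c + (c + θ + ka) = θ + ka := by ring
      have e2' : -c + (c - θ - ka) = -θ - ka := by ring
      rw [e1'] at h1
      rw [e2'] at h2
      rw [← hp, ← hq]
      exact ⟨h2, h1⟩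
    | false =>
      simp only [Bool.false_eq_true, if_false] at h
      have h1 := h.g31 _ hA1
      have h2 := h.g31 _ hA2
      unfold giR at h1 h2
      rw [conj_E, E_mul] at h1 h2
      have e1' : c + -(c + θ + ka) = -θ - ka := by ring
      have e2' : c + -(c - θ - ka) = θ + ka := by ring
      rw [e1'] at h1
      rw [e2'] at h2
      rw [← hp, ← hq]
      exact ⟨h1, h2⟩
  obtain ⟨h1p, h1q⟩ := hpq
  have hmul : ∀ s t : ℝ, E s * ((rho : ℂ) * E t) = (rho : ℂ) * E (s + t) := by
    intro s t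
    rw [E_add]; ring
  have h2p := lab.r12 _ h1p
  rw [hmul] at h2p
  have hn2 : ¬ L2 ((rho : ℂ) * E (b / 2)) := by
    intro h3
    have h4 := lab.r21 _ h3
    rw [hmul] at h4
    have h5 : -b + b / 2 = b + -θ := by rw [hθ]; ring
    rw [h5] at h4
    exact lab.n12 _ h4 h2p
  have hn1 : ¬ L1 ((rho : ℂ) * E (b / 2)) := by
    intro h3
    have h4 := lab.r12 _ h3
    rw [hmul] at h4
    have h5 : b + b / 2 = θ := by rw [hθ]; ring
    rw [h5] at h4
    exact lab.n12 _ h1q h4
  have hnorm : ‖(rho : ℂ) * E (b / 2)‖ ≤ 1 := by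
    have h3 := lab.in1 _ h1p
    rw [norm_mul, norm_E] at h3 ⊢
    exact h3
  have h3r : L3 ((rho : ℂ) * E (b / 2)) := by
    rcases lab.cov _ hnorm with h4 | h4 | h4
    · exact absurd h4 hn1
    · exact absurd h4 hn2
    · exact h4
  have h4 := lab.m3 _ h3r
  refine norm_gt_one ?_ h4
  have h5 := arith hd0 hd1 hθ hcka hka hrho c0 hcb b0 hb2
  simp only [Complex.add_re, Complex.add_im, Complex.mul_re, Complex.mul_im,
    Complex.ofReal_re, Complex.ofReal_im, E_re, E_im]
  have h6 : (rho * Real.cos (b / 2) - 0 * Real.sin (b / 2) + (d * Real.cos c - 0 * Real.sin c)) ^ 2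
      + (rho * Real.sin (b / 2) + 0 * Real.cos (b / 2) + (d * Real.sin c + 0 * Real.cos c)) ^ 2
      = (rho * Real.cos (b / 2) + d * Real.cos c) ^ 2 +
      (rho * Real.sin (b / 2) + d * Real.sin c) ^ 2 := by ring
  rw [h6]
  exact h5

end Pool.Agent.H373R4.Disc.T4
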