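import Mathlib
import Pool.Agent.H373R4.Disc.Stmts

set_option autoImplicit false

namespace Pool.Agent.H373R4.Disc.T5

open Complex ComplexConjugate Pool.Agent.H908R3.Disc Pool.Agent.H373R4.Disc

theorem E_re (t : ℝ) : (E t).re = Real.cos t := by
  unfold E
  rw [Complex.exp_ofReal_mul_I_re]

theorem E_im (t : ℝ) : (E t).im = Real.sin t := by
  unfold E
  rw [Complex.exp_ofReal_mul_I_im]

theorem E_mul (s t : ℝ) : E s * E t = E (s + t) := by
  unfold E
  rw [← Complex.exp_add]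
  congr 1
  push_cast
  ring

theorem E_norm (t : ℝ) : ‖E t‖ = 1 := by
  unfold E
  exact Complex.norm_exp_ofReal_mul_I t

theorem norm_sub_sq' (a d : ℝ) : ‖E a - d‖ ^ 2 = 1 - 2 * d * Real.cos a + d ^ 2 := by
  rw [Complex.sq_norm, Complex.normSq_apply]
  simp only [Complex.sub_re, Complex.sub_im, E_re, E_im, Complex.ofReal_re, Complex.ofReal_im]
  nlinarith [Real.sin_sq_add_cos_sq a]

theorem norm_add_sq' (a d : ℝ) : ‖(d : ℂ) + E a‖ ^ 2 = 1 + 2 * d * Real.cos a + d ^ 2 := by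
  rw [Complex.sq_norm, Complex.normSq_apply]
  simp only [Complex.add_re, Complex.add_im, E_re, E_im, Complex.ofReal_re, Complex.ofReal_im]
  nlinarith [Real.sin_sq_add_cos_sq a]

theorem cos_gt {e t : ℝ} (h0 : 0 < e) (h1 : e ≤ Real.pi / 3) (h2 : -(Real.pi / 2 + e / 2) < t)
    (h3 : t < Real.pi / 2 + e / 2) : -Real.sin (e / 2) < Real.cos t := by
  have hpi := Real.pi_pos
  have h4 : -Real.sin (e / 2) = Real.cos (Real.pi / 2 + e / 2) := by
    rw [add_comm, Real.cos_add_pi_div_two]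
  rw [h4, ← Real.cos_abs t]
  apply Real.cos_lt_cos_of_nonneg_of_le_pi (abs_nonneg _) (by linarith)
  exact abs_lt.2 ⟨h2, h3⟩

section
variable {b c e : ℝ} {L1 L2 L3 : ℂ → Prop}

theorem n1 (he0 : 0 < e) (he1 : e ≤ Real.pi / 3)
    (h : Cfg b (gP c (2 * Real.sin (e / 2))) (giP c (2 * Real.sin (e / 2))) L1 L2 L3)
    {a : ℝ} (ha : L1 (E a)) : Real.sin (e / 2) ≤ Real.cos a := by
  have hs : 0 < Real.sin (e / 2) :=
    Real.sin_pos_of_pos_of_lt_pi (by linarith) (by linarith [Real.pi_pos])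
  have h1 := h.in3 _ (h.g13 _ ha)
  unfold gP at h1
  rw [norm_mul, E_norm, one_mul] at h1
  have h2 : ‖E a - ((2 * Real.sin (e / 2) : ℝ) : ℂ)‖ ^ 2 ≤ 1 := by
    have := norm_nonneg (E a - ((2 * Real.sin (e / 2) : ℝ) : ℂ))
    nlinarith
  rw [norm_sub_sq'] at h2
  nlinarith

theorem n2 (he0 : 0 < e) (he1 : e ≤ Real.pi / 3)
    (h : Cfg b (gP c (2 * Real.sin (e / 2))) (giP c (2 * Real.sin (e / 2))) L1 L2 L3)
    {a : ℝ} (ha : L2 (E a)) : Real.sin (e / 2) ≤ Real.cos (a - b) := by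
  have h1 := h.r21 _ ha
  rw [E_mul] at h1
  have := n1 he0 he1 h h1
  have e1 : -b + a = a - b := by ring
  rwa [e1] at this

theorem n3 (he0 : 0 < e) (he1 : e ≤ Real.pi / 3)
    (h : Cfg b (gP c (2 * Real.sin (e / 2))) (giP c (2 * Real.sin (e / 2))) L1 L2 L3)
    {a : ℝ} (ha : L3 (E a)) : Real.cos (a - c) ≤ -Real.sin (e / 2) := by
  have hs : 0 < Real.sin (e / 2) :=
    Real.sin_pos_of_pos_of_lt_pi (by linarith) (by linarith [Real.pi_pos])
  have h1 := h.in1 _ (h.g31 _ ha)
  unfold giP at h1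
  rw [E_mul] at h1
  have h2 : ‖((2 * Real.sin (e / 2) : ℝ) : ℂ) + E (-c + a)‖ ^ 2 ≤ 1 := by
    have := norm_nonneg (((2 * Real.sin (e / 2) : ℝ) : ℂ) + E (-c + a))
    nlinarith
  rw [norm_add_sq'] at h2
  have e1 : -c + a = a - c := by ring
  rw [e1] at h2
  nlinarith

theorem norm_E (a : ℝ) : ‖E a‖ ≤ 1 := (E_norm a).le

/-- the exclusive label 2 -/
theorem x2 (he0 : 0 < e) (he1 : e ≤ Real.pi / 3)
    (h : Cfg b (gP c (2 * Real.sin (e / 2))) (giP c (2 * Real.sin (e / 2))) L1 L2 L3)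
    {a : ℝ} (h1 : Real.cos a < Real.sin (e / 2)) (h3 : -Real.sin (e / 2) < Real.cos (a - c)) :
    L2 (E a) := by
  rcases h.cov _ (norm_E a) with h4 | h4 | h4
  · exact absurd (n1 he0 he1 h h4) (not_le.2 h1)
  · exact h4
  · exact absurd (n3 he0 he1 h h4) (not_le.2 h3)

end

theorem gg (c d e2 : ℝ) (hd : d * Real.cos (c / 2) = Real.sin e2) :
    gP c d (gP c d (E (Real.pi / 2 - c / 2 - e2))) = E (3 * c / 2 + Real.pi / 2 + e2) := by
  have e1 : E (3 * c / 2 + Real.pi / 2 + e2) = E c * (E (c / 2) * E (Real.pi / 2 + e2)) := by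
    rw [E_mul, E_mul]
    congr 1
    ring
  have e3 : E (Real.pi / 2 - c / 2 - e2) = E (-(c / 2)) * E (Real.pi / 2 - e2) := by
    rw [E_mul]; congr 1; ring
  have e4 : E c * E (-(c / 2)) = E (c / 2) := by rw [E_mul]; congr 1; ring
  have e5 : E c = E (c / 2) * E (c / 2) := by rw [E_mul]; congr 1; ring
  have e6 : E (c / 2) * E (-(c / 2)) = 1 := by
    rw [E_mul, add_neg_cancel]; simp [E]
  have e7 : E (Real.pi / 2 - e2) - E (Real.pi / 2 + e2) = ((2 * Real.sin e2 : ℝ) : ℂ) := by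
    apply Complex.ext
    · rw [Complex.sub_re, E_re, E_re, Complex.ofReal_re, Real.cos_pi_div_two_sub, add_comm,
        Real.cos_add_pi_div_two]
      ring
    · rw [Complex.sub_im, E_im, E_im, Complex.ofReal_im, Real.sin_pi_div_two_sub, add_comm,
        Real.sin_add_pi_div_two]
      ring
  have e8 : (d : ℂ) * (E (c / 2) + E (-(c / 2))) = ((2 * Real.sin e2 : ℝ) : ℂ) := by
    rw [← hd]
    apply Complex.ext
    · simp only [Complex.mul_re, Complex.add_re, Complex.add_im, E_re, E_im, Complex.ofReal_re,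
        Complex.ofReal_im, Real.cos_neg, Real.sin_neg]
      ring
    · simp only [Complex.mul_im, Complex.add_re, Complex.add_im, E_re, E_im, Complex.ofReal_re,
        Complex.ofReal_im, Real.cos_neg, Real.sin_neg]
      ring
  unfold gP
  rw [e1]
  congr 1
  rw [e3]
  have e9 : E (Real.pi / 2 + e2) = E (Real.pi / 2 - e2) - (d : ℂ) * (E (c / 2) + E (-(c / 2))) := by
    rw [e8, ← e7]; ring
  rw [e9]
  have e10 : E c * (E (-(c / 2)) * E (Real.pi / 2 - e2) - (d : ℂ)) =
      E (c / 2) * E (Real.pi / 2 - e2) - d * (E (c / 2) * E (c / 2)) := by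
    rw [mul_sub, ← mul_assoc, e4, ← e5]; ring
  rw [e10]
  linear_combination (d : ℂ) * e6

theorem gi_g (c d : ℝ) (x : ℂ) : giP c d (gP c d x) = x := by
  unfold giP gP
  rw [← mul_assoc, E_mul, neg_add_cancel]
  simp [E]

theorem t : T5 := by
  intro b c e L1 L2 L3 hB h1 h2 h3 h4 hcfg
  obtain ⟨b0, b1, e0, e1, c0, c1, c2⟩ := hB
  simp only [CfgO, if_true] at hcfg
  have hpi := Real.pi_pos
  have hs : 0 < Real.sin (e / 2) :=
    Real.sin_pos_of_pos_of_lt_pi (by linarith) (by linarith [Real.pi_pos])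
  have hc : 0 ≤ Real.cos (c / 2) :=
    Real.cos_nonneg_of_neg_pi_div_two_le_of_le (by linarith) (by linarith)
  have hee0 : 0 ≤ ee c e := Real.arcsin_nonneg.2 (by positivity)
  have hee1 : ee c e ≤ e := ee_le e0 e1 c1 (by linarith)
  have hsin : 2 * Real.sin (e / 2) * Real.cos (c / 2) = Real.sin (ee c e) := by
    unfold ee
    have hs2 : Real.sin (e / 2) ≤ 1 / 2 := by
      rw [← Real.sin_pi_div_six]
      exact Real.sin_le_sin_of_le_of_le_pi_div_two (by linarith) (by linarith) (by linarith)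
    have hc2 := Real.cos_le_one (c / 2)
    rw [Real.sin_arcsin]
    · have : 0 ≤ 2 * Real.sin (e / 2) * Real.cos (c / 2) := by positivity
      linarith
    · calc 2 * Real.sin (e / 2) * Real.cos (c / 2) ≤ 2 * (1 / 2) * 1 := by gcongr
        _ = 1 := by norm_num
  set e2 := ee c e with he2
  -- the point w
  have hw2 : L2 (E (b + Real.pi / 2 - c / 2 - e2)) := by
    apply x2 e0 e1 hcfg
    · have := cos_gt e0 e1 (t := b + Real.pi / 2 - c / 2 - e2 - Real.pi) (by linarith)
        (by linarith)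
      rw [Real.cos_sub_pi] at this
      linarith
    · exact cos_gt e0 e1 (by linarith) (by linarith)
  have hw1 : L1 (E (Real.pi / 2 - c / 2 - e2)) := by
    have := hcfg.r21 _ hw2
    rw [E_mul] at this
    have e3 : -b + (b + Real.pi / 2 - c / 2 - e2) = Real.pi / 2 - c / 2 - e2 := by ring
    rwa [e3] at this
  have hgw := hcfg.g13 _ hw1
  have hz : L3 (E (3 * c / 2 + Real.pi / 2 + e2)) := by
    have hn2 : ¬ L2 (E (3 * c / 2 + Real.pi / 2 + e2)) := by
      intro h5
      have h6 := n2 e0 e1 hcfg h5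
      have := cos_gt e0 e1 (t := 3 * c / 2 + Real.pi / 2 + e2 - b - Real.pi) (by linarith)
        (by linarith)
      rw [Real.cos_sub_pi] at this
      linarith
    have hn1 : ¬ L1 (E (3 * c / 2 + Real.pi / 2 + e2)) := by
      intro h5
      rcases lt_or_ge (3 * c / 2 + e2) (Real.pi + e / 2) with h6 | h6
      · have h7 := n1 e0 e1 hcfg h5
        have := cos_gt e0 e1 (t := 3 * c / 2 + Real.pi / 2 + e2 - Real.pi) (by linarith)
          (by linarith)
        rw [Real.cos_sub_pi] at this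
        linarith
      · have h7 : L2 (E (3 * c / 2 + Real.pi / 2 + e2 + 2 * b)) := by
          apply x2 e0 e1 hcfg
          · have := cos_gt e0 e1 (t := 3 * c / 2 + Real.pi / 2 + e2 + 2 * b - 2 * Real.pi - Real.pi)
              (by linarith) (by linarith)
            rw [Real.cos_sub_pi, Real.cos_sub_two_pi] at this
            linarith
          · have := cos_gt e0 e1 (t := 3 * c / 2 + Real.pi / 2 + e2 + 2 * b - c - 2 * Real.pi)
              (by linarith) (by linarith)
            rwa [Real.cos_sub_two_pi] at this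
        have h8 := hcfg.r21 _ h7
        have h9 := hcfg.r12 _ h5
        rw [E_mul] at h8 h9
        have e4 : -b + (3 * c / 2 + Real.pi / 2 + e2 + 2 * b) =
          b + (3 * c / 2 + Real.pi / 2 + e2) := by ring
        rw [e4] at h8
        exact hcfg.n12 _ h8 h9
    rcases hcfg.cov _ (norm_E (3 * c / 2 + Real.pi / 2 + e2)) with h5 | h5 | h5
    · exact absurd h5 hn1
    · exact absurd h5 hn2
    · exact h5
  rw [← gg c _ e2 hsin] at hz
  have := hcfg.g31 _ hz
  rw [gi_g] at this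
  exact hcfg.n13 _ this hgw

end Pool.Agent.H373R4.Disc.T5
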