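import Pool.Agent.H373R4.Disc.Stmts

set_option autoImplicit false

namespace Pool.Agent.H373R4.Disc.T6

open Complex ComplexConjugate Pool.Agent.H908R3.Disc Pool.Agent.H373R4.Disc

theorem E_eq (a : ℝ) : E a = (Real.cos a : ℂ) + (Real.sin a : ℂ) * I := by
  unfold E
  rw [Complex.exp_mul_I, ← Complex.ofReal_cos, ← Complex.ofReal_sin]

theorem E_add (a b : ℝ) : E (a + b) = E a * E b := by
  unfold E
  rw [← Complex.exp_add]
  congr 1
  push_cast
  ring

theorem E_neg_mul (a : ℝ) : E a * E (-a) = 1 := by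
  rw [← E_add, add_neg_cancel]
  unfold E
  simp

theorem norm_E (a : ℝ) : ‖E a‖ = 1 := by
  unfold E
  exact Complex.norm_exp_ofReal_mul_I a

theorem E_re (a : ℝ) : (E a).re = Real.cos a := by
  rw [E_eq]; simp [-Complex.ofReal_cos, -Complex.ofReal_sin]

theorem E_im (a : ℝ) : (E a).im = Real.sin a := by
  rw [E_eq]; simp [-Complex.ofReal_cos, -Complex.ofReal_sin]

theorem nrm {θ d : ℝ} {z P : ℂ} (hz : z = E θ * (1 + (d:ℂ) * P)) :
    ‖z‖ ^ 2 = 1 + 2 * d * P.re + d ^ 2 * (P.re ^ 2 + P.im ^ 2) := by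
  rw [hz, norm_mul, norm_E, one_mul, ← Complex.normSq_eq_norm_sq, Complex.normSq_apply]
  simp
  ring

theorem out {θ d : ℝ} {z P : ℂ} (hz : z = E θ * (1 + (d:ℂ) * P)) (hd : 0 < d) (hP : 0 < P.re) :
    ¬ ‖z‖ ≤ 1 := by
  intro h1
  have h2 : ‖z‖ ^ 2 ≤ 1 := by
    have := norm_nonneg z
    nlinarith
  rw [nrm hz] at h2
  have h3 : 0 < d * P.re := mul_pos hd hP
  have h4 : 0 ≤ d ^ 2 * (P.re ^ 2 + P.im ^ 2) := by positivity
  linarith

/-- a point of the second label is in the disc around `d E b`, in the form of the third. -/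
theorem gt_one {z : ℂ} {s : ℝ} (h : ‖z‖ ^ 2 = s) (hs : 1 < s) : ¬ ‖z‖ ≤ 1 := by
  intro h1
  have h2 : ‖z‖ ^ 2 ≤ 1 := by
    have := norm_nonneg z
    nlinarith
  linarith

/-- The identity behind `|P2|^2 = 1 + 4 S K`. -/
theorem sq_id (p q t : ℝ) :
    (Real.cos (p - q - t) - Real.cos (p + q - t) - Real.cos (q - p - t)) ^ 2 +
      (Real.sin (p - q - t) - Real.sin (p + q - t) - Real.sin (q - p - t)) ^ 2 =
    1 + 4 * Real.sin (q - p) * (2 * Real.cos p * Real.sin q) := by
  have hN : ∀ x y z : ℝ, (Real.cos x - Real.cos y - Real.cos z) ^ 2 +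
      (Real.sin x - Real.sin y - Real.sin z) ^ 2 =
      3 - 2 * Real.cos (x - y) - 2 * Real.cos (x - z) + 2 * Real.cos (y - z) := by
    intro x y z
    rw [Real.cos_sub x y, Real.cos_sub x z, Real.cos_sub y z]
    linear_combination Real.cos_sq_add_sin_sq x + Real.cos_sq_add_sin_sq y +
      Real.cos_sq_add_sin_sq z
  rw [hN, show p - q - t - (p + q - t) = -(2 * q) by ring,
    show p - q - t - (q - p - t) = -(2 * (q - p)) by ring,
    show p + q - t - (q - p - t) = 2 * p by ring, Real.cos_neg, Real.cos_neg,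
    Real.cos_two_mul, Real.cos_two_mul, Real.cos_two_mul, Real.sin_sub, Real.cos_sub]
  have h1 := Real.cos_sq_add_sin_sq p
  have h2 := Real.cos_sq_add_sin_sq q
  have e1 : Real.sin p ^ 2 = 1 - Real.cos p ^ 2 := by linarith
  have e2 : Real.sin q ^ 2 = 1 - Real.cos q ^ 2 := by linarith
  ring_nf
  rw [e1, e2]
  ring

set_option maxHeartbeats 4000000 in
theorem t : T6 := by
  intro b c e L1 L2 L3 hB hc1 hc2 hc3 hcfg
  have h : Cfg b (gP c (2 * Real.sin (e/2))) (giP c (2 * Real.sin (e/2))) L1 L2 L3 := by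
    simpa [CfgO] using hcfg
  obtain ⟨b0, b1, e0, e1, c0, c1, c2⟩ := hB
  have hee := ee_le (c := c) e0 e1 c1 (by linarith)
  obtain ⟨p, rfl⟩ : ∃ p : ℝ, b = Real.pi - 2 * p := ⟨(Real.pi - b) / 2, by ring⟩
  obtain ⟨q, rfl⟩ : ∃ q : ℝ, c = Real.pi - 2 * q := ⟨(Real.pi - c) / 2, by ring⟩
  have hpi := Real.pi_pos
  obtain ⟨d, hd⟩ : ∃ d : ℝ, d = 2 * Real.sin (e / 2) := ⟨_, rfl⟩
  rw [← hd] at h
  have hsq : Real.cos ((Real.pi - 2 * q) / 2) = Real.sin q := by
    rw [show (Real.pi - 2 * q) / 2 = Real.pi / 2 - q by ring, Real.cos_pi_div_two_sub]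
  obtain ⟨e2, he2⟩ : ∃ e2 : ℝ, e2 = ee (Real.pi - 2 * q) e := ⟨_, rfl⟩
  have he2' : e2 = Real.arcsin (d * Real.sin q) := by
    rw [he2, hd]
    unfold ee
    rw [hsq]
  rw [← he2] at hc3 hee
  -- basic inequalities
  have d0 : 0 < d := by
    rw [hd]
    have := Real.sin_pos_of_pos_of_lt_pi (x := e / 2) (by linarith) (by linarith)
    linarith
  have d1 : d ≤ 1 := by
    rw [hd]
    have h1 : Real.sin (e / 2) ≤ Real.sin (Real.pi / 6) :=
      Real.sin_le_sin_of_le_of_le_pi_div_two (by linarith) (by linarith) (by linarith)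
    rw [Real.sin_pi_div_six] at h1
    linarith
  have i1 : p + q < Real.pi / 2 := by linarith
  have i2 : q ≤ 2 * p := by linarith
  have i3 : 2 * p + e ≤ 2 * q := by linarith
  have hq0 : 0 < q := by linarith
  have hsq0 : 0 < Real.sin q := Real.sin_pos_of_pos_of_lt_pi hq0 (by linarith)
  have he20 : 0 ≤ e2 := by
    rw [he2']
    exact Real.arcsin_nonneg.mpr (by positivity)
  have hse2 : Real.sin e2 = d * Real.sin q := by
    rw [he2']
    apply Real.sin_arcsin
    · have : 0 < d * Real.sin q := by positivity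
      linarith
    · have := Real.sin_le_one q
      nlinarith
  have i4 : Real.pi / 2 + 2 * p + e2 + e / 2 ≤ 3 * q := by linarith
  have i5 : Real.pi / 2 + e2 + e / 2 ≤ 2 * q := by linarith
  have i6 : p < Real.pi / 5 := by linarith
  have i7 : q < Real.pi / 3 := by linarith
  have i8 : 0 < p := by linarith
  -- S and K
  obtain ⟨S, hS⟩ : ∃ S : ℝ, S = Real.sin (q - p) := ⟨_, rfl⟩
  obtain ⟨K, hK⟩ : ∃ K : ℝ, K = 2 * Real.cos p * Real.sin q := ⟨_, rfl⟩
  have hS0 : 0 < S := by
    rw [hS]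
    exact Real.sin_pos_of_pos_of_lt_pi (by linarith) (by linarith)
  have hS1 : S < 1 / 2 := by
    rw [hS, ← Real.sin_pi_div_six]
    exact Real.sin_lt_sin_of_lt_of_le_pi_div_two (by linarith) (by linarith) (by linarith)
  have hcp : 1 / 2 < Real.cos p := by
    rw [← Real.cos_pi_div_three]
    exact Real.cos_lt_cos_of_nonneg_of_le_pi (by linarith) (by linarith) (by linarith)
  have hsq1 : 1 / 2 < Real.sin q := by
    rw [← Real.sin_pi_div_six]
    exact Real.sin_lt_sin_of_lt_of_le_pi_div_two (by linarith) (by linarith) (by linarith)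
  have hK1 : 1 / 2 < K := by
    rw [hK]
    nlinarith
  obtain ⟨lam, hlam⟩ : ∃ lam : ℝ, lam = (1 + 4 * S * K) / (2 * (1 + 2 * S)) := ⟨_, rfl⟩
  have hlam0 : 0 < lam := by
    rw [hlam]
    have : 0 < K := by linarith
    positivity
  have hlamE : 2 * (1 + 2 * S) * lam = 1 + 4 * S * K := by
    rw [hlam]
    field_simp
  have hlam1 : lam < 1 / 4 + K / 2 := by
    rw [hlam, div_lt_iff₀ (by linarith)]
    nlinarith [mul_pos (sub_pos.mpr hS1) (sub_pos.mpr hK1)]
  have hce2 : 1 / 2 ≤ Real.cos e2 := by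
    rw [← Real.cos_pi_div_three]
    exact Real.cos_le_cos_of_nonneg_of_le_pi he20 (by linarith) (by linarith)
  have hcpe : Real.cos p ≤ Real.cos (e / 2) :=
    Real.cos_le_cos_of_nonneg_of_le_pi (by linarith) (by linarith) (by linarith)
  have hkey : d * lam < Real.sin (e2 + e / 2) := by
    rw [Real.sin_add, hse2]
    have h1 : Real.sin (e / 2) = d / 2 := by linarith
    rw [h1]
    have h2 : lam < Real.sin q * Real.cos (e / 2) + Real.cos e2 / 2 := by
      have h3 : Real.cos p * Real.sin q ≤ Real.cos (e / 2) * Real.sin q :=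
        mul_le_mul_of_nonneg_right hcpe hsq0.le
      rw [hK] at hlam1
      linarith
    calc d * lam < d * (Real.sin q * Real.cos (e / 2) + Real.cos e2 / 2) :=
          mul_lt_mul_of_pos_left h2 d0
      _ = d * Real.sin q * Real.cos (e / 2) + Real.cos e2 * (d / 2) := by ring
  have hdl0 : 0 < d * lam := by positivity
  have hdl1 : d * lam ≤ 1 := hkey.le.trans (Real.sin_le_one _)
  obtain ⟨τ, hτ⟩ : ∃ τ : ℝ, τ = Real.arcsin (d * lam) := ⟨_, rfl⟩
  have hsτ : Real.sin τ = d * lam := by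
    rw [hτ]
    exact Real.sin_arcsin (by linarith) hdl1
  have hτ0 : 0 < τ := by
    rw [hτ]
    exact Real.arcsin_pos.mpr hdl0
  have hτ1 : τ < e2 + e / 2 := by
    by_contra hcon
    have h1 : Real.sin (e2 + e / 2) ≤ Real.sin τ :=
      Real.sin_le_sin_of_le_of_le_pi_div_two (by linarith)
        (by rw [hτ]; exact Real.arcsin_le_pi_div_two _) (not_lt.mp hcon)
    rw [hsτ] at h1
    linarith
  have j1 : τ < 3 * q - 2 * p - Real.pi / 2 := by linarith
  have j2 : τ < 2 * q - Real.pi / 2 := by linarith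
  clear hlam hce2 hcpe hkey he2 he2' hse2 hcp hsq1 c0 c1 c2 hc1 hc2 hc3
  obtain ⟨ω, hω⟩ : ∃ ω : ℝ, ω = p - q + τ := ⟨_, rfl⟩
  obtain ⟨b, hb⟩ : ∃ b : ℝ, b = Real.pi - 2 * p := ⟨_, rfl⟩
  obtain ⟨c, hc⟩ : ∃ c : ℝ, c = Real.pi - 2 * q := ⟨_, rfl⟩
  rw [← hb, ← hc] at h
  have Eb := E_neg_mul b
  have Ec := E_neg_mul c
  have Ew := E_neg_mul ω
  have dom1 : ∀ x, L1 x → ‖x - d‖ ≤ 1 := by
    intro x hx
    have h1 := h.in3 _ (h.g13 x hx)
    unfold gP at h1
    rwa [norm_mul, norm_E, one_mul] at h1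
  have dom2 : ∀ x, L2 x → ‖x - d * E b‖ ≤ 1 := by
    intro x hx
    have h1 := dom1 _ (h.r21 x hx)
    have h2 : E (-b) * x - d = E (-b) * (x - d * E b) := by
      linear_combination (d:ℂ) * Eb
    rwa [h2, norm_mul, norm_E, one_mul] at h1
  have dom3 : ∀ x, L3 x → ‖x + d * E c‖ ≤ 1 := by
    intro x hx
    have h1 := h.in1 _ (h.g31 x hx)
    unfold giP at h1
    have h2 : d + E (-c) * x = E (-c) * (x + d * E c) := by
      linear_combination -(d:ℂ) * Ec
    rwa [h2, norm_mul, norm_E, one_mul] at h1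
  -- step 1
  have hX2 : L2 (E b * E ω) := by
    rcases h.cov (E b * E ω) (by rw [norm_mul, norm_E, norm_E, one_mul]) with h1 | h1 | h1
    · refine absurd (dom1 _ h1) (out (θ := b + ω) (P := -E (-(b + ω))) ?_ d0 ?_)
      · rw [← E_add]
        linear_combination (d:ℂ) * E_neg_mul (b + ω)
      · rw [Complex.neg_re, E_re, Real.cos_neg, hb, hω,
          show Real.pi - 2 * p + (p - q + τ) = Real.pi - (p + q - τ) by ring,
          Real.cos_pi_sub, neg_neg]
        exact Real.cos_pos_of_mem_Ioo ⟨by linarith, by linarith⟩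
    · exact h1
    · refine absurd (dom3 _ h1) (out (θ := b + ω) (P := E (c - (b + ω))) ?_ d0 ?_)
      · rw [mul_add, mul_one, ← E_add, mul_left_comm, ← E_add]
        congr 3
        ring
      · rw [E_re, hb, hc, hω,
          show Real.pi - 2 * q - (Real.pi - 2 * p + (p - q + τ)) = -(q - p + τ) by ring,
          Real.cos_neg]
        exact Real.cos_pos_of_mem_Ioo ⟨by linarith, by linarith⟩
  have hw : L1 (E ω) := by
    have h1 := h.r21 _ hX2
    have h2 : E (-b) * (E b * E ω) = E ω := by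
      linear_combination E ω * Eb
    rwa [h2] at h1
  -- step 2
  have hg3 : L3 (E c * (E ω - d)) := h.g13 _ hw
  have ht3 : L3 (E b * (E c * (E ω - d))) := by
    have hn : ‖E b * (E c * (E ω - d))‖ ≤ 1 := by
      rw [norm_mul, norm_E, one_mul]
      exact h.in3 _ hg3
    rcases h.cov _ hn with h1 | h1 | h1
    · refine absurd (dom1 _ h1) (out (θ := b + c + ω)
        (P := -(E (-ω) + E (-b) * E (-c) * E (-ω))) ?_ d0 ?_)
      · rw [E_add, E_add]
        linear_combination (d:ℂ) * E b * E c * Ew +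
          (d:ℂ) * (E c * E (-c) * (E ω * E (-ω)) * Eb + E ω * E (-ω) * Ec + Ew)
      · rw [← E_add, ← E_add, Complex.neg_re, Complex.add_re, E_re, E_re, hb, hc, hω,
          show -(p - q + τ) = (2 * q - τ) - (p + q) by ring,
          show -(Real.pi - 2 * p) + -(Real.pi - 2 * q) + ((2 * q - τ) - (p + q)) =
            ((2 * q - τ) + (p + q)) - 2 * Real.pi by ring, Real.cos_sub_two_pi,
          Real.cos_sub (2 * q - τ) (p + q), Real.cos_add (2 * q - τ) (p + q)]
        have k1 : Real.cos (2 * q - τ) < 0 :=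
          Real.cos_neg_of_pi_div_two_lt_of_lt (by linarith) (by linarith)
        have k2 : 0 < Real.cos (p + q) := Real.cos_pos_of_mem_Ioo ⟨by linarith, by linarith⟩
        have k3 : 0 < -Real.cos (2 * q - τ) * Real.cos (p + q) :=
          mul_pos (by linarith) k2
        linarith
    · exfalso
      have h2 := h.r21 _ h1
      have h3 : E (-b) * (E b * (E c * (E ω - d))) = E c * (E ω - d) := by
        linear_combination (E c * (E ω - d)) * Eb
      rw [h3] at h2
      exact h.n13 _ h2 hg3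
    · exact h1
  -- step 3
  have hy := h.g31 _ ht3
  have x1 : c + -b + -ω = p - q - τ := by rw [hb, hc, hω]; ring
  have x2 : -b + -ω = (p + q - τ) - Real.pi := by rw [hb, hω]; ring
  have x3 : -ω = q - p - τ := by rw [hω]; ring
  have x4 : c + -ω = Real.pi - (p + q + τ) := by rw [hc, hω]; ring
  have x5 : c + c + -b + -ω = Real.pi - (2 * q + (q - p + τ)) := by rw [hb, hc, hω]; ring
  have id1 : d + E (-c) * (d + E (-c) * (E b * (E c * (E ω - d)))) =
      E (b + -c + ω) * (1 + (d:ℂ) * (E (c + -b + -ω) + E (-b + -ω) - E (-ω))) := by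
    simp only [E_add]
    linear_combination E (-c) * E b * (E ω - d) * Ec -
      (d:ℂ) * (E c * E (-c) * (E ω * E (-ω)) * Eb + E ω * E (-ω) * Ec + Ew) -
      (d:ℂ) * E (-c) * (E ω * E (-ω) * Eb + Ew) + (d:ℂ) * E b * E (-c) * Ew
  have id2 : d + E (-c) * (d + E (-c) * (E b * (E c * (E ω - d)))) - d * E b =
      E (b + -c + ω) * (1 + (d:ℂ) * (E (c + -b + -ω) + E (-b + -ω) - E (-ω) - E (c + -ω))) := by
    simp only [E_add]
    linear_combination E (-c) * E b * (E ω - d) * Ec -
      (d:ℂ) * (E c * E (-c) * (E ω * E (-ω)) * Eb + E ω * E (-ω) * Ec + Ew) -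
      (d:ℂ) * E (-c) * (E ω * E (-ω) * Eb + Ew) + (d:ℂ) * E b * E (-c) * Ew +
      (d:ℂ) * E b * (E ω * E (-ω) * Ec + Ew)
  have id3 : d + E (-c) * (d + E (-c) * (E b * (E c * (E ω - d)))) + d * E c =
      E (b + -c + ω) * (1 + (d:ℂ) * (E (c + -b + -ω) + E (-b + -ω) - E (-ω) +
        E (c + c + -b + -ω))) := by
    simp only [E_add]
    linear_combination E (-c) * E b * (E ω - d) * Ec -
      (d:ℂ) * (E c * E (-c) * (E ω * E (-ω)) * Eb + E ω * E (-ω) * Ec + Ew) -
      (d:ℂ) * E (-c) * (E ω * E (-ω) * Eb + Ew) + (d:ℂ) * E b * E (-c) * Ew -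
      (d:ℂ) * E c * (E c * E (-c) * (E ω * E (-ω)) * Eb + E ω * E (-ω) * Ec + Ew)
  have hsτ0 : 0 < Real.sin τ := by rw [hsτ]; exact hdl0
  -- real parts
  have r1 : Real.cos (p - q - τ) - Real.cos (q - p - τ) = -2 * S * Real.sin τ := by
    rw [hS, show p - q - τ = -((q - p) + τ) by ring, Real.cos_neg, Real.cos_add (q - p) τ,
      Real.cos_sub (q - p) τ]
    ring
  have r2 : Real.sin τ ≤ Real.cos (p + q - τ) := by
    rw [← Real.cos_pi_div_two_sub]
    exact Real.cos_le_cos_of_nonneg_of_le_pi (by linarith) (by linarith) (by linarith)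
  have hn : ‖(d:ℂ) + E (-c) * (d + E (-c) * (E b * (E c * (E ω - d))))‖ ≤ 1 := by
    have h1 := nrm id1
    rw [x1, x2, x3, Complex.sub_re, Complex.add_re, Complex.sub_im, Complex.add_im, E_re, E_re,
      E_re, E_im, E_im, E_im, Real.cos_sub_pi, Real.sin_sub_pi, ← sub_eq_add_neg,
      ← sub_eq_add_neg, sq_id, ← hS, ← hK] at h1
    have h2 : d ^ 2 * (1 + 4 * S * K) = 2 * d * (1 + 2 * S) * Real.sin τ := by
      rw [← hlamE, hsτ]; ring
    rw [h2] at h1
    have h3 : ‖(d:ℂ) + E (-c) * (d + E (-c) * (E b * (E c * (E ω - d))))‖ ^ 2 ≤ 1 := by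
      rw [h1]
      have h4 : d * Real.sin τ ≤ d * Real.cos (p + q - τ) := mul_le_mul_of_nonneg_left r2 d0.le
      have h5 : d * (Real.cos (p - q - τ) - Real.cos (q - p - τ)) = d * (-2 * S * Real.sin τ) := by
        rw [r1]
      linarith
    exact (sq_le_one_iff₀ (norm_nonneg _)).mp h3
  have hv : L1 (giP c d (giP c d (E b * (E c * (E ω - d))))) := by
    have hlamK : lam < K := by linarith
    rcases h.cov _ hn with h1 | h1 | h1
    · exact h1
    · exfalso
      have h2 := dom2 _ h1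
      have h3 := nrm id2
      rw [x4, x1, x2, x3, Complex.sub_re, Complex.sub_re, Complex.add_re, Complex.sub_im,
        Complex.sub_im, Complex.add_im, E_re, E_re, E_re, E_re, E_im, E_im, E_im, E_im,
        Real.cos_sub_pi, Real.sin_sub_pi, Real.cos_pi_sub, Real.sin_pi_sub] at h3
      have h4 : Real.cos (p - q - τ) + -Real.cos (p + q - τ) - Real.cos (q - p - τ) -
          -Real.cos (p + q + τ) = -2 * K * Real.sin τ := by
        rw [hK, show p - q - τ = -((q - p) + τ) by ring, Real.cos_neg, Real.cos_add (q - p),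
          Real.cos_sub (p + q), Real.cos_sub (q - p), Real.cos_add (p + q), Real.sin_sub,
          Real.sin_add]
        ring
      have h5 : Real.sin (p - q - τ) + -Real.sin (p + q - τ) - Real.sin (q - p - τ) -
          Real.sin (p + q + τ) = -2 * K * Real.cos τ := by
        rw [hK, show p - q - τ = -((q - p) + τ) by ring, Real.sin_neg, Real.sin_add (q - p),
          Real.sin_sub (p + q), Real.sin_sub (q - p), Real.sin_add (p + q), Real.sin_sub,
          Real.sin_add]
        ring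
      rw [h4, h5] at h3
      have h6 : (-2 * K * Real.sin τ) ^ 2 + (-2 * K * Real.cos τ) ^ 2 = 4 * K ^ 2 := by
        linear_combination 4 * K ^ 2 * Real.sin_sq_add_cos_sq τ
      rw [h6, hsτ] at h3
      have h7 : ‖(d:ℂ) + E (-c) * (d + E (-c) * (E b * (E c * (E ω - d)))) - d * E b‖ ^ 2 ≤ 1 :=
        (sq_le_one_iff₀ (norm_nonneg _)).mpr h2
      rw [h3] at h7
      have h8 : 0 < d ^ 2 * K * (K - lam) :=
        mul_pos (mul_pos (pow_pos d0 2) (by linarith)) (by linarith)
      nlinarith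
    · exfalso
      refine absurd (dom3 _ h1) (out id3 d0 ?_)
      rw [x5, x1, x2, x3, Complex.add_re, Complex.sub_re, Complex.add_re, E_re, E_re, E_re, E_re,
        Real.cos_sub_pi, Real.cos_pi_sub, show p + q - τ = 2 * q - (q - p + τ) by ring,
        Real.cos_sub (2 * q), Real.cos_add (2 * q)]
      have k1 : Real.sin τ ≤ -Real.cos (2 * q) := by
        have k2 : Real.sin τ ≤ Real.sin (2 * q - Real.pi / 2) :=
          Real.sin_le_sin_of_le_of_le_pi_div_two (by linarith) (by linarith) (by linarith)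
        rwa [Real.sin_sub_pi_div_two] at k2
      have k3 : S < Real.cos (q - p + τ) := by
        rw [hS, ← Real.sin_pi_div_two_sub]
        exact Real.sin_lt_sin_of_lt_of_le_pi_div_two (by linarith) (by linarith) (by linarith)
      have k4 : Real.sin τ * S < -Real.cos (2 * q) * Real.cos (q - p + τ) :=
        calc Real.sin τ * S < Real.sin τ * Real.cos (q - p + τ) :=
              mul_lt_mul_of_pos_left k3 hsτ0
          _ ≤ -Real.cos (2 * q) * Real.cos (q - p + τ) :=
              mul_le_mul_of_nonneg_right k1 (by linarith)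
      linarith
  have hfin := h.g13 _ hv
  have hg : gP c d (giP c d (giP c d (E b * (E c * (E ω - d))))) =
      giP c d (E b * (E c * (E ω - d))) := by
    unfold gP
    generalize giP c d (E b * (E c * (E ω - d))) = y
    unfold giP
    linear_combination y * Ec
  rw [hg] at hfin
  exact h.n13 _ hy hfin

end Pool.Agent.H373R4.Disc.T6
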