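import Mathlib
import Pool.Agent.H373R4.Disc.Stmts
import Pool.Agent.H908R3.Disc.Basic

/-!
# Project H908-DISC, chain lemma T7
-/

set_option autoImplicit false

namespace Pool.Agent.H373R4.Disc.T7

open Complex ComplexConjugate Pool.Agent.H908R3.Disc

theorem nsq (a d : ℝ) (P : ℂ) :
    ‖E a + d * P‖ ^ 2 = 1 + 2 * d * (E (-a) * P).re + d ^ 2 * ‖P‖ ^ 2 := by
  rw [normSq_eq, normSq_eq]
  simp only [Complex.add_re, Complex.add_im, Complex.mul_re, Complex.mul_im, E_re, E_im,
    Complex.ofReal_re, Complex.ofReal_im, Real.cos_neg, Real.sin_neg]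
  have := Real.sin_sq_add_cos_sq a
  linear_combination this

theorem gt_one {a d : ℝ} {P : ℂ} (hd : 0 < d) (h : 0 < 2 * (E (-a) * P).re + d * ‖P‖ ^ 2) :
    ¬ ‖E a + d * P‖ ≤ 1 := by
  intro h1
  have h2 := nsq a d P
  have h3 : ‖E a + d * P‖ ^ 2 ≤ 1 := by
    have := norm_nonneg (E a + d * P)
    nlinarith
  have h4 : 0 < d * (2 * (E (-a) * P).re + d * ‖P‖ ^ 2) := mul_pos hd h
  nlinarith

theorem le_one {a d : ℝ} {P : ℂ} (hd : 0 < d) (h : 2 * (E (-a) * P).re + d * ‖P‖ ^ 2 ≤ 0) :
    ‖E a + d * P‖ ≤ 1 := by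
  have h2 := nsq a d P
  have h4 : d * (2 * (E (-a) * P).re + d * ‖P‖ ^ 2) ≤ 0 :=
    mul_nonpos_of_nonneg_of_nonpos hd.le h
  have h3 : ‖E a + d * P‖ ^ 2 ≤ 1 := by nlinarith
  have := norm_nonneg (E a + d * P)
  nlinarith

/-- the chain -/
theorem chain {B G e a : ℝ} {L1 L2 L3 : ℂ → Prop}
    (h : CfgO true (Real.pi - B) (Real.pi - G) e L1 L2 L3)
    (hd : 0 < 2 * Real.sin (e / 2))
    (hw : L1 (E a))
    (h2 : 0 < (E (-a) * (-1 + E (-B) * E (-B) * E G)).re)
    (hN : 2 * (E (-a) * (-1 - E (-B) + E (-B) * E (-G))).re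
      + 2 * Real.sin (e / 2) * ‖-1 - E (-B) + E (-B) * E (-G)‖ ^ 2 ≤ 0)
    (h1 : 0 < (E (-a) * (-1 - E (-B) + E (-B) * E (-G) + E (-G))).re)
    (h3 : 0 < 2 * (E (-a) * (-1 - E (-B) + E (-B) * E (-G) + E (-G) * E (-G))).re
      + 2 * Real.sin (e / 2) * ‖-1 - E (-B) + E (-B) * E (-G) + E (-G) * E (-G)‖ ^ 2) :
    False := by
  have lab := h.lab
  have H : Cfg (Real.pi - B) (gP (Real.pi - G) (2 * Real.sin (e/2)))
      (giP (Real.pi - G) (2 * Real.sin (e/2))) L1 L2 L3 := h
  set d : ℝ := 2 * Real.sin (e / 2) with hdd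
  have hEb : E (Real.pi - B) = - E (-B) := by
    rw [show Real.pi - B = -B + Real.pi by ring, E_add_pi]
  have hEc : E (Real.pi - G) = - E (-G) := by
    rw [show Real.pi - G = -G + Real.pi by ring, E_add_pi]
  have hEnb : E (-(Real.pi - B)) = - E B := by
    have : E (-(Real.pi - B)) = - (- E (-(Real.pi - B))) := by ring
    rw [this, ← E_add_pi]
    congr 2
    ring
  have hEnc : E (-(Real.pi - G)) = - E G := by
    have : E (-(Real.pi - G)) = - (- E (-(Real.pi - G))) := by ring
    rw [this, ← E_add_pi]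
    congr 2
    ring
  have hB : E B * E (-B) = 1 := by rw [E_mul]; simp [E_zero]
  have hG : E G * E (-G) = 1 := by rw [E_mul]; simp [E_zero]
  have nB : ‖E B * E (-G)‖ = 1 := by rw [norm_mul, norm_E, norm_E, one_mul]
  have nG : ‖- E G‖ = 1 := by rw [norm_neg, norm_E]
  set w : ℂ := E a with hwdef
  set t : ℂ := E (-(Real.pi - B)) * gP (Real.pi - G) d w with ht
  set y : ℂ := giP (Real.pi - G) d t with hy
  set u : ℂ := E (Real.pi - B) * giP (Real.pi - G) d y with hu
  have hgw : L3 (gP (Real.pi - G) d w) := H.g13 _ hw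
  have ht1 : ¬ L1 t := lab.not1_of (fun hh => lab.n23 _ hh hgw)
  have htn : ‖t‖ ≤ 1 := by
    rw [ht, norm_E_mul]
    exact lab.in3 _ hgw
  have ht2 : ¬ L2 t := by
    intro hh
    have h5 := lab.m2 _ hh
    have h6 : t - ((2 * Real.sin (e/2) : ℝ) : ℂ) * E (Real.pi - B) =
        (E B * E (-G)) * (E a + d * (-1 + E (-B) * E (-B) * E G)) := by
      rw [ht, ← hdd, hEb, hEnb]
      simp only [gP]
      rw [hEc, ← hwdef]
      linear_combination (-(d : ℂ) * E (-B) * E B * E (-B)) * hG
        + (-(d : ℂ) * E (-B)) * hB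
    rw [h6, norm_mul, nB, one_mul] at h5
    refine gt_one hd ?_ h5
    have : 0 ≤ d * ‖(-1 + E (-B) * E (-B) * E G : ℂ)‖ ^ 2 := by positivity
    linarith
  have ht3 : L3 t := by
    rcases lab.cov _ htn with hh | hh | hh
    · exact absurd hh ht1
    · exact absurd hh ht2
    · exact hh
  have hy1 : L1 y := H.g31 _ ht3
  have hu2 : ¬ L2 u := by
    intro hh
    have h5 := lab.r21 _ hh
    have h6 : E (-(Real.pi - B)) * u = giP (Real.pi - G) d y := by
      rw [hu, ← mul_assoc, E_mul]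
      simp [E_zero]
    rw [h6] at h5
    have h7 := H.g13 _ h5
    have h8 : gP (Real.pi - G) d (giP (Real.pi - G) d y) = y := by
      simp only [gP, giP]
      rw [hEc, hEnc]
      linear_combination y * hG
    rw [h8] at h7
    exact lab.n13 _ hy1 h7
  have hueq : u = - E G * (E a + d * (-1 - E (-B) + E (-B) * E (-G))) := by
    rw [hu, hy, ht]
    simp only [gP, giP]
    rw [hEb, hEc, hEnb, hEnc, ← hwdef]
    linear_combination (-E G * E G * E (-G) * (w - d)) * hB + (-E G * (w - d)) * hG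
      + (d * E (-B)) * hG
  have hun : ‖u‖ ≤ 1 := by
    rw [hueq, norm_mul, nG, one_mul]
    exact le_one hd hN
  have hu1 : ¬ L1 u := by
    intro hh
    have h5 := lab.m1 _ hh
    have h6 : u - ((2 * Real.sin (e/2) : ℝ) : ℂ) =
        - E G * (E a + d * (-1 - E (-B) + E (-B) * E (-G) + E (-G))) := by
      rw [hueq, ← hdd]
      linear_combination (d : ℂ) * hG
    rw [h6, norm_mul, nG, one_mul] at h5
    refine gt_one hd ?_ h5
    have : 0 ≤ d * ‖(-1 - E (-B) + E (-B) * E (-G) + E (-G) : ℂ)‖ ^ 2 := by positivity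
    linarith
  have hu3 : ¬ L3 u := by
    intro hh
    have h5 := lab.m3 _ hh
    have h6 : u + ((2 * Real.sin (e/2) : ℝ) : ℂ) * E (Real.pi - G) =
        - E G * (E a + d * (-1 - E (-B) + E (-B) * E (-G) + E (-G) * E (-G))) := by
      rw [hueq, ← hdd, hEc]
      linear_combination (d * E (-G)) * hG
    rw [h6, norm_mul, nG, one_mul] at h5
    exact gt_one hd h3 h5
  rcases lab.cov _ hun with hh | hh | hh
  · exact hu1 hh
  · exact hu2 hh
  · exact hu3 hh

theorem reP (a B G : ℝ) : (E (-a) * (-1 - E (-B) + E (-B) * E (-G))).re =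
    -Real.cos a - Real.cos (a + B) + Real.cos (a + B + G) := by
  have h : E (-a) * (-1 - E (-B) + E (-B) * E (-G)) =
      -E (-a) - E (-(a + B)) + E (-(a + B + G)) := by
    rw [show -(a + B) = -a + -B by ring, show -(a + B + G) = -a + (-B + -G) by ring,
      E_add (-a) (-B), E_add (-a) (-B + -G), E_add (-B) (-G)]
    ring
  rw [h, Complex.add_re, Complex.sub_re, Complex.neg_re, E_re, E_re, E_re, Real.cos_neg,
    Real.cos_neg, Real.cos_neg]

theorem reP1 (a B G : ℝ) : (E (-a) * (-1 - E (-B) + E (-B) * E (-G) + E (-G))).re =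
    -Real.cos a - Real.cos (a + B) + Real.cos (a + B + G) + Real.cos (a + G) := by
  rw [mul_add, Complex.add_re, reP, ← E_add, E_re, ← Real.cos_neg (a + G)]
  congr 2
  ring

theorem reP3 (a B G : ℝ) :
    (E (-a) * (-1 - E (-B) + E (-B) * E (-G) + E (-G) * E (-G))).re =
    -Real.cos a - Real.cos (a + B) + Real.cos (a + B + G) + Real.cos (a + G + G) := by
  rw [mul_add, Complex.add_re, reP, ← E_add (-G) (-G), ← E_add, E_re, ← Real.cos_neg (a + G + G)]
  congr 2
  ring

theorem reP2 (a B G : ℝ) : (E (-a) * (-1 + E (-B) * E (-B) * E G)).re =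
    -Real.cos a + Real.cos (a + B + B - G) := by
  have h : E (-a) * (-1 + E (-B) * E (-B) * E G) =
      -E (-a) + E (-(a + B + B - G)) := by
    rw [show -(a + B + B - G) = -a + ((-B + -B) + G) by ring,
      E_add (-a) ((-B + -B) + G), E_add (-B + -B) G, E_add (-B) (-B)]
    ring
  rw [h, Complex.add_re, Complex.neg_re, E_re, E_re, Real.cos_neg, Real.cos_neg]

theorem nP (B G : ℝ) : ‖-1 - E (-B) + E (-B) * E (-G)‖ ^ 2 =
    3 + 2 * Real.cos B - 2 * Real.cos (B + G) - 2 * Real.cos G := by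
  rw [← E_add, show -B + -G = -(B + G) by ring, normSq_eq]
  simp only [Complex.add_re, Complex.add_im, Complex.sub_re, Complex.sub_im, Complex.neg_re,
    Complex.neg_im, Complex.one_re, Complex.one_im, E_re, E_im, Real.cos_neg, Real.sin_neg]
  have h1 : Real.cos G = Real.cos (B + G) * Real.cos B + Real.sin (B + G) * Real.sin B := by
    rw [← Real.cos_sub]; congr 1; ring
  rw [h1]
  have h2 := Real.sin_sq_add_cos_sq B
  have h3 := Real.sin_sq_add_cos_sq (B + G)
  linear_combination h2 + h3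

theorem nP3 (B G : ℝ) : ‖-1 - E (-B) + E (-B) * E (-G) + E (-G) * E (-G)‖ ^ 2 =
    (2 - 2 * Real.cos G) *
      (3 + 2 * Real.cos G + 2 * Real.cos B + 2 * Real.cos (G - B)) := by
  have h : -1 - E (-B) + E (-B) * E (-G) + E (-G) * E (-G) =
      -((1 - E (-G)) * (1 + E (-G) + E (-B))) := by ring
  rw [h, norm_neg, norm_mul, mul_pow, normSq_eq, normSq_eq]
  simp only [Complex.add_re, Complex.add_im, Complex.sub_re, Complex.sub_im,
    Complex.one_re, Complex.one_im, E_re, E_im, Real.cos_neg, Real.sin_neg]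
  have h1 : Real.cos (G - B) = Real.cos G * Real.cos B + Real.sin G * Real.sin B :=
    Real.cos_sub G B
  have h2 := Real.sin_sq_add_cos_sq B
  have h3 := Real.sin_sq_add_cos_sq G
  have e1 : (1 - Real.cos G) ^ 2 + (0 - -Real.sin G) ^ 2 = 2 - 2 * Real.cos G := by
    linear_combination h3
  have e2 : (1 + Real.cos G + Real.cos B) ^ 2 + (0 + -Real.sin G + -Real.sin B) ^ 2 =
      3 + 2 * Real.cos G + 2 * Real.cos B + 2 * Real.cos (G - B) := by
    rw [h1]
    linear_combination h2 + h3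
  rw [e1, e2]

/-- the trigonometric part, given `s`. -/
theorem fin {B G e s : ℝ} {L1 L2 L3 : ℂ → Prop}
    (h : CfgO true (Real.pi - B) (Real.pi - G) e L1 L2 L3)
    (e0 : 0 < e) (e1 : e ≤ Real.pi / 3) (_hB0 : 0 < B) (hBG : B + e ≤ G) (hG2 : G < 2 * B)
    (_hG3 : G ≤ Real.pi / 3) (h5 : 2 * B + G / 2 ≤ Real.pi / 2) (s0 : 0 ≤ s) (s1 : s ≤ e / 2)
    (hN : Real.sin (e / 2) * (1 + 4 * Real.sin (G / 2) ^ 2
      + 4 * Real.sin (G / 2) * Real.sin (B + G / 2)) ≤
      Real.cos (B + G / 2 - s) + 2 * Real.sin (G / 2) * Real.sin s)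
    (h3 : 0 < 2 * (2 * Real.sin G * Real.sin (B - G / 2 - s)
        - 2 * Real.sin (G / 2) * Real.sin s) + 2 * Real.sin (e / 2) *
      ((2 - 2 * Real.cos G) *
        (3 + 2 * Real.cos G + 2 * Real.cos B + 2 * Real.cos (G - B)))) : False := by
  have hpi := Real.pi_pos
  have lab := h.lab
  have hsd : 0 < Real.sin (e / 2) := Real.sin_pos_of_pos_of_lt_pi (by linarith) (by linarith)
  have hp : 0 < Real.sin (G / 2) := Real.sin_pos_of_pos_of_lt_pi (by linarith) (by linarith)
  have hw : L1 (E (s - B - G / 2)) := by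
    apply lab.sure1 e0 e1 (by linarith) (by linarith) (by linarith) (by linarith)
    · linarith
    · linarith
  have k1 : Real.cos (s - B - G / 2) = Real.cos (B + G / 2 - s) := by
    rw [← Real.cos_neg]; congr 1; ring
  have k2 : Real.cos (s - B - G / 2 + B + G) - Real.cos (s - B - G / 2 + B) =
      - 2 * Real.sin (G / 2) * Real.sin s := by
    rw [show s - B - G / 2 + B + G = s + G / 2 by ring,
      show s - B - G / 2 + B = s - G / 2 by ring, Real.cos_add, Real.cos_sub]
    ring
  have k3 : Real.cos (s - B - G / 2 + G) = Real.cos (B + G / 2 - s)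
      + 2 * Real.sin (G / 2) * Real.sin (B - s) := by
    rw [show s - B - G / 2 + G = -((B - s) - G / 2) by ring, Real.cos_neg,
      show B + G / 2 - s = (B - s) + G / 2 by ring, Real.cos_add, Real.cos_sub]
    ring
  have k4 : Real.cos (s - B - G / 2 + G + G) = Real.cos (B + G / 2 - s)
      + 2 * Real.sin G * Real.sin (B - G / 2 - s) := by
    rw [show s - B - G / 2 + G + G = -((B - G / 2 - s) - G) by ring, Real.cos_neg,
      show B + G / 2 - s = (B - G / 2 - s) + G by ring, Real.cos_add, Real.cos_sub]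
    ring
  have k5 : Real.cos (s - B - G / 2 + B + B - G) = Real.cos (B + G / 2 - s)
      + 2 * Real.sin (G - s) * Real.sin (B - G / 2) := by
    rw [show s - B - G / 2 + B + B - G = -((G - s) - (B - G / 2)) by ring, Real.cos_neg,
      show B + G / 2 - s = (G - s) + (B - G / 2) by ring, Real.cos_add, Real.cos_sub]
    ring
  have k6 : 3 + 2 * Real.cos B - 2 * Real.cos (B + G) - 2 * Real.cos G =
      1 + 4 * Real.sin (G / 2) ^ 2 + 4 * Real.sin (G / 2) * Real.sin (B + G / 2) := by
    have e1 : Real.cos B = Real.cos ((B + G / 2) - G / 2) := by congr 1; ring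
    have e2 : Real.cos (B + G) = Real.cos ((B + G / 2) + G / 2) := by congr 1; ring
    have e3 : Real.cos G = 1 - 2 * Real.sin (G / 2) ^ 2 := by
      have h1 : Real.cos G = Real.cos (2 * (G / 2)) := by congr 1; ring
      rw [h1, Real.cos_two_mul]
      have h2 := Real.sin_sq_add_cos_sq (G / 2)
      linear_combination 2 * h2
    rw [e1, e2, e3, Real.cos_sub (B + G / 2) (G / 2), Real.cos_add (B + G / 2) (G / 2)]
    ring
  apply chain (a := s - B - G / 2) h (by linarith) hw
  · rw [reP2, k1, k5]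
    have a1 : 0 < Real.sin (G - s) :=
      Real.sin_pos_of_pos_of_lt_pi (by linarith) (by linarith)
    have a2 : 0 < Real.sin (B - G / 2) :=
      Real.sin_pos_of_pos_of_lt_pi (by linarith) (by linarith)
    have a3 : 0 < Real.sin (G - s) * Real.sin (B - G / 2) := mul_pos a1 a2
    linarith
  · rw [reP, nP, k6]
    linarith
  · rw [reP1, k3]
    have a1 : Real.sin s < Real.sin (B - s) :=
      Real.sin_lt_sin_of_lt_of_le_pi_div_two (by linarith) (by linarith) (by linarith)
    have a2 : 0 < Real.sin (G / 2) * (Real.sin (B - s) - Real.sin s) :=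
      mul_pos hp (by linarith)
    linarith
  · rw [reP3, nP3, k4]
    linarith

theorem aux1 {e δ : ℝ} (e0 : 0 < e) (e1 : e ≤ Real.pi / 3) (hsd0 : 0 < Real.sin (e / 2))
    (hsd1 : Real.sin (e / 2) ≤ 1 / 2) (hδ0 : 0 < δ) (hδ1 : δ < 0.21) :
    2 * Real.sin (e / 2) * Real.sin ((Real.pi / 3 + δ) / 2) ≤ Real.sin (e / 2 + δ) := by
  have hpi := Real.pi_pos
  have hpi3 := Real.pi_gt_three
  have f1 : Real.sin ((Real.pi / 3 + δ) / 2) ≤ 1 / 2 + δ / 2 := by
    rw [show (Real.pi / 3 + δ) / 2 = Real.pi / 6 + δ / 2 by ring, Real.sin_add,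
      Real.sin_pi_div_six]
    have g1 := Real.cos_le_one (δ / 2)
    have g2 := Real.cos_le_one (Real.pi / 6)
    have g3 : Real.sin (δ / 2) ≤ δ / 2 := Real.sin_le (by linarith)
    have g4 : 0 ≤ Real.sin (δ / 2) :=
      Real.sin_nonneg_of_nonneg_of_le_pi (by linarith) (by linarith)
    have g5 : Real.cos (Real.pi / 6) * Real.sin (δ / 2) ≤ 1 * Real.sin (δ / 2) :=
      mul_le_mul_of_nonneg_right g2 g4
    linarith
  have g1 : 0.85 ≤ Real.cos (e / 2) := by
    have j1 : Real.cos (Real.pi / 6) ≤ Real.cos (e / 2) := by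
      apply Real.cos_le_cos_of_nonneg_of_le_pi <;> linarith
    rw [Real.cos_pi_div_six] at j1
    have j2 : (1.7 : ℝ) ≤ Real.sqrt 3 := by
      apply Real.le_sqrt_of_sq_le
      norm_num
    linarith
  have g2 : δ - δ ^ 3 / 6 < Real.sin δ := Real.sin_gt_sub_cube hδ0
  have g3 : 1 - δ ^ 2 / 2 ≤ Real.cos δ := Real.one_sub_sq_div_two_le_cos
  have q1 : δ ^ 2 ≤ 0.21 * δ := by
    rw [pow_two]
    exact mul_le_mul_of_nonneg_right hδ1.le hδ0.le
  have q2 : δ ^ 3 ≤ 0.05 * δ := by
    have : δ ^ 3 = δ ^ 2 * δ := by ring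
    rw [this]
    exact mul_le_mul_of_nonneg_right (by linarith) hδ0.le
  have g4 : 0.98 * δ ≤ Real.sin δ := by linarith
  have g5 : 0.85 * (0.98 * δ) ≤ Real.cos (e / 2) * Real.sin δ :=
    mul_le_mul g1 g4 (by positivity) (by linarith)
  have g6 : Real.sin (e / 2) * (2 * Real.sin ((Real.pi / 3 + δ) / 2)) ≤
      Real.sin (e / 2) * (1 + δ) :=
    mul_le_mul_of_nonneg_left (by linarith) hsd0.le
  have g7 : Real.sin (e / 2) * (1 + δ - Real.cos δ) ≤ 1 / 2 * (δ + δ ^ 2 / 2) := by
    apply mul_le_mul hsd1 (by linarith) (by linarith [Real.cos_le_one δ]) (by norm_num)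
  rw [Real.sin_add]
  linarith

theorem t : T7 := by
  intro b c e L1 L2 L3 hBase hbc hbc2 hbig h
  obtain ⟨b0, b1, e0, e1, c0, c1, c2⟩ := hBase
  have hpi := Real.pi_pos
  have hpi3 := Real.pi_gt_three
  have hpi4 : Real.pi < 3.15 := Real.pi_lt_d2
  obtain ⟨B, rfl⟩ : ∃ B, b = Real.pi - B := ⟨Real.pi - b, by ring⟩
  obtain ⟨G, rfl⟩ : ∃ G, c = Real.pi - G := ⟨Real.pi - c, by ring⟩
  have hB0 : 0 < B := by linarith
  have hBG : B + e ≤ G := by linarith
  have hG2 : G < 2 * B := by linarith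
  set q := ee (Real.pi - G) e with hq
  have h5 : 2 * B + G / 2 ≤ Real.pi / 2 + q - e / 2 := by linarith
  have hcosc : Real.cos ((Real.pi - G) / 2) = Real.sin (G / 2) := by
    rw [show (Real.pi - G) / 2 = Real.pi / 2 - G / 2 by ring, Real.cos_pi_div_two_sub]
  have hqdef : q = Real.arcsin (2 * Real.sin (e / 2) * Real.sin (G / 2)) := by
    rw [hq, ee, hcosc]
  have hsd0 : 0 < Real.sin (e / 2) := Real.sin_pos_of_pos_of_lt_pi (by linarith) (by linarith)
  have hsd1 : Real.sin (e / 2) ≤ 1 / 2 := by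
    rw [← Real.sin_pi_div_six]
    apply Real.sin_le_sin_of_le_of_le_pi_div_two <;> linarith
  have hqle : q ≤ e := ee_le e0 e1 c1 (by linarith)
  have hG5 : G < 2 * Real.pi / 5 := by linarith
  have hp : 0 < Real.sin (G / 2) := Real.sin_pos_of_pos_of_lt_pi (by linarith) (by linarith)
  have hG3 : G ≤ Real.pi / 3 := by
    by_contra hcon
    push Not at hcon
    obtain ⟨δ, hδ⟩ : ∃ δ, G = Real.pi / 3 + δ := ⟨G - Real.pi / 3, by ring⟩
    have hδ0 : 0 < δ := by linarith
    have hδ1 : δ < 0.21 := by linarith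
    have f2 : 2 * Real.sin (e / 2) * Real.sin (G / 2) ≤ Real.sin (e / 2 + δ) := by
      rw [hδ]
      exact aux1 e0 e1 hsd0 hsd1 hδ0 hδ1
    have f3 : q ≤ e / 2 + δ := by
      rw [hqdef]
      calc _ ≤ Real.arcsin (Real.sin (e / 2 + δ)) := Real.monotone_arcsin f2
        _ = e / 2 + δ := Real.arcsin_sin (by linarith) (by linarith)
    linarith
  have hp2 : Real.sin (G / 2) ≤ 1 / 2 := by
    rw [← Real.sin_pi_div_six]
    apply Real.sin_le_sin_of_le_of_le_pi_div_two <;> linarith
  have hq2 : q ≤ e / 2 := by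
    rw [hqdef]
    calc _ ≤ Real.arcsin (Real.sin (e / 2)) := Real.monotone_arcsin (by
            have := mul_le_mul_of_nonneg_left hp2 hsd0.le
            linarith)
      _ = e / 2 := Real.arcsin_sin (by linarith) (by linarith)
  have h5' : 2 * B + G / 2 ≤ Real.pi / 2 := by linarith
  have hcB : 1 / 2 ≤ Real.cos B := by
    rw [← Real.cos_pi_div_three]
    apply Real.cos_le_cos_of_nonneg_of_le_pi <;> linarith
  have hcG : 1 / 2 ≤ Real.cos G := by
    rw [← Real.cos_pi_div_three]
    apply Real.cos_le_cos_of_nonneg_of_le_pi <;> linarith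
  have hcGB : 1 / 2 ≤ Real.cos (G - B) := by
    rw [← Real.cos_pi_div_three]
    apply Real.cos_le_cos_of_nonneg_of_le_pi <;> linarith
  have hM : 6 ≤ 3 + 2 * Real.cos G + 2 * Real.cos B + 2 * Real.cos (G - B) := by linarith
  have hcG2 : 2 - 2 * Real.cos G = 4 * Real.sin (G / 2) ^ 2 := by
    have h1 : Real.cos G = Real.cos (2 * (G / 2)) := by congr 1; ring
    rw [h1, Real.cos_two_mul]
    have h2 := Real.sin_sq_add_cos_sq (G / 2)
    linear_combination -4 * h2
  have hsG : Real.sin G = 2 * Real.sin (G / 2) * Real.cos (G / 2) := by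
    rw [← Real.sin_two_mul]; congr 1; ring
  have hcG4 : 0 < Real.cos (G / 2) := Real.cos_pos_of_mem_Ioo ⟨by linarith, by linarith⟩
  have hcG5 := Real.cos_le_one (G / 2)
  have hsX : Real.sin (B + G / 2) ≤ Real.cos B := by
    rw [← Real.sin_pi_div_two_sub]
    apply Real.sin_le_sin_of_le_of_le_pi_div_two <;> linarith
  have hnn : 0 ≤ 2 * Real.sin (e / 2) * ((2 - 2 * Real.cos G) *
      (3 + 2 * Real.cos G + 2 * Real.cos B + 2 * Real.cos (G - B))) := by
    rw [hcG2]
    have : 0 ≤ 3 + 2 * Real.cos G + 2 * Real.cos B + 2 * Real.cos (G - B) := by linarith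
    positivity
  rcases lt_or_ge (Real.sin (G / 2)) (1 / 4) with hsmall | hlarge
  · -- `s = 0`
    apply fin (s := 0) h e0 e1 hB0 hBG hG2 hG3 h5' le_rfl (by linarith)
    · rw [Real.sin_zero, mul_zero, add_zero, sub_zero]
      have hq4 : q ≤ e / 4 := by
        rw [hqdef]
        calc _ ≤ Real.arcsin (Real.sin (e / 4)) := by
              apply Real.monotone_arcsin
              have j1 : Real.sin (e / 2) = 2 * Real.sin (e / 4) * Real.cos (e / 4) := by
                rw [← Real.sin_two_mul]; congr 1; ring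
              have j2 : 0 < Real.sin (e / 4) :=
                Real.sin_pos_of_pos_of_lt_pi (by linarith) (by linarith)
              have j3 := Real.cos_le_one (e / 4)
              have j4 : Real.sin (e / 4) * Real.cos (e / 4) ≤ Real.sin (e / 4) * 1 :=
                mul_le_mul_of_nonneg_left j3 j2.le
              have j5 : Real.sin (e / 2) * Real.sin (G / 2) ≤ Real.sin (e / 2) * (1 / 4) :=
                mul_le_mul_of_nonneg_left hsmall.le hsd0.le
              linarith
          _ = e / 4 := Real.arcsin_sin (by linarith) (by linarith)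
      have he8 : e < 0.4 := by
        have j1 : Real.sin e ≤ Real.sin (G / 2) := by
          apply Real.sin_le_sin_of_le_of_le_pi_div_two <;> linarith
        have j2 : 2 / Real.pi * e ≤ Real.sin e := Real.mul_le_sin e0.le (by linarith)
        have j3 : 2 / Real.pi * e < 1 / 4 := by linarith
        rw [div_mul_eq_mul_div, div_lt_iff₀ hpi] at j3
        linarith
      have k1 : Real.sin (5 * e / 4) ≤ Real.cos (B + G / 2) := by
        have j1 : Real.sin (5 * e / 4) ≤ Real.sin (B + e / 4) := by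
          apply Real.sin_le_sin_of_le_of_le_pi_div_two <;> linarith
        have j2 : Real.sin (B + e / 4) = Real.cos (Real.pi / 2 - (B + e / 4)) := by
          rw [Real.cos_pi_div_two_sub]
        rw [j2] at j1
        refine j1.trans ?_
        apply Real.cos_le_cos_of_nonneg_of_le_pi <;> linarith
      have k2 : 5 * e / 4 - (5 * e / 4) ^ 3 / 6 < Real.sin (5 * e / 4) :=
        Real.sin_gt_sub_cube (by linarith)
      have k3 : Real.sin (e / 2) ≤ e / 2 := Real.sin_le (by linarith)
      have k4 := Real.sin_le_one (B + G / 2)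
      have k5 : Real.sin (G / 2) * Real.sin (B + G / 2) ≤ Real.sin (G / 2) * 1 :=
        mul_le_mul_of_nonneg_left k4 hp.le
      have k6 : 1 + 4 * Real.sin (G / 2) ^ 2 + 4 * Real.sin (G / 2) * Real.sin (B + G / 2) ≤
          9 / 4 := by
        have : Real.sin (G / 2) ^ 2 ≤ (1 / 4) ^ 2 := pow_le_pow_left₀ hp.le hsmall.le 2
        linarith
      have k7 : Real.sin (e / 2) * (1 + 4 * Real.sin (G / 2) ^ 2
          + 4 * Real.sin (G / 2) * Real.sin (B + G / 2)) ≤ Real.sin (e / 2) * (9 / 4) :=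
        mul_le_mul_of_nonneg_left k6 hsd0.le
      have k8 : e ^ 2 ≤ 0.4 ^ 2 := pow_le_pow_left₀ e0.le he8.le 2
      have k9 : (5 * e / 4) ^ 3 / 6 ≤ e / 8 := by
        have h1 : e * e ^ 2 ≤ e * 0.4 ^ 2 := mul_le_mul_of_nonneg_left k8 e0.le
        have h2 : (5 * e / 4) ^ 3 / 6 = 125 / 384 * (e * e ^ 2) := by ring
        rw [h2]
        linarith
      linarith
    · rw [Real.sin_zero, mul_zero, sub_zero, sub_zero]
      have j1 : 0 < Real.sin (B - G / 2) :=
        Real.sin_pos_of_pos_of_lt_pi (by linarith) (by linarith)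
      have j2 : 0 < Real.sin G := Real.sin_pos_of_pos_of_lt_pi (by linarith) (by linarith)
      have j3 : 0 < Real.sin G * Real.sin (B - G / 2) := mul_pos j2 j1
      linarith
  · -- `s = e / 2`
    apply fin (s := e / 2) h e0 e1 hB0 hBG hG2 hG3 h5' (by linarith) le_rfl
    · have k1 : Real.sin (B + e / 2) ≤ Real.cos (B + G / 2 - e / 2) := by
        rw [← Real.cos_pi_div_two_sub]
        apply Real.cos_le_cos_of_nonneg_of_le_pi <;> linarith
      have k2 : Real.sin (e / 2) * (1 + 2 * Real.cos B) ≤ Real.sin (B + e / 2) := by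
        have j1 : Real.sin (B + e / 2) = Real.sin (e / 2)
            + 2 * (Real.sin (B / 2) * Real.cos (B / 2 + e / 2)) := by
          rw [show Real.sin (e / 2) = Real.sin ((B / 2 + e / 2) - B / 2) by congr 1; ring,
            show B + e / 2 = (B / 2 + e / 2) + B / 2 by ring, Real.sin_add, Real.sin_sub]
          ring
        have j2 : Real.sin (e / 2) ≤ Real.sin (B / 2) := by
          apply Real.sin_le_sin_of_le_of_le_pi_div_two <;> linarith
        have j3 : Real.cos B ≤ Real.cos (B / 2 + e / 2) := by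
          apply Real.cos_le_cos_of_nonneg_of_le_pi <;> linarith
        have j4 : Real.sin (e / 2) * Real.cos B ≤ Real.sin (B / 2) * Real.cos (B / 2 + e / 2) :=
          mul_le_mul j2 j3 (by linarith) (by linarith)
        rw [j1]
        linarith
      have k3 : 0 ≤ (1 - 2 * Real.sin (G / 2)) * (2 * Real.cos B + 2 * Real.sin (G / 2)) :=
        mul_nonneg (by linarith) (by linarith)
      have k4 : Real.sin (G / 2) * Real.sin (B + G / 2) ≤ Real.sin (G / 2) * Real.cos B :=
        mul_le_mul_of_nonneg_left hsX hp.le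
      have k5 : 1 - 2 * Real.sin (G / 2) + 4 * Real.sin (G / 2) ^ 2
          + 4 * Real.sin (G / 2) * Real.sin (B + G / 2) ≤ 1 + 2 * Real.cos B := by linarith
      have k6 := mul_le_mul_of_nonneg_left k5 hsd0.le
      linarith
    · rw [hcG2, hsG]
      have j1 : Real.sin (-(e / 2)) < Real.sin (B - G / 2 - e / 2) := by
        apply Real.sin_lt_sin_of_lt_of_le_pi_div_two <;> linarith
      rw [Real.sin_neg] at j1
      have hpc : 0 < Real.sin (G / 2) * Real.cos (G / 2) := mul_pos hp hcG4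
      have j2 : Real.sin (G / 2) * Real.cos (G / 2) * (-Real.sin (e / 2)) <
          Real.sin (G / 2) * Real.cos (G / 2) * Real.sin (B - G / 2 - e / 2) :=
        mul_lt_mul_of_pos_left j1 hpc
      have j3 : Real.sin (G / 2) * Real.sin (e / 2) * Real.cos (G / 2) ≤
          Real.sin (G / 2) * Real.sin (e / 2) * 1 :=
        mul_le_mul_of_nonneg_left hcG5 (by positivity)
      have j4 : Real.sin (e / 2) * Real.sin (G / 2) ^ 2 * 6 ≤
          Real.sin (e / 2) * Real.sin (G / 2) ^ 2 *
            (3 + 2 * Real.cos G + 2 * Real.cos B + 2 * Real.cos (G - B)) :=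
        mul_le_mul_of_nonneg_left hM (by positivity)
      have j5 : Real.sin (e / 2) * Real.sin (G / 2) * (1 / 4) ≤
          Real.sin (e / 2) * Real.sin (G / 2) * Real.sin (G / 2) :=
        mul_le_mul_of_nonneg_left hlarge (by positivity)
      linarith

end Pool.Agent.H373R4.Disc.T7
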