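import Pool.Agent.H373R4.Disc.Stmts
import Pool.Agent.H908R3.Disc.Basic

/-!
# Chain lemma `T8p` (written by helper20 for project H908-DISC)
-/

set_option autoImplicit false

namespace Pool.Agent.H373R4.Disc.T8p

open Complex ComplexConjugate Pool.Agent.H908R3.Disc

theorem big_of {d v1 v2 w1 w2 : ℝ} (hd : 0 < d) (hv : v1 ^ 2 + v2 ^ 2 = 1)
    (h : 0 < 2 * (v1 * w1 + v2 * w2) + d * (w1 ^ 2 + w2 ^ 2)) :
    1 < (v1 + d * w1) ^ 2 + (v2 + d * w2) ^ 2 := by
  have h1 := mul_pos hd h
  nlinarith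

theorem small_of {d v1 v2 w1 w2 : ℝ} (hd : 0 < d) (hv : v1 ^ 2 + v2 ^ 2 = 1)
    (h : 2 * (v1 * w1 + v2 * w2) + d * (w1 ^ 2 + w2 ^ 2) ≤ 0) :
    (v1 + d * w1) ^ 2 + (v2 + d * w2) ^ 2 ≤ 1 := by
  have h1 := mul_nonneg hd.le (sub_nonneg.2 h)
  nlinarith

theorem cos_fifth {x : ℝ} (h0 : 0 ≤ x) (h : x < Real.pi / 5) : 4 / 5 < Real.cos x := by
  have h1 : Real.cos (Real.pi / 5) < Real.cos x :=
    Real.cos_lt_cos_of_nonneg_of_le_pi h0 (by linarith [Real.pi_pos]) h
  rw [Real.cos_pi_div_five] at h1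
  have h2 : (2.2 : ℝ) < √5 := by
    rw [Real.lt_sqrt (by norm_num)]
    norm_num
  linarith

theorem cos_sixth {x : ℝ} (h0 : 0 ≤ x) (h : x ≤ Real.pi / 6) : 43 / 50 < Real.cos x := by
  have h1 : Real.cos (Real.pi / 6) ≤ Real.cos x :=
    Real.cos_le_cos_of_nonneg_of_le_pi h0 (by linarith [Real.pi_pos]) h
  rw [Real.cos_pi_div_six] at h1
  have h2 : (1.72 : ℝ) < √3 := by
    rw [Real.lt_sqrt (by norm_num)]
    norm_num
  linarith

/-- the parameters -/
theorem tau_exists {B e : ℝ} (hB1 : Real.pi / 3 < B) (he0 : 0 < e) (he1 : e ≤ Real.pi / 3)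
    (hbig : e / 2 + Real.arcsin (2 * Real.sin (e / 2) * Real.cos (B / 2)) ≤
      Real.pi - 5 * B / 2) :
    ∃ t : ℝ, 0 < t ∧ t < Real.pi - 5 * B / 2 ∧ 1 / 2 < Real.sin (B / 2) ∧
      4 / 5 < Real.cos (B / 2) ∧ Real.sin t < (11 / 10) * (2 * Real.sin (e / 2)) ∧
      2 * (1 + 2 * Real.sin (B / 2)) * Real.sin t =
        (1 + 4 * Real.sin B ^ 2) * (2 * Real.sin (e / 2)) := by
  have hpi := Real.pi_pos
  set s := Real.sin (B / 2) with hs
  set k := Real.cos (B / 2) with hk
  set d := 2 * Real.sin (e / 2) with hd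
  set η := Real.arcsin (d * k) with hη
  have hd0 : 0 < d := by
    have := Real.sin_pos_of_pos_of_lt_pi (x := e / 2) (by linarith) (by linarith)
    rw [hd]; linarith
  have hd1 : d ≤ 1 := by
    have h1 : Real.sin (e / 2) ≤ Real.sin (Real.pi / 6) :=
      Real.sin_le_sin_of_le_of_le_pi_div_two (by linarith) (by linarith) (by linarith)
    rw [Real.sin_pi_div_six] at h1
    rw [hd]; linarith
  have hη1 : η ≤ Real.pi / 2 := Real.arcsin_le_pi_div_two _
  have hη2 : -(Real.pi / 2) ≤ η := Real.neg_pi_div_two_le_arcsin _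
  have hB3 : B < Real.pi := by linarith
  have hk0 : 0 < k := Real.cos_pos_of_mem_Ioo ⟨by linarith, by linarith⟩
  have hη0 : 0 < η := Real.arcsin_pos.2 (mul_pos hd0 hk0)
  have hB2 : B < 2 * Real.pi / 5 := by linarith
  have hk1 : 4 / 5 < k := cos_fifth (by linarith) (by linarith)
  have hk2 : k ≤ 1 := Real.cos_le_one _
  have hs0 : 1 / 2 < s := by
    have h1 : Real.sin (Real.pi / 6) < Real.sin (B / 2) :=
      Real.sin_lt_sin_of_lt_of_le_pi_div_two (by linarith) (by linarith) (by linarith)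
    rwa [Real.sin_pi_div_six] at h1
  have hsk : s ^ 2 + k ^ 2 = 1 := Real.sin_sq_add_cos_sq _
  have hs1 : s < 3 / 5 := by nlinarith
  have hsB : Real.sin B = 2 * s * k := by
    rw [hs, hk, ← Real.sin_two_mul]; congr 1; ring
  have hsinη : Real.sin η = d * k :=
    Real.sin_arcsin (by nlinarith [mul_pos hd0 hk0]) (by nlinarith)
  have hη6 : e / 2 + η < Real.pi / 6 := by linarith
  have hcη : 43 / 50 < Real.cos η := cos_sixth hη0.le (by linarith)
  have hce : 43 / 50 < Real.cos (e / 2) := cos_sixth (by linarith) (by linarith)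
  have hsum : Real.sin (e / 2 + η) = d * (Real.cos η / 2 + Real.cos (e / 2) * k) := by
    rw [Real.sin_add, hsinη]
    have : Real.sin (e / 2) = d / 2 := by rw [hd]; ring
    rw [this]; ring
  set lam := (1 + 4 * Real.sin B ^ 2) / (2 * (1 + 2 * s)) with hlam
  have hden : 0 < 2 * (1 + 2 * s) := by linarith
  have hlam0 : 0 < lam := div_pos (by positivity) hden
  have hlam1 : lam < 11 / 10 := by
    rw [hlam, div_lt_iff₀ hden, hsB]
    have hk' : k ^ 2 = 1 - s ^ 2 := by linarith
    have h1 : 1 + 4 * (2 * s * k) ^ 2 = 1 + 16 * s ^ 2 * (1 - s ^ 2) := by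
      rw [← hk']; ring
    rw [h1]
    nlinarith [mul_pos (sub_pos.2 hs0) (sub_pos.2 hs1), mul_pos (mul_pos (sub_pos.2 hs0)
      (sub_pos.2 hs1)) (sub_pos.2 hs0), mul_pos (mul_pos (sub_pos.2 hs0)
      (sub_pos.2 hs1)) (sub_pos.2 hs1), sq_nonneg (s ^ 2 - 1 / 4), sq_nonneg (s ^ 2 - 9 / 25)]
  have hlamd : lam * d < Real.sin (e / 2 + η) := by
    rw [hsum]
    have h2 : 11 / 10 < Real.cos η / 2 + Real.cos (e / 2) * k := by
      have : 43 / 50 * (4 / 5) < Real.cos (e / 2) * k := by
        apply mul_lt_mul'' hce hk1 <;> norm_num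
      linarith
    nlinarith
  have hlamd0 : 0 < lam * d := mul_pos hlam0 hd0
  have hle1 : Real.sin (e / 2 + η) ≤ 1 := Real.sin_le_one _
  have hsint : Real.sin (Real.arcsin (lam * d)) = lam * d :=
    Real.sin_arcsin (by linarith) (by linarith)
  refine ⟨Real.arcsin (lam * d), Real.arcsin_pos.2 hlamd0, ?_, hs0, hk1, ?_, ?_⟩
  · have h3 : Real.arcsin (lam * d) < Real.arcsin (Real.sin (e / 2 + η)) :=
      Real.arcsin_lt_arcsin (by linarith) hlamd hle1
    rw [Real.arcsin_sin (by linarith) (by linarith)] at h3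
    linarith
  · rw [hsint]
    nlinarith
  · rw [hsint, hlam]
    field_simp


/-- the real inequalities for the three exclusions -/
theorem reals {B t d : ℝ} (hB1 : Real.pi / 3 < B) (ht0 : 0 < t)
    (ht1 : t < Real.pi - 5 * B / 2) (_hB2 : B < 2 * Real.pi / 5) (hd0 : 0 < d)
    (hs0 : 1 / 2 < Real.sin (B / 2)) (hk1 : 4 / 5 < Real.cos (B / 2))
    (hS : Real.sin t < (11 / 10) * d)
    (hlam : 2 * (1 + 2 * Real.sin (B / 2)) * Real.sin t = (1 + 4 * Real.sin B ^ 2) * d) :
    -- Z not in D3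
    (0 < 2 * (-Real.cos (3 * B / 2 + t) * (Real.cos (2 * B) + Real.cos B) +
      Real.sin (3 * B / 2 + t) * (Real.sin B - Real.sin (2 * B))) +
      d * ((Real.cos (2 * B) + Real.cos B) ^ 2 + (Real.sin B - Real.sin (2 * B)) ^ 2)) ∧
    -- Y not in D1
    (0 < 2 * (-Real.cos (B / 2 - t) * (-Real.cos B - Real.cos (2 * B)) +
      -Real.sin (B / 2 - t) * (-Real.sin B - Real.sin (2 * B))) +
      d * ((-Real.cos B - Real.cos (2 * B)) ^ 2 + (-Real.sin B - Real.sin (2 * B)) ^ 2)) ∧
    -- Y not in D2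
    (0 < 2 * (-Real.cos (B / 2 - t) * (1 - Real.cos (2 * B)) +
      -Real.sin (B / 2 - t) * (-(2 * Real.sin B) - Real.sin (2 * B))) +
      d * ((1 - Real.cos (2 * B)) ^ 2 + (-(2 * Real.sin B) - Real.sin (2 * B)) ^ 2)) ∧
    -- Y in D
    (2 * (-Real.cos (B / 2 - t) * (1 - Real.cos B - Real.cos (2 * B)) +
      -Real.sin (B / 2 - t) * (-Real.sin B - Real.sin (2 * B))) +
      d * ((1 - Real.cos B - Real.cos (2 * B)) ^ 2 + (-Real.sin B - Real.sin (2 * B)) ^ 2)
      ≤ 0) := by
  have hpi := Real.pi_pos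
  have hBt : 0 < Real.cos (B + t) := Real.cos_pos_of_mem_Ioo ⟨by linarith, by linarith⟩
  have h32 : Real.cos (3 * B / 2) < 0 :=
    Real.cos_neg_of_pi_div_two_lt_of_lt (by linarith) (by linarith)
  have hSt : 0 < Real.sin t := Real.sin_pos_of_pos_of_lt_pi ht0 (by linarith)
  have e3 : Real.cos (3 * B / 2 + t) = Real.cos (3 * B / 2) * Real.cos t -
      Real.sin (3 * B / 2) * Real.sin t := Real.cos_add _ _
  have e3' : Real.sin (3 * B / 2 + t) = Real.sin (3 * B / 2) * Real.cos t +
      Real.cos (3 * B / 2) * Real.sin t := Real.sin_add _ _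
  have e4 : Real.cos (B / 2 - t) = Real.cos (B / 2) * Real.cos t +
      Real.sin (B / 2) * Real.sin t := Real.cos_sub _ _
  have e4' : Real.sin (B / 2 - t) = Real.sin (B / 2) * Real.cos t -
      Real.cos (B / 2) * Real.sin t := Real.sin_sub _ _
  have e5 : Real.cos (B + t) = Real.cos B * Real.cos t - Real.sin B * Real.sin t :=
    Real.cos_add _ _
  have eB : Real.cos B = 2 * Real.cos (B / 2) ^ 2 - 1 := by
    rw [← Real.cos_two_mul]; congr 1; ring
  have eB' : Real.sin B = 2 * Real.sin (B / 2) * Real.cos (B / 2) := by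
    rw [← Real.sin_two_mul]; congr 1; ring
  have e2B : Real.cos (2 * B) = 2 * Real.cos B ^ 2 - 1 := Real.cos_two_mul _
  have e2B' : Real.sin (2 * B) = 2 * Real.sin B * Real.cos B := Real.sin_two_mul _
  have e3B : Real.cos (3 * B / 2) = Real.cos B * Real.cos (B / 2) -
      Real.sin B * Real.sin (B / 2) := by
    rw [← Real.cos_add]; congr 1; ring
  have e3B' : Real.sin (3 * B / 2) = Real.sin B * Real.cos (B / 2) +
      Real.cos B * Real.sin (B / 2) := by
    rw [← Real.sin_add]; congr 1; ring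
  have hsk : Real.sin (B / 2) ^ 2 + Real.cos (B / 2) ^ 2 = 1 := Real.sin_sq_add_cos_sq _
  have hBB : Real.sin B ^ 2 + Real.cos B ^ 2 = 1 := Real.sin_sq_add_cos_sq _
  have hSK : Real.sin t ^ 2 + Real.cos t ^ 2 = 1 := Real.sin_sq_add_cos_sq _
  refine ⟨?_, ?_, ?_, ?_⟩
  · have key : -Real.cos (3 * B / 2 + t) * (Real.cos (2 * B) + Real.cos B) +
        Real.sin (3 * B / 2 + t) * (Real.sin B - Real.sin (2 * B)) =
        -(2 * Real.cos (3 * B / 2) * Real.cos (B + t)) := by
      have a1 : Real.cos (3 * B / 2 + t) * Real.cos (2 * B) +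
          Real.sin (3 * B / 2 + t) * Real.sin (2 * B) = Real.cos (3 * B / 2 - (B + t)) := by
        rw [← Real.cos_sub]
        rw [← Real.cos_neg]
        congr 1; ring
      have a2 : Real.cos (3 * B / 2 + t) * Real.cos B -
          Real.sin (3 * B / 2 + t) * Real.sin B = Real.cos (3 * B / 2 + (B + t)) := by
        rw [← Real.cos_add]
        congr 1; ring
      rw [Real.cos_sub (3 * B / 2) (B + t)] at a1
      rw [Real.cos_add (3 * B / 2) (B + t)] at a2
      linarith
    rw [key]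
    have h1 : 0 < -(2 * Real.cos (3 * B / 2) * Real.cos (B + t)) := by
      have := mul_pos (neg_pos.2 h32) hBt
      linarith
    positivity
  · have key : -Real.cos (B / 2 - t) * (-Real.cos B - Real.cos (2 * B)) +
        -Real.sin (B / 2 - t) * (-Real.sin B - Real.sin (2 * B)) =
        2 * Real.cos (B / 2) * Real.cos (B + t) := by
      have a1 : Real.cos (B / 2 - t) * Real.cos B + Real.sin (B / 2 - t) * Real.sin B =
          Real.cos (B / 2 - (B + t)) := by
        rw [← Real.cos_sub]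
        congr 1; ring
      have a2 : Real.cos (B / 2 - t) * Real.cos (2 * B) + Real.sin (B / 2 - t) *
          Real.sin (2 * B) = Real.cos (B / 2 + (B + t)) := by
        rw [← Real.cos_sub, ← Real.cos_neg]
        congr 1; ring
      rw [Real.cos_sub (B / 2) (B + t)] at a1
      rw [Real.cos_add (B / 2) (B + t)] at a2
      linarith
    rw [key]
    have h1 : 0 < 2 * Real.cos (B / 2) * Real.cos (B + t) :=
      mul_pos (by linarith) hBt
    positivity
  · have key : 2 * (-Real.cos (B / 2 - t) * (1 - Real.cos (2 * B)) +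
      -Real.sin (B / 2 - t) * (-(2 * Real.sin B) - Real.sin (2 * B))) =
        -(8 * Real.sin B * Real.cos (B / 2) * Real.sin t) := by
      rw [e4, e4', e2B, e2B']
      have h1 : 1 - (2 * Real.cos B ^ 2 - 1) = 2 * Real.sin B ^ 2 := by linarith
      rw [h1]
      have h2 : -(2 * Real.sin B) - 2 * Real.sin B * Real.cos B =
          -(2 * Real.sin B * (2 * Real.cos (B / 2) ^ 2)) := by
        rw [eB]; ring
      rw [h2, eB']
      linear_combination (-16 * Real.sin (B / 2) * Real.cos (B / 2) ^ 2 * Real.sin t) * hsk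
    have key2 : (1 - Real.cos (2 * B)) ^ 2 + (-(2 * Real.sin B) - Real.sin (2 * B)) ^ 2 =
        16 * Real.sin B ^ 2 * Real.cos (B / 2) ^ 2 := by
      rw [e2B, e2B']
      have h1 : 1 - (2 * Real.cos B ^ 2 - 1) = 2 * Real.sin B ^ 2 := by linarith
      have h3 : Real.cos (B / 2) ^ 2 = (1 + Real.cos B) / 2 := by linarith
      rw [h1, h3]
      linear_combination (4 * Real.sin B ^ 2) * hBB
    rw [key, key2]
    have h5 : 0 < Real.sin B * Real.cos (B / 2) := by
      rw [eB']
      have : 0 < Real.sin (B / 2) := by linarith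
      have : 0 < Real.cos (B / 2) := by linarith
      positivity
    have h6 : Real.sin t < 2 * d * (Real.sin B * Real.cos (B / 2)) := by
      have h7 : 16 / 25 < Real.sin B * Real.cos (B / 2) := by
        rw [eB']
        have h8 : (4 / 5 : ℝ) * (4 / 5) < Real.cos (B / 2) * Real.cos (B / 2) :=
          mul_lt_mul'' hk1 hk1 (by norm_num) (by norm_num)
        have h9 : 1 * (Real.cos (B / 2) * Real.cos (B / 2)) <
            (2 * Real.sin (B / 2)) * (Real.cos (B / 2) * Real.cos (B / 2)) :=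
          mul_lt_mul_of_pos_right (by linarith) (by linarith)
        linarith
      have h8 := mul_lt_mul_of_pos_left h7 hd0
      linarith
    have h9 := mul_pos h5 (sub_pos.2 h6)
    have h10 : -(8 * Real.sin B * Real.cos (B / 2) * Real.sin t) +
        d * (16 * Real.sin B ^ 2 * Real.cos (B / 2) ^ 2) =
        8 * (Real.sin B * Real.cos (B / 2) *
          (2 * d * (Real.sin B * Real.cos (B / 2)) - Real.sin t)) := by ring
    rw [h10]
    linarith
  · have key : 2 * (-Real.cos (B / 2 - t) * (1 - Real.cos B - Real.cos (2 * B)) +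
      -Real.sin (B / 2 - t) * (-Real.sin B - Real.sin (2 * B))) =
        -(4 * Real.sin (B / 2) * Real.sin t) + 2 * Real.cos (3 * B / 2 + t) := by
      have a1 : Real.cos (B / 2 - t) * Real.cos B + Real.sin (B / 2 - t) * Real.sin B =
          Real.cos (B / 2 + t) := by
        rw [← Real.cos_sub, ← Real.cos_neg]
        congr 1; ring
      have a2 : Real.cos (B / 2 - t) * Real.cos (2 * B) + Real.sin (B / 2 - t) *
          Real.sin (2 * B) = Real.cos (3 * B / 2 + t) := by
        rw [← Real.cos_sub, ← Real.cos_neg]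
        congr 1; ring
      rw [Real.cos_add (B / 2) t] at a1
      rw [e4] at a1 a2 ⊢
      linarith
    have key2 : (1 - Real.cos B - Real.cos (2 * B)) ^ 2 + (-Real.sin B - Real.sin (2 * B)) ^ 2 =
        1 + 4 * Real.sin B ^ 2 := by
      rw [e2B, e2B']
      have h1 : Real.sin B ^ 2 = 1 - Real.cos B ^ 2 := by linarith
      have h2 : (-Real.sin B - 2 * Real.sin B * Real.cos B) ^ 2 =
        Real.sin B ^ 2 * (1 + 2 * Real.cos B) ^ 2 := by ring
      rw [h2, h1]
      ring
    rw [key, key2]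
    have h1 : d * (1 + 4 * Real.sin B ^ 2) = 2 * (1 + 2 * Real.sin (B / 2)) * Real.sin t := by
      linarith
    rw [h1]
    have h2 : Real.cos (3 * B / 2 + t) ≤ - Real.sin t := by
      have h3 : - Real.cos (3 * B / 2 + t) = Real.sin (t + (3 * B / 2 - Real.pi / 2)) := by
        have : t + (3 * B / 2 - Real.pi / 2) = (3 * B / 2 + t) - Real.pi / 2 := by ring
        rw [this, Real.sin_sub_pi_div_two]
      have h4 : Real.sin t ≤ Real.sin (t + (3 * B / 2 - Real.pi / 2)) :=
        Real.sin_le_sin_of_le_of_le_pi_div_two (by linarith) (by linarith) (by linarith)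
      linarith
    linarith

theorem t : T8p := by
  intro b e L1 L2 L3 hBase hbig hb23 h
  have hpi := Real.pi_pos
  obtain ⟨B, rfl⟩ : ∃ B, b = Real.pi - B := ⟨Real.pi - b, by ring⟩
  have hbb : Real.pi - (Real.pi - B) = B := by ring
  rw [hbb] at hBase h
  have hl := CfgO.lab h
  have H : Cfg (Real.pi - B) (gP B (2 * Real.sin (e / 2))) (giP B (2 * Real.sin (e / 2)))
      L1 L2 L3 := by
    simpa [CfgO] using h
  obtain ⟨b0, b1, he0, he1, c0, c1, c2⟩ := hBase
  have hB1 : Real.pi / 3 < B := by linarith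
  have hbig' : e / 2 + Real.arcsin (2 * Real.sin (e / 2) * Real.cos (B / 2)) ≤
      Real.pi - 5 * B / 2 := by
    unfold Big eta at hbig
    have h1 : Real.sin ((Real.pi - B) / 2) = Real.cos (B / 2) := by
      rw [← Real.cos_pi_div_two_sub]
      congr 1; ring
    rw [h1] at hbig
    linarith
  obtain ⟨t, ht0, ht1, hs0, hk1, hS, hlam⟩ := tau_exists hB1 he0 he1 hbig'
  have hB2 : B < 2 * Real.pi / 5 := by linarith
  have hd0 : 0 < 2 * Real.sin (e / 2) := by
    have := Real.sin_pos_of_pos_of_lt_pi (x := e / 2) (by linarith) (by linarith)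
    linarith
  obtain ⟨r1, r2, r3, r4⟩ := reals hB1 ht0 ht1 hB2 hd0 hs0 hk1 hS hlam
  -- the point `g X`
  have hW : L3 (E (3 * B / 2 - t + Real.pi)) := by
    have hx2 : L2 (E (Real.pi - B / 2 - t)) :=
      hl.ex2 he0 he1 b0 b1 (by linarith) c2 (by linarith) (by linarith)
    rcases H.cov (E (3 * B / 2 - t + Real.pi)) (norm_E _).le with h3 | h3 | h3
    · exfalso
      have h4 := H.r12 _ h3
      have h5 := H.r21 _ hx2
      rw [E_mul] at h4 h5
      have h6 : E (Real.pi - B + (3 * B / 2 - t + Real.pi)) =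
          E (-(Real.pi - B) + (Real.pi - B / 2 - t)) := by
        rw [← E_two_pi (-(Real.pi - B) + (Real.pi - B / 2 - t))]
        congr 1; ring
      rw [h6] at h4
      exact H.n12 _ h5 h4
    · exfalso
      refine hl.not2 he0 he1 ?_ h3
      apply cos_lt_sin he0 he1 <;> linarith
    · exact h3
  set d := 2 * Real.sin (e / 2) with hd
  have hX : L1 ((d : ℂ) + E (B / 2 - t + Real.pi)) := by
    have h1 := H.g31 _ hW
    have h2 : giP B d (E (3 * B / 2 - t + Real.pi)) = (d : ℂ) + E (B / 2 - t + Real.pi) := by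
      simp only [giP]
      rw [E_mul]
      congr 2; ring
    rwa [h2] at h1
  set X : ℂ := (d : ℂ) + E (B / 2 - t + Real.pi) with hXdef
  set Z : ℂ := E (Real.pi - B) * (E (Real.pi - B) * X) with hZdef
  have hZ2 : ¬ L2 Z := by
    apply hl.not2_of
    intro h1
    exact H.n12 _ h1 (H.r12 _ hX)
  have hZeq : Z = (d : ℂ) * E (-(2 * B)) + E (Real.pi - (3 * B / 2 + t)) := by
    rw [hZdef, hXdef, ← mul_assoc, E_mul, mul_add, E_mul]
    have h1 : E (Real.pi - B + (Real.pi - B)) = E (-(2 * B)) := by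
      rw [← E_two_pi (-(2 * B))]
      congr 1; ring
    have h2 : E (Real.pi - B + (Real.pi - B) + (B / 2 - t + Real.pi)) =
        E (Real.pi - (3 * B / 2 + t)) := by
      rw [← E_two_pi (Real.pi - (3 * B / 2 + t))]
      congr 1; ring
    rw [h1, h2]
    ring
  have hZ3 : ¬ L3 Z := by
    intro h1
    have h2 := hl.m3 _ h1
    refine norm_gt_one ?_ h2
    rw [hZeq]
    simp only [Complex.add_re, Complex.add_im, Complex.mul_re, Complex.mul_im,
      Complex.ofReal_re, Complex.ofReal_im, E_re, E_im, Real.cos_neg, Real.sin_neg,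
      Real.cos_pi_sub, Real.sin_pi_sub]
    have h3 := big_of hd0 (v1 := -Real.cos (3 * B / 2 + t)) (v2 := Real.sin (3 * B / 2 + t))
      (w1 := Real.cos (2 * B) + Real.cos B) (w2 := Real.sin B - Real.sin (2 * B))
      (by rw [neg_sq]; exact Real.cos_sq_add_sin_sq _) r1
    refine h3.trans_le (le_of_eq ?_)
    ring
  have hZn : ‖Z‖ ≤ 1 := by
    rw [hZdef, norm_E_mul, norm_E_mul]
    exact H.in1 _ hX
  have hZ1 : L1 Z := by
    rcases H.cov Z hZn with h1 | h1 | h1
    · exact h1
    · exact absurd h1 hZ2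
    · exact absurd h1 hZ3
  have hgZ : L3 (gP B d Z) := H.g13 _ hZ1
  have hY3 : ¬ L3 (gP B d (gP B d Z)) := by
    intro h1
    have h2 := H.g31 _ h1
    have h3 : giP B d (gP B d (gP B d Z)) = gP B d Z := by
      simp only [giP, gP]
      have h4 : E (-B) * E B = 1 := by rw [E_mul]; simp [E_zero]
      linear_combination (E B * (Z - d) - d) * h4
    rw [h3] at h2
    exact H.n13 _ h2 hgZ
  have hYeq : gP B d (gP B d Z) = (d : ℂ) * (1 - E B - E (2 * B)) +
      E (B / 2 - t + Real.pi) := by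
    simp only [gP]
    rw [hZdef]
    have h1 : E B * E B = E (2 * B) := by rw [E_mul]; congr 1; ring
    have h2 : E (2 * B) * (E (Real.pi - B) * E (Real.pi - B)) = 1 := by
      rw [E_mul, E_mul, ← E_zero, ← E_two_pi 0]
      congr 1; ring
    have h3 : X = (d : ℂ) + E (B / 2 - t + Real.pi) := hXdef
    linear_combination (E (Real.pi - B) * E (Real.pi - B) * X - (d : ℂ)) * h1 + X * h2 + h3
  have hYre : (gP B d (gP B d Z)).re = -Real.cos (B / 2 - t) +
      d * (1 - Real.cos B - Real.cos (2 * B)) := by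
    rw [hYeq]
    simp only [Complex.add_re, Complex.mul_re, Complex.sub_re, Complex.one_re,
      Complex.ofReal_re, Complex.ofReal_im, E_re, Real.cos_add_pi]
    ring
  have hYim : (gP B d (gP B d Z)).im = -Real.sin (B / 2 - t) +
      d * (-Real.sin B - Real.sin (2 * B)) := by
    rw [hYeq]
    simp only [Complex.add_im, Complex.mul_im, Complex.sub_im, Complex.one_im,
      Complex.ofReal_re, Complex.ofReal_im, E_im, Real.sin_add_pi]
    ring
  have hsq : (-Real.cos (B / 2 - t)) ^ 2 + (-Real.sin (B / 2 - t)) ^ 2 = 1 := by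
    rw [neg_sq, neg_sq]; exact Real.cos_sq_add_sin_sq _
  have hYn : ‖gP B d (gP B d Z)‖ ≤ 1 := by
    apply norm_le_one
    rw [hYre, hYim]
    exact small_of hd0 hsq r4
  rcases H.cov _ hYn with h1 | h1 | h1
  · have h2 := hl.m1 _ h1
    refine norm_gt_one ?_ h2
    rw [Complex.sub_re, Complex.sub_im, hYre, hYim, Complex.ofReal_re, Complex.ofReal_im]
    have h3 := big_of hd0 hsq r2
    refine h3.trans_le (le_of_eq ?_)
    ring
  · have h2 := hl.m2 _ h1
    refine norm_gt_one ?_ h2
    rw [Complex.sub_re, Complex.sub_im, hYre, hYim]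
    simp only [Complex.mul_re, Complex.mul_im,
      Complex.ofReal_re, Complex.ofReal_im, E_re, E_im, Real.cos_pi_sub, Real.sin_pi_sub]
    have h3 := big_of hd0 hsq r3
    refine h3.trans_le (le_of_eq ?_)
    ring
  · exact hY3 h1

end Pool.Agent.H373R4.Disc.T8p
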