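import Pool.Agent.H373R4.Disc.Stmts

/-!
# The case `c = π - b`, orientation reversing
-/

set_option autoImplicit false

namespace Pool.Agent.H373R4.Disc.T8r

open Complex ComplexConjugate Pool.Agent.H908R3.Disc Pool.Agent.H373R4.Disc

theorem E_eq (t : ℝ) : E t = ⟨Real.cos t, Real.sin t⟩ := by
  unfold E
  apply Complex.ext
  · rw [Complex.exp_ofReal_mul_I_re]
  · rw [Complex.exp_ofReal_mul_I_im]

theorem norm_le_iff (x y : ℝ) : ‖(⟨x, y⟩ : ℂ)‖ ≤ 1 ↔ x ^ 2 + y ^ 2 ≤ 1 := by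
  rw [← sq_le_one_iff₀ (norm_nonneg _), Complex.sq_norm, Complex.normSq_mk]
  constructor <;> intro h <;> nlinarith

theorem norm_giR (c d : ℝ) (y : ℂ) : ‖giR c d y‖ = ‖y + d * E c‖ := by
  have h1 : giR c d y = E c * conj (y + d * E c) := by
    unfold giR
    rw [E_eq]
    have h := Real.cos_sq_add_sin_sq c
    apply Complex.ext
    · simp
      linear_combination (-d) * h
    · simp
      ring
  have h2 : ‖E c‖ = 1 := by
    unfold E
    exact Complex.norm_exp_ofReal_mul_I c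
  rw [h1, norm_mul, h2, one_mul, Complex.norm_conj]

theorem t : T8r := by
  intro b e L1 L2 L3 hB hBig hb h
  have hpi := Real.pi_pos
  have hcfg : Cfg b (gR (Real.pi - b) (2 * Real.sin (e/2))) (giR (Real.pi - b)
    (2 * Real.sin (e/2))) L1 L2 L3 := by simpa [CfgO] using h
  obtain ⟨hb0, hb1, he0, he1, -, -, -⟩ := hB
  have hse : 0 < Real.sin (e / 2) := Real.sin_pos_of_pos_of_lt_pi (by linarith) (by linarith)
  have heta0 : 0 ≤ eta b e := by
    unfold eta
    apply Real.arcsin_nonneg.2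
    have := Real.sin_pos_of_pos_of_lt_pi (show 0 < b / 2 by linarith) (by linarith)
    positivity
  have hb35 : 3 * Real.pi / 5 < b := by
    unfold Big at hBig
    linarith
  have hsb : 1 / 2 ≤ Real.sin (b / 2) := by
    rw [← Real.sin_pi_div_six]
    exact Real.sin_le_sin_of_le_of_le_pi_div_two (by linarith) (by linarith) (by linarith)
  have heta : e / 2 ≤ eta b e := by
    unfold eta
    rw [← Real.arcsin_sin (show -(Real.pi / 2) ≤ e / 2 by linarith) (by linarith)]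
    apply Real.monotone_arcsin
    rw [Real.arcsin_sin (show -(Real.pi / 2) ≤ e / 2 by linarith) (by linarith)]
    nlinarith
  have hee : e ≤ b - Real.pi / 2 := by
    unfold Big at hBig
    linarith
  set s := Real.sin b with hs
  set k := Real.cos b with hk
  have hks : k ^ 2 + s ^ 2 = 1 := Real.cos_sq_add_sin_sq b
  have hs0 : 0 < s := Real.sin_pos_of_pos_of_lt_pi hb0 hb1
  have hk0 : -(1 / 2) < k := by
    have h1 : Real.cos (2 * Real.pi / 3) < k :=
      Real.cos_lt_cos_of_nonneg_of_le_pi (by linarith) (by linarith) hb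
    have h2 : Real.cos (2 * Real.pi / 3) = -(1 / 2) := by
      rw [show 2 * Real.pi / 3 = Real.pi - Real.pi / 3 by ring, Real.cos_pi_sub,
        Real.cos_pi_div_three]
    linarith
  set d := 2 * Real.sin (e / 2) with hd
  have hd0 : 0 < d := by positivity
  have hds : d * s ≤ -k := by
    have h1 : Real.sin e ≤ Real.sin (b - Real.pi / 2) :=
      Real.sin_le_sin_of_le_of_le_pi_div_two (by linarith) (by linarith) hee
    have h2 : Real.sin (b - Real.pi / 2) = -k := by rw [Real.sin_sub_pi_div_two]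
    have h3 : Real.sin e = d * Real.cos (e / 2) := by
      rw [hd, ← Real.sin_two_mul]
      congr 1
      ring
    have h4 : s ≤ Real.cos (e / 2) := by
      have h5 : s = Real.cos (b - Real.pi / 2) := by rw [Real.cos_sub_pi_div_two]
      rw [h5]
      exact Real.cos_le_cos_of_nonneg_of_le_pi (by linarith) (by linarith) (by linarith)
    calc d * s ≤ d * Real.cos (e / 2) := mul_le_mul_of_nonneg_left h4 hd0.le
      _ = Real.sin e := h3.symm
      _ ≤ -k := by rw [← h2]; exact h1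
  have hEb : E b = ⟨k, s⟩ := E_eq b
  have hEnb : E (-b) = ⟨k, -s⟩ := by rw [E_eq, Real.cos_neg, Real.sin_neg]
  have hEc : E (Real.pi - b) = ⟨-k, s⟩ := by rw [E_eq, Real.cos_pi_sub, Real.sin_pi_sub]
  -- the point `w`
  have hw1 : ¬ L1 ⟨-s, k⟩ := by
    intro hL
    have h1 := hcfg.in3 _ (hcfg.g13 _ hL)
    have h2 : gR (Real.pi - b) d ⟨-s, k⟩ = ⟨-k * (-s - d) + s * k, k * k + s * (-s - d)⟩ := by
      unfold gR
      rw [hEc]
      apply Complex.ext <;> simp <;> ring
    rw [h2, norm_le_iff] at h1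
    have h3 : (-k * (-s - d) + s * k) ^ 2 + (k * k + s * (-s - d)) ^ 2 =
        (k ^ 2 + s ^ 2) * ((s + d) ^ 2 + k ^ 2) := by ring
    rw [h3, hks] at h1
    nlinarith [mul_pos hs0 hd0]
  have hw2 : ¬ L2 ⟨-s, k⟩ := by
    intro hL
    have h0 : E (-b) * ⟨-s, k⟩ = ⟨0, 1⟩ := by
      rw [hEnb]
      apply Complex.ext
      · simp; ring
      · simp; linarith
    have h1 := hcfg.in3 _ (hcfg.g13 _ (h0 ▸ hcfg.r21 _ hL))
    have h2 : gR (Real.pi - b) d ⟨0, 1⟩ = ⟨k * d + s, k - s * d⟩ := by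
      unfold gR
      rw [hEc]
      apply Complex.ext
      · simp
      · simp
        ring
    rw [h2, norm_le_iff] at h1
    have h3 : (k * d + s) ^ 2 + (k - s * d) ^ 2 = (k ^ 2 + s ^ 2) * (1 + d ^ 2) := by ring
    rw [h3, hks] at h1
    nlinarith
  have hw3 : L3 ⟨-s, k⟩ := by
    have h0 : ‖(⟨-s, k⟩ : ℂ)‖ ≤ 1 := by rw [norm_le_iff]; linarith
    rcases hcfg.cov _ h0 with h1 | h1 | h1
    · exact absurd h1 hw1
    · exact absurd h1 hw2
    · exact h1
  -- the point `X`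
  have hX : L1 ⟨d + 2 * s * k, k ^ 2 - s ^ 2⟩ := by
    have h1 := hcfg.g31 _ hw3
    have h2 : giR (Real.pi - b) d ⟨-s, k⟩ = ⟨d + 2 * s * k, k ^ 2 - s ^ 2⟩ := by
      unfold giR
      rw [hEc]
      apply Complex.ext <;> simp <;> ring
    rwa [h2] at h1
  have hRX : L2 ⟨k * d + s, k + s * d⟩ := by
    have h1 := hcfg.r12 _ hX
    have h2 : E b * ⟨d + 2 * s * k, k ^ 2 - s ^ 2⟩ = ⟨k * d + s, k + s * d⟩ := by
      rw [hEb]
      apply Complex.ext
      · simp only [Complex.mul_re]; linear_combination s * hks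
      · simp only [Complex.mul_im]; linear_combination k * hks
    rwa [h2] at h1
  have hYn : ‖(⟨d * (k ^ 2 - s ^ 2), 1 + 2 * d * s * k⟩ : ℂ)‖ ≤ 1 := by
    have h1 := hcfg.in1 _ hX
    rw [norm_le_iff] at h1 ⊢
    have h2 : (d * (k ^ 2 - s ^ 2)) ^ 2 + (1 + 2 * d * s * k) ^ 2 =
        (d + 2 * s * k) ^ 2 + (k ^ 2 - s ^ 2) ^ 2 := by
      linear_combination (d ^ 2 - 1) * (k ^ 2 + s ^ 2 + 1) * hks
    rw [h2]
    exact h1
  have hY2 : ¬ L2 ⟨d * (k ^ 2 - s ^ 2), 1 + 2 * d * s * k⟩ := by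
    intro hL
    have h1 := hcfg.r21 _ hL
    have h2 : E (-b) * ⟨d * (k ^ 2 - s ^ 2), 1 + 2 * d * s * k⟩ = ⟨k * d + s, k + s * d⟩ := by
      rw [hEnb]
      apply Complex.ext
      · simp only [Complex.mul_re]; linear_combination d * k * hks
      · simp only [Complex.mul_im]; linear_combination d * s * hks
    rw [h2] at h1
    exact hcfg.n12 _ h1 hRX
  have key : 0 < d * s * (2 * k + 1) := by
    have : 0 < 2 * k + 1 := by linarith
    positivity
  have hY3 : ¬ L3 ⟨d * (k ^ 2 - s ^ 2), 1 + 2 * d * s * k⟩ := by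
    intro hL
    have h1 := hcfg.in1 _ (hcfg.g31 _ hL)
    rw [norm_giR] at h1
    have h2 : (⟨d * (k ^ 2 - s ^ 2), 1 + 2 * d * s * k⟩ : ℂ) + d * E (Real.pi - b) =
        ⟨d * (k ^ 2 - s ^ 2) - d * k, 1 + d * s * (2 * k + 1)⟩ := by
      rw [hEc]
      apply Complex.ext
      · simp
        ring
      · simp
        ring
    rw [h2, norm_le_iff] at h1
    nlinarith [sq_nonneg (d * (k ^ 2 - s ^ 2) - d * k)]
  have hY1 : L1 ⟨d * (k ^ 2 - s ^ 2), 1 + 2 * d * s * k⟩ := by
    rcases hcfg.cov _ hYn with h1 | h1 | h1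
    · exact h1
    · exact absurd h1 hY2
    · exact absurd h1 hY3
  have hgY : L3 ⟨4 * d * k * s ^ 2 + s, k * (1 + 2 * d * s * k) - 2 * d * s ^ 3⟩ := by
    have h1 := hcfg.g13 _ hY1
    have h2 : gR (Real.pi - b) d ⟨d * (k ^ 2 - s ^ 2), 1 + 2 * d * s * k⟩ =
        ⟨4 * d * k * s ^ 2 + s, k * (1 + 2 * d * s * k) - 2 * d * s ^ 3⟩ := by
      unfold gR
      rw [hEc]
      apply Complex.ext
      · simp
        linear_combination (-(k * d)) * hks
      · simp
        linear_combination (s * d) * hks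
    rwa [h2] at h1
  -- the point `Z`
  have hZn : ‖(⟨2 * d * s ^ 2, 1 + 2 * d * s * k⟩ : ℂ)‖ ≤ 1 := by
    rw [norm_le_iff]
    have h1 : (2 * d * s ^ 2) ^ 2 + (1 + 2 * d * s * k) ^ 2 = 1 + 4 * d * s * (k + d * s) := by
      linear_combination (4 * d ^ 2 * s ^ 2) * hks
    rw [h1]
    have h2 : 0 ≤ 4 * d * s := by positivity
    nlinarith
  have hZ1 : ¬ L1 ⟨2 * d * s ^ 2, 1 + 2 * d * s * k⟩ := by
    intro hL
    have h1 := hcfg.g13 _ hL
    have h2 : gR (Real.pi - b) d ⟨2 * d * s ^ 2, 1 + 2 * d * s * k⟩ =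
        ⟨k * d + s, k + s * d⟩ := by
      unfold gR
      rw [hEc]
      apply Complex.ext
      · simp
        ring
      · simp
        linear_combination (2 * d * s) * hks
    rw [h2] at h1
    exact hcfg.n23 _ hRX h1
  have hZ3 : ¬ L3 ⟨2 * d * s ^ 2, 1 + 2 * d * s * k⟩ := by
    intro hL
    have h1 := hcfg.in1 _ (hcfg.g31 _ hL)
    rw [norm_giR] at h1
    have h2 : (⟨2 * d * s ^ 2, 1 + 2 * d * s * k⟩ : ℂ) + d * E (Real.pi - b) =
        ⟨2 * d * s ^ 2 - d * k, 1 + d * s * (2 * k + 1)⟩ := by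
      rw [hEc]
      apply Complex.ext
      · simp
        ring
      · simp
        ring
    rw [h2, norm_le_iff] at h1
    nlinarith [sq_nonneg (2 * d * s ^ 2 - d * k)]
  have hZ2 : L2 ⟨2 * d * s ^ 2, 1 + 2 * d * s * k⟩ := by
    rcases hcfg.cov _ hZn with h1 | h1 | h1
    · exact absurd h1 hZ1
    · exact h1
    · exact absurd h1 hZ3
  have hfin : L1 ⟨4 * d * k * s ^ 2 + s, k * (1 + 2 * d * s * k) - 2 * d * s ^ 3⟩ := by
    have h1 := hcfg.r21 _ hZ2
    have h2 : E (-b) * ⟨2 * d * s ^ 2, 1 + 2 * d * s * k⟩ =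
        ⟨4 * d * k * s ^ 2 + s, k * (1 + 2 * d * s * k) - 2 * d * s ^ 3⟩ := by
      rw [hEnb]
      apply Complex.ext
      · simp only [Complex.mul_re]; ring
      · simp only [Complex.mul_im]; ring
    rwa [h2] at h1
  exact hcfg.n13 _ hfin hgY

end Pool.Agent.H373R4.Disc.T8r
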