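import Pool.Agent.H373R4.Disc.Stmts

/-!
# Case T9p: `c = 2 b - π`, orientation preserving, `π - b < (2 π + e) / 7`
-/

set_option autoImplicit false

namespace Pool.Agent.H373R4.Disc.T9p

open Complex ComplexConjugate Pool.Agent.H908R3.Disc

theorem E_add (x y : ℝ) : E (x + y) = E x * E y := by
  unfold E
  rw [← Complex.exp_add]
  congr 1
  push_cast
  ring

theorem E_zero : E 0 = 1 := by simp [E]

theorem norm_E (x : ℝ) : ‖E x‖ = 1 := Complex.norm_exp_ofReal_mul_I x

theorem E_re (x : ℝ) : (E x).re = Real.cos x := Complex.exp_ofReal_mul_I_re x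

theorem E_im (x : ℝ) : (E x).im = Real.sin x := Complex.exp_ofReal_mul_I_im x

theorem E_neg_mul (x : ℝ) : E x * E (-x) = 1 := by
  rw [← E_add, add_neg_cancel, E_zero]

theorem two_cos (x : ℝ) : ((2 * Real.cos x : ℝ) : ℂ) = E x + E (-x) := by
  apply Complex.ext
  · rw [Complex.add_re, E_re, E_re, Real.cos_neg, Complex.ofReal_re]; ring
  · rw [Complex.add_im, E_im, E_im, Real.sin_neg, Complex.ofReal_im]; ring

theorem normSq_sub (a r : ℝ) : ‖E a - (r : ℂ)‖ ^ 2 = 1 + r * (r - 2 * Real.cos a) := by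
  rw [← Complex.normSq_eq_norm_sq, Complex.normSq_apply, Complex.sub_re, Complex.sub_im, E_re,
    E_im, Complex.ofReal_re, Complex.ofReal_im]
  nlinarith [Real.sin_sq_add_cos_sq a]

theorem out_of {a r : ℝ} (h : 0 < r * (r - 2 * Real.cos a)) : 1 < ‖E a - (r : ℂ)‖ := by
  have h1 := normSq_sub a r
  nlinarith [norm_nonneg (E a - (r : ℂ))]

theorem out_im (x s : ℝ) (hs : s ≠ 0) : 1 < ‖1 + (s : ℂ) * (E x - E (-x))‖ ∨ Real.sin x = 0 := by
  by_cases hx : Real.sin x = 0
  · exact Or.inr hx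
  left
  have h1 : ‖1 + (s : ℂ) * (E x - E (-x))‖ ^ 2 = 1 + (2 * s * Real.sin x) ^ 2 := by
    rw [← Complex.normSq_eq_norm_sq, Complex.normSq_apply]
    simp only [Complex.add_re, Complex.add_im, Complex.mul_re, Complex.mul_im, Complex.sub_re,
      Complex.sub_im, E_re, E_im, Complex.ofReal_re, Complex.ofReal_im, Complex.one_re,
      Complex.one_im, Real.cos_neg, Real.sin_neg]
    ring
  have h2 : 0 < (2 * s * Real.sin x) ^ 2 := by positivity
  nlinarith [norm_nonneg (1 + (s : ℂ) * (E x - E (-x)))]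

theorem t : T9p := by
  intro b e L1 L2 L3 hB hb hb7 h
  obtain ⟨c, hc⟩ : ∃ c, c = 2 * b - Real.pi := ⟨_, rfl⟩
  obtain ⟨d, hd⟩ : ∃ d, d = 2 * Real.sin (e / 2) := ⟨_, rfl⟩
  rw [← hc] at h
  unfold CfgO at h
  rw [if_pos rfl, ← hd] at h
  have hpi := Real.pi_pos
  have hb1 := hB.b1
  have he0 := hB.e0
  have he1 := hB.e1
  have hse : 0 < Real.sin (e / 2) := Real.sin_pos_of_pos_of_lt_pi (by linarith) (by linarith)
  have hd0 : 0 < d := by rw [hd]; linarith
  -- exclusions
  have not1 : ∀ x, 1 < ‖x - (d : ℂ)‖ → ¬ L1 x := by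
    intro x hx h1
    have h2 := h.in3 _ (h.g13 x h1)
    unfold gP at h2
    rw [norm_mul, norm_E, one_mul] at h2
    linarith
  have not3 : ∀ y, 1 < ‖y + (d : ℂ) * E c‖ → ¬ L3 y := by
    intro y hy h3
    have h2 := h.in1 _ (h.g31 y h3)
    unfold giP at h2
    have h4 : y + (d : ℂ) * E c = E c * ((d : ℂ) + E (-c) * y) := by
      linear_combination (-y) * E_neg_mul c
    rw [h4, norm_mul, norm_E, one_mul] at hy
    linarith
  -- the basic numbers
  obtain ⟨p, hp⟩ : ∃ p, p = E (b / 2) := ⟨_, rfl⟩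
  obtain ⟨p', hp'⟩ : ∃ p', p' = E (-(b / 2)) := ⟨_, rfl⟩
  have hpp : p * p' = 1 := by rw [hp, hp']; exact E_neg_mul _
  have eb : E b = p ^ 2 := by
    rw [hp, sq, ← E_add]; congr 1; ring
  have eb' : E (-b) = p' ^ 2 := by
    rw [hp', sq, ← E_add]; congr 1; ring
  have epi : E (-Real.pi) = -1 := by
    unfold E
    rw [Complex.ofReal_neg, neg_mul, Complex.exp_neg, Complex.exp_pi_mul_I]
    norm_num
  have ec : E c = -p ^ 4 := by
    have h1 : E c = E b * E b * E (-Real.pi) := by
      rw [← E_add, ← E_add]; congr 1; rw [hc]; ring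
    rw [h1, epi, eb]; ring
  have hsb : Real.sin (b / 2) ≠ 0 :=
    (Real.sin_pos_of_pos_of_lt_pi (by linarith) (by linarith)).ne'
  have np : ‖p‖ = 1 := by rw [hp]; exact norm_E _
  have np' : ‖p'‖ = 1 := by rw [hp']; exact norm_E _
  -- `|1 + s (p - p')| > 1`
  have him : ∀ s : ℝ, s ≠ 0 → 1 < ‖1 + (s : ℂ) * (p - p')‖ := by
    intro s hs
    rcases out_im (b / 2) s hs with h1 | h1
    · rw [hp, hp']; exact h1
    · exact absurd h1 hsb
  -- `x = E (b/2)` is not in `L3`
  have hx3 : ¬ L3 p := by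
    apply not3
    have h1 : p + (d : ℂ) * E c = (-p ^ 4) * (E (Real.pi - 3 * (b / 2)) - ((-d : ℝ) : ℂ)) := by
      have h2 : E (Real.pi - 3 * (b / 2)) = -p' ^ 3 := by
        have h3 : E (Real.pi - 3 * (b / 2)) = p' * p' * p' * E Real.pi := by
          rw [hp', ← E_add, ← E_add, ← E_add]; congr 1; ring
        have h4 : E Real.pi = -1 := by
          unfold E; rw [Complex.exp_pi_mul_I]
        rw [h3, h4]; ring
      rw [h2, ec]
      push_cast
      linear_combination (-p * (p * p' * (p * p') + p * p' + 1)) * hpp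
    rw [h1, norm_mul, norm_neg, norm_pow, np, one_pow, one_mul]
    apply out_of
    have h3 : 0 < Real.cos (Real.pi - 3 * (b / 2)) :=
      Real.cos_pos_of_mem_Ioo ⟨by linarith, by linarith⟩
    nlinarith
  have hxn : ‖p‖ ≤ 1 := np.le
  rcases h.cov p hxn with h1 | h2 | h3
  · -- `x` in `L1`
    have g1 := h.g13 p h1
    unfold gP at g1
    obtain ⟨t, ht⟩ : ∃ t, t = E (-b) * (E c * (p - (d : ℂ))) := ⟨_, rfl⟩
    have htn : ‖t‖ ≤ 1 := by
      rw [ht, norm_mul, norm_E, one_mul]
      exact h.in3 _ g1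
    have ht1 : ¬ L1 t := by
      intro h4
      have h5 := h.r12 t h4
      have h6 : E b * t = E c * (p - (d : ℂ)) := by
        rw [ht, eb, eb']
        linear_combination (E c * (p - (d : ℂ)) * (p * p' + 1)) * hpp
      rw [h6] at h5
      exact h.n23 _ h5 g1
    have ht3 : ¬ L3 t := by
      apply not3
      have h4 : t + (d : ℂ) * E c = (E c * p') * (1 + (d : ℂ) * (p - p')) := by
        rw [ht, eb']
        linear_combination (E c * (p' - (d : ℂ))) * hpp
      rw [h4, norm_mul, norm_mul, norm_E, np', one_mul, one_mul]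
      exact him d hd0.ne'
    have ht2 : L2 t := by
      rcases h.cov t htn with h4 | h4 | h4
      · exact absurd h4 ht1
      · exact h4
      · exact absurd h4 ht3
    have h5 := h.g13 _ (h.r21 t ht2)
    unfold gP at h5
    have h6 : E c * (E (-b) * t - (d : ℂ)) = p ^ 5 := by
      have h7 : E c * (E (-b) * t - (d : ℂ)) =
          p ^ 8 * p' ^ 4 * (p - (d : ℂ)) + (d : ℂ) * p ^ 4 := by
        rw [ht, eb', ec]; ring
      have h8 : p ^ 8 * p' ^ 4 = p ^ 4 := by
        calc p ^ 8 * p' ^ 4 = p ^ 4 * (p * p') ^ 4 := by ring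
          _ = p ^ 4 := by rw [hpp]; ring
      rw [h7, h8]; ring
    rw [h6] at h5
    -- the point `E (7 b / 2)`
    have e7 : p ^ 7 = E (7 * (b / 2)) := by
      rw [hp]
      have h7 : (7 : ℝ) * (b / 2) =
        b / 2 + (b / 2) + (b / 2) + (b / 2) + (b / 2) + (b / 2) + (b / 2) := by ring
      rw [h7]
      simp only [E_add]
      ring
    have hn7 : ‖p ^ 7‖ ≤ 1 := by rw [norm_pow, np, one_pow]
    have c7 : Real.cos (7 * (b / 2)) < Real.sin (e / 2) := by
      have h8 : Real.cos (7 * (b / 2)) = - Real.sin (7 * ((Real.pi - b) / 2)) := by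
        have h9 : 7 * (b / 2) = -(7 * ((Real.pi - b) / 2) + Real.pi / 2) + 2 * (2 * Real.pi) := by
          ring
        rw [h9, show -(7 * ((Real.pi - b) / 2) + Real.pi / 2) + 2 * (2 * Real.pi) =
          -(7 * ((Real.pi - b) / 2) + Real.pi / 2) + (2 : ℕ) * (2 * Real.pi) by push_cast; ring,
          Real.cos_add_nat_mul_two_pi, Real.cos_neg, Real.cos_add_pi_div_two]
      rw [h8]
      rcases le_or_gt (7 * ((Real.pi - b) / 2)) Real.pi with h9 | h9
      · have := Real.sin_nonneg_of_nonneg_of_le_pi (x := 7 * ((Real.pi - b) / 2))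
          (by linarith) h9
        linarith
      · obtain ⟨u, hu⟩ : ∃ u, u = 7 * ((Real.pi - b) / 2) - Real.pi := ⟨_, rfl⟩
        have h10 : 7 * ((Real.pi - b) / 2) = u + Real.pi := by rw [hu]; ring
        rw [h10, Real.sin_add_pi, neg_neg]
        exact Real.sin_lt_sin_of_lt_of_le_pi_div_two (by linarith) (by linarith) (by linarith)
    have n71 : ¬ L1 (p ^ 7) := by
      apply not1
      rw [e7]
      apply out_of
      apply mul_pos hd0
      rw [hd]; linarith
    have n73 : ¬ L3 (p ^ 7) := by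
      apply not3
      have h8 : p ^ 7 + (d : ℂ) * E c = p ^ 4 * (E (3 * (b / 2)) - (d : ℂ)) := by
        have h9 : E (3 * (b / 2)) = p ^ 3 := by
          have h10 : E (3 * (b / 2)) = p * p * p := by
            rw [hp, ← E_add, ← E_add]; congr 1; ring
          rw [h10]; ring
        rw [h9, ec]
        ring
      rw [h8, norm_mul, norm_pow, np, one_pow, one_mul]
      apply out_of
      have h3 : Real.cos (3 * (b / 2)) < 0 :=
        Real.cos_neg_of_pi_div_two_lt_of_lt (by linarith) (by linarith)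
      apply mul_pos hd0
      linarith
    have h8 : L2 (p ^ 7) := by
      rcases h.cov _ hn7 with h4 | h4 | h4
      · exact absurd h4 n71
      · exact h4
      · exact absurd h4 n73
    have h9 := h.r21 _ h8
    have h10 : E (-b) * p ^ 7 = p ^ 5 := by
      rw [eb']
      linear_combination (p ^ 5 * (p * p' + 1)) * hpp
    rw [h10] at h9
    exact h.n13 _ h9 h5
  · -- `x` in `L2`
    have g0 := h.r21 p h2
    have e0 : E (-b) * p = p' := by
      rw [eb']
      linear_combination p' * hpp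
    rw [e0] at g0
    have g1 := h.g13 p' g0
    unfold gP at g1
    obtain ⟨t, ht⟩ : ∃ t, t = E b * (E c * (p' - (d : ℂ))) := ⟨_, rfl⟩
    have htn : ‖t‖ ≤ 1 := by
      rw [ht, norm_mul, norm_E, one_mul]
      exact h.in3 _ g1
    have ht2 : ¬ L2 t := by
      intro h4
      have h5 := h.r21 t h4
      have h6 : E (-b) * t = E c * (p' - (d : ℂ)) := by
        rw [ht, eb, eb']
        linear_combination (E c * (p' - (d : ℂ)) * (p * p' + 1)) * hpp
      rw [h6] at h5
      exact h.n13 _ h5 g1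
    have ht3 : ¬ L3 t := by
      apply not3
      have h4 : t + (d : ℂ) * E c = (E c * p) * (1 + ((-d : ℝ) : ℂ) * (p - p')) := by
        rw [ht, eb]
        push_cast
        linear_combination (E c * (p - (d : ℂ))) * hpp
      rw [h4, norm_mul, norm_mul, norm_E, np, one_mul, one_mul]
      exact him (-d) (by linarith [hd0] : (-d : ℝ) ≠ 0)
    have ht1 : ¬ L1 t := by
      apply not1
      obtain ⟨q, hq⟩ : ∃ q, q = E (c / 2) := ⟨_, rfl⟩
      obtain ⟨q', hq'⟩ : ∃ q', q' = E (-(c / 2)) := ⟨_, rfl⟩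
      have hqq : q * q' = 1 := by rw [hq, hq']; exact E_neg_mul _
      have ec2 : E c = q ^ 2 := by
        rw [hq, sq, ← E_add]; congr 1; ring
      have h4 : ((2 * Real.cos ((b + c) / 2) : ℝ) : ℂ) = p * q + p' * q' := by
        rw [two_cos, hp, hp', hq, hq', ← E_add, ← E_add]
        congr 2 <;> ring
      have h5 : t - (d : ℂ) = (p * q) *
          (E (c / 2) - ((d * (2 * Real.cos ((b + c) / 2)) : ℝ) : ℂ)) := by
        rw [Complex.ofReal_mul, h4, ← hq, ht, eb, ec2]
        linear_combination (p * q ^ 2 + (d : ℂ) * q * q') * hpp + (d : ℂ) * hqq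
      rw [h5, norm_mul, norm_mul, np, hq, norm_E, one_mul, one_mul]
      apply out_of
      have h6 : Real.cos ((b + c) / 2) < 0 :=
        Real.cos_neg_of_pi_div_two_lt_of_lt (by linarith) (by linarith)
      have h7 : 0 < Real.cos (c / 2) := Real.cos_pos_of_mem_Ioo ⟨by linarith, by linarith⟩
      have h8 : d * (2 * Real.cos ((b + c) / 2)) < 0 := by nlinarith
      nlinarith
    rcases h.cov t htn with h4 | h4 | h4
    · exact ht1 h4
    · exact ht2 h4
    · exact ht3 h4
  · exact hx3 h3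

end Pool.Agent.H373R4.Disc.T9p
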