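import Pool.Agent.H373R4.Disc.Stmts
import Pool.Agent.H908R3.Disc.Basic

/-!
# Splitting the disc into three congruent pieces (S10842): the chain lemma T9r
-/

set_option autoImplicit false

namespace Pool.Agent.H373R4.Disc.T9r

open Complex ComplexConjugate Pool.Agent.H908R3.Disc Pool.Agent.H373R4.Disc

theorem gi_g (c d : ℝ) (x : ℂ) : giR c d (gR c d x) = x := by
  unfold giR gR
  have h4 : E c * E (-c) = 1 := by rw [E_mul]; simp [E_zero]
  rw [map_mul, map_sub, Complex.conj_conj, Complex.conj_ofReal, conj_E]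
  linear_combination (x - (d : ℂ)) * h4

theorem main {b α d : ℝ} {L1 L2 L3 : ℂ → Prop} (hd0 : 0 < d)
    (hb : 2 * Real.pi / 3 < b) (hb1 : b < Real.pi)
    (h : Cfg b (gR (2 * b - Real.pi) d) (giR (2 * b - Real.pi) d) L1 L2 L3)
    (m1 : ∀ x, L1 x → ‖x - (d : ℂ)‖ ≤ 1)
    (hw : L1 (E α)) (h1 : 0 ≤ Real.sin (3 * b / 2 - α))
    (h2 : d * Real.sin (b / 2) ≤ Real.sin (b / 2 - α))
    (h3 : 0 < d + 4 * d * Real.sin b ^ 2 - 2 * Real.cos α + 4 * Real.sin b * Real.sin α) :
    False := by
  have hpi := Real.pi_pos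
  have hbn : E b * E (-b) = 1 := by rw [E_mul]; simp [E_zero]
  -- labels
  have l3 : L3 (gR (2 * b - Real.pi) d (E α)) := h.g13 _ hw
  have ec : E (2 * b - Real.pi) = - E (2 * b) := by
    have : E (2 * b) = E ((2 * b - Real.pi) + Real.pi) := by congr 1; ring
    rw [this, E_add_pi]; ring
  have hgw : gR (2 * b - Real.pi) d (E α) = - E (2 * b) * (E (-α) - d) := by
    unfold gR
    rw [conj_E, ec]
  -- first point
  have hs3 : Real.sin (3 * b / 2) < 0 := by
    have : Real.sin (3 * b / 2) = - Real.sin (3 * b / 2 - Real.pi) := by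
      rw [Real.sin_sub_pi]; ring
    rw [this]
    have : 0 < Real.sin (3 * b / 2 - Real.pi) :=
      Real.sin_pos_of_pos_of_lt_pi (by linarith) (by linarith)
    linarith
  have hA : ¬ ‖E b * gR (2 * b - Real.pi) d (E α) - (d : ℂ)‖ ≤ 1 := by
    have e1 : E b * gR (2 * b - Real.pi) d (E α) - (d : ℂ)
        = E (3 * b / 2) * (- E (3 * b / 2 - α) + (d : ℂ) * E (3 * b / 2)
          - (d : ℂ) * E (- (3 * b / 2))) := by
      rw [hgw]
      have k1 : E (3 * b / 2) * E (3 * b / 2 - α) = E b * E (2 * b) * E (-α) := by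
        rw [E_mul, E_mul, E_mul]; congr 1; ring
      have k2 : E (3 * b / 2) * E (3 * b / 2) = E b * E (2 * b) := by
        rw [E_mul, E_mul]; congr 1; ring
      have k3 : E (3 * b / 2) * E (- (3 * b / 2)) = 1 := by
        rw [E_mul]; simp [E_zero]
      linear_combination k1 - (d : ℂ) * k2 + (d : ℂ) * k3
    rw [e1, norm_E_mul]
    refine norm_gt_one ?_
    simp only [Complex.sub_re, Complex.sub_im, Complex.add_re, Complex.add_im, Complex.neg_re,
      Complex.neg_im, Complex.mul_re, Complex.mul_im, Complex.ofReal_re, Complex.ofReal_im,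
      E_re, E_im, Real.cos_neg, Real.sin_neg]
    have hq := Real.sin_sq_add_cos_sq (3 * b / 2 - α)
    have e2 : 0 ≤ d * (- Real.sin (3 * b / 2)) * Real.sin (3 * b / 2 - α) :=
      mul_nonneg (mul_nonneg hd0.le (by linarith)) h1
    have e3 : 0 < (d * Real.sin (3 * b / 2)) ^ 2 := by
      have : d * Real.sin (3 * b / 2) ≠ 0 := mul_ne_zero hd0.ne' hs3.ne
      positivity
    nlinarith [e2, e3, hq]
  have n2 : ¬ L2 (E b * gR (2 * b - Real.pi) d (E α)) := by
    intro k
    have k2 := h.r21 _ k
    have k3 : E (-b) * (E b * gR (2 * b - Real.pi) d (E α)) = gR (2 * b - Real.pi) d (E α) := by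
      linear_combination (gR (2 * b - Real.pi) d (E α)) * hbn
    rw [k3] at k2
    exact h.n13 _ k2 l3
  have p3 : L3 (E b * gR (2 * b - Real.pi) d (E α)) := by
    have hn : ‖E b * gR (2 * b - Real.pi) d (E α)‖ ≤ 1 := by
      rw [norm_E_mul]
      exact h.in3 _ l3
    rcases h.cov _ hn with k | k | k
    · exact absurd (m1 _ k) hA
    · exact absurd k n2
    · exact k
  have q2 := h.r12 _ (h.g31 _ p3)
  have hy : E b * giR (2 * b - Real.pi) d (E b * gR (2 * b - Real.pi) d (E α))
      = (E α - d) + d * E b := by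
    rw [hgw]
    unfold giR
    rw [ec]
    simp only [map_mul, map_neg, map_sub, conj_E, Complex.conj_ofReal, neg_neg]
    have k1 : E b * E (2 * b) * E (-b) * E (- (2 * b)) = 1 := by
      rw [E_mul, E_mul, E_mul, ← E_zero]; congr 1; ring
    linear_combination (E α - (d : ℂ)) * k1
  rw [hy] at q2
  -- second point
  have n1 : ¬ L1 (E (-b) * gR (2 * b - Real.pi) d (E α)) := by
    intro k
    have k2 := h.r12 _ k
    have k3 : E b * (E (-b) * gR (2 * b - Real.pi) d (E α)) = gR (2 * b - Real.pi) d (E α) := by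
      linear_combination (gR (2 * b - Real.pi) d (E α)) * hbn
    rw [k3] at k2
    exact h.n23 _ k2 l3
  have n3 : ¬ L3 (gR (2 * b - Real.pi) d (E (-b) * gR (2 * b - Real.pi) d (E α))) := by
    intro k
    have k2 := h.g31 _ k
    rw [gi_g] at k2
    exact n1 k2
  have hgt : gR (2 * b - Real.pi) d (E (-b) * gR (2 * b - Real.pi) d (E α))
      = E b * (E α - d) + d * E (2 * b) := by
    rw [hgw]
    unfold gR
    rw [ec]
    simp only [map_mul, map_neg, map_sub, conj_E, Complex.conj_ofReal, neg_neg]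
    have k1 : E (2 * b) * E (- (2 * b)) = 1 := by
      rw [E_mul, ← E_zero]; congr 1; ring
    linear_combination (E b * (E α - (d : ℂ))) * k1
  rw [hgt] at n3
  have hn : ‖E b * (E α - d) + d * E (2 * b)‖ ≤ 1 := by
    have e1 : E b * (E α - d) + d * E (2 * b)
        = E (3 * b / 2) * (E (α - b / 2) - (d : ℂ) * E (- (b / 2)) + (d : ℂ) * E (b / 2)) := by
      have k1 : E (3 * b / 2) * E (α - b / 2) = E b * E α := by
        rw [E_mul, E_mul]; congr 1; ring
      have k2 : E (3 * b / 2) * E (- (b / 2)) = E b := by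
        rw [E_mul]; congr 1; ring
      have k3 : E (3 * b / 2) * E (b / 2) = E (2 * b) := by
        rw [E_mul]; congr 1; ring
      linear_combination (-1 : ℂ) * k1 + (d : ℂ) * k2 - (d : ℂ) * k3
    rw [e1, norm_E_mul]
    refine norm_le_one ?_
    simp only [Complex.sub_re, Complex.sub_im, Complex.add_re, Complex.add_im,
      Complex.mul_re, Complex.mul_im, Complex.ofReal_re, Complex.ofReal_im,
      E_re, E_im, Real.cos_neg, Real.sin_neg]
    have hq := Real.sin_sq_add_cos_sq (α - b / 2)
    have hsb : 0 < Real.sin (b / 2) := Real.sin_pos_of_pos_of_lt_pi (by linarith) (by linarith)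
    have e4 : Real.sin (b / 2 - α) = - Real.sin (α - b / 2) := by
      rw [← Real.sin_neg]; congr 1; ring
    have e2 : 0 ≤ d * Real.sin (b / 2) * (Real.sin (b / 2 - α) - d * Real.sin (b / 2)) :=
      mul_nonneg (mul_nonneg hd0.le hsb.le) (by linarith)
    rw [e4] at e2
    nlinarith [e2, hq]
  have hB : ¬ ‖(E b * (E α - d) + d * E (2 * b)) - (d : ℂ)‖ ≤ 1 := by
    have e1 : (E b * (E α - d) + d * E (2 * b)) - (d : ℂ)
        = E b * (E α - (d : ℂ) + (d : ℂ) * E b - (d : ℂ) * E (- b)) := by
      have k2 : E b * E b = E (2 * b) := by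
        rw [E_mul]; congr 1; ring
      linear_combination (-(d : ℂ)) * k2 + (d : ℂ) * hbn
    rw [e1, norm_E_mul]
    refine norm_gt_one ?_
    simp only [Complex.sub_re, Complex.sub_im, Complex.add_re, Complex.add_im,
      Complex.mul_re, Complex.mul_im, Complex.ofReal_re, Complex.ofReal_im,
      E_re, E_im, Real.cos_neg, Real.sin_neg]
    have hq := Real.sin_sq_add_cos_sq α
    have e2 := mul_pos hd0 h3
    nlinarith [e2, hq]
  have r2 : L2 (E b * (E α - d) + d * E (2 * b)) := by
    rcases h.cov _ hn with k | k | k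
    · exact absurd (m1 _ k) hB
    · exact k
    · exact absurd k n3
  have r1 := h.r21 _ r2
  have hz : E (-b) * (E b * (E α - d) + d * E (2 * b)) = (E α - d) + d * E b := by
    have k2 : E (-b) * E (2 * b) = E b := by
      rw [E_mul]; congr 1; ring
    linear_combination (E α - (d : ℂ)) * hbn + (d : ℂ) * k2
  rw [hz] at r1
  exact h.n12 _ r1 q2

theorem t : T9r := by
  intro b e L1 L2 L3 hB hb h
  have hpi := Real.pi_pos
  have lab := h.lab
  have he0 := hB.e0
  have he1 := hB.e1
  have hb1 := hB.b1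
  have hc2 := hB.c2
  have heB : e ≤ Real.pi - b := by linarith
  have hs : 0 < Real.sin (e / 2) := Real.sin_pos_of_pos_of_lt_pi (by linarith) (by linarith)
  have hd0 : 0 < 2 * Real.sin (e / 2) := by linarith
  have h' : Cfg b (gR (2 * b - Real.pi) (2 * Real.sin (e / 2)))
      (giR (2 * b - Real.pi) (2 * Real.sin (e / 2))) L1 L2 L3 := by
    unfold CfgO at h
    simpa using h
  have m1 := lab.m1
  -- the angle eta
  set η := eta b e with hη
  have hsb : 0 < Real.sin (b / 2) := Real.sin_pos_of_pos_of_lt_pi (by linarith) (by linarith)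
  have hsle : 2 * Real.sin (e / 2) * Real.sin (b / 2) ≤ Real.sin e := by
    have h4 : Real.sin e = 2 * Real.sin (e / 2) * Real.cos (e / 2) := by
      rw [← Real.sin_two_mul]
      congr 1
      ring
    rw [h4]
    refine mul_le_mul_of_nonneg_left ?_ hd0.le
    rw [← Real.sin_pi_div_two_sub]
    apply Real.sin_le_sin_of_le_of_le_pi_div_two <;> linarith
  have hpos : 0 < 2 * Real.sin (e / 2) * Real.sin (b / 2) := mul_pos hd0 hsb
  have hsη : Real.sin η = 2 * Real.sin (e / 2) * Real.sin (b / 2) := by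
    rw [hη]
    unfold eta
    refine Real.sin_arcsin (by linarith) ?_
    linarith [Real.sin_le_one e]
  have hη0 : 0 < η := by
    rw [hη]
    unfold eta
    exact Real.arcsin_pos.mpr hpos
  have hηe : η ≤ e := by
    rw [hη]
    unfold eta
    calc Real.arcsin (2 * Real.sin (e / 2) * Real.sin (b / 2)) ≤ Real.arcsin (Real.sin e) :=
          Real.monotone_arcsin hsle
      _ = e := Real.arcsin_sin (by linarith) (by linarith)
  rcases le_or_gt η ((Real.pi - b) / 2) with hc | hc
  · -- w = E (b - π/2)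
    refine main (α := b - Real.pi / 2) hd0 hb hb1 h' m1 ?_ ?_ ?_ ?_
    · apply lab.sure1 he0 he1 (by linarith) hb1 (by linarith) (by linarith) <;> linarith
    · apply Real.sin_nonneg_of_nonneg_of_le_pi <;> linarith
    · rw [← hsη]
      apply Real.sin_le_sin_of_le_of_le_pi_div_two <;> linarith
    · rw [Real.cos_sub_pi_div_two, Real.sin_sub_pi_div_two]
      have hs1 : 0 < Real.sin b := Real.sin_pos_of_pos_of_lt_pi (by linarith) hb1
      have hc1 : Real.cos b < -(1/2) := by
        have : Real.cos (2 * Real.pi / 3) = -(1/2) := by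
          have : 2 * Real.pi / 3 = Real.pi - Real.pi / 3 := by ring
          rw [this, Real.cos_pi_sub, Real.cos_pi_div_three]
        rw [← this]
        apply Real.cos_lt_cos_of_nonneg_of_le_pi <;> linarith
      nlinarith [mul_pos hs1 (show 0 < - Real.cos b - 1/2 by linarith), mul_pos hd0 (mul_pos hs1 hs1)]
  · -- w = E (b/2 - η)
    refine main (α := b / 2 - η) hd0 hb hb1 h' m1 ?_ ?_ ?_ ?_
    · apply lab.sure1 he0 he1 (by linarith) hb1 (by linarith) (by linarith) <;> linarith
    · apply Real.sin_nonneg_of_nonneg_of_le_pi <;> linarith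
    · rw [← hsη]
      have : b / 2 - (b / 2 - η) = η := by ring
      rw [this]
    · -- S = cos (b/2), C = sin (b/2)
      have hcb : Real.sin b = 2 * Real.sin (b / 2) * Real.cos (b / 2) := by
        rw [← Real.sin_two_mul]
        congr 1
        ring
      rw [hcb, Real.cos_sub, Real.sin_sub, hsη]
      have hS : 0 < Real.cos (b / 2) := Real.cos_pos_of_mem_Ioo ⟨by linarith, by linarith⟩
      have hy : 1 / 2 < Real.cos η := by
        rw [← Real.cos_pi_div_three]
        apply Real.cos_lt_cos_of_nonneg_of_le_pi <;> linarith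
      have hx : Real.sin η ≤ 2 * Real.sin (b / 2) * Real.cos (b / 2) := by
        rw [← hcb]
        have : Real.sin b = Real.sin (Real.pi - b) := by rw [Real.sin_pi_sub]
        rw [this]
        apply Real.sin_le_sin_of_le_of_le_pi_div_two <;> linarith
      have hC1 : 3 / 4 < Real.sin (b / 2) ^ 2 := by
        have : Real.cos (b / 2) < 1 / 2 := by
          rw [← Real.cos_pi_div_three]
          apply Real.cos_lt_cos_of_nonneg_of_le_pi <;> linarith
        nlinarith [Real.sin_sq_add_cos_sq (b / 2)]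
      rw [hsη] at hx
      have hd2 : 2 * Real.sin (e / 2) ≤ 2 * Real.cos (b / 2) := by
        nlinarith
      have hq := Real.sin_sq_add_cos_sq (b / 2)
      generalize Real.sin (b / 2) = C at *
      generalize Real.cos (b / 2) = S at *
      generalize Real.sin (e / 2) = D at *
      generalize Real.cos η = y at *
      have hC4 : C ^ 2 ≤ 1 := by nlinarith [sq_nonneg S]
      have hS2 : S ^ 2 = 1 - C ^ 2 := by linarith
      have key : 2 * D + 4 * (2 * D) * (2 * C * S) ^ 2 - 2 * (S * y + C * (2 * D * C))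
          + 4 * (2 * C * S) * (C * y - S * (2 * D * C))
          = 2 * S * y * (4 * C ^ 2 - 1) + (2 * D) * (8 * (1 - C ^ 2) * C ^ 2 - 2 * C ^ 2 + 1) := by
        linear_combination (16 * D * C ^ 2) * hS2
      rw [key]
      have f1 : 0 < S * (y - 1 / 2) * (4 * C ^ 2 - 1) :=
        mul_pos (mul_pos hS (by linarith)) (by linarith)
      have f2 : 0 < S * (4 * C ^ 2 - 3) := mul_pos hS (by linarith)
      have f3 : -1 ≤ 8 * (1 - C ^ 2) * C ^ 2 - 2 * C ^ 2 + 1 := by nlinarith
      have f4 : - (2 * D) ≤ (2 * D) * (8 * (1 - C ^ 2) * C ^ 2 - 2 * C ^ 2 + 1) := by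
        nlinarith
      nlinarith
end Pool.Agent.H373R4.Disc.T9r
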