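import Pool.Agent.H373R4.Disc.Stmts

set_option autoImplicit false

/-! The corner `b = 2π/3`, `c = π/3`. -/

namespace Pool.Agent.H373R4.Disc.TCorner

open Complex ComplexConjugate Pool.Agent.H908R3.Disc

theorem E_add (s t : ℝ) : E s * E t = E (s + t) := by
  unfold E
  rw [← Complex.exp_add]
  congr 1
  push_cast
  ring

theorem norm_E (t : ℝ) : ‖E t‖ = 1 := by
  unfold E
  exact Complex.norm_exp_ofReal_mul_I t

theorem E_pi : E Real.pi = -1 := by
  unfold E
  exact Complex.exp_pi_mul_I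

theorem E_zero : E 0 = 1 := by simp [E]

theorem E_neg_pi : E (-Real.pi) = -1 := by
  have h := E_add (-Real.pi) Real.pi
  rw [neg_add_cancel, E_zero, E_pi] at h
  linear_combination -h

theorem E_two_pi : E (2 * Real.pi) = 1 := by
  have h := E_add Real.pi Real.pi
  rw [E_pi] at h
  rw [two_mul, ← h]
  norm_num

theorem conj_E (t : ℝ) : conj (E t) = E (-t) := by
  unfold E
  rw [← Complex.exp_conj]
  congr 1
  simp

/-- the common part of both orientations. -/
theorem aux (g gi : ℂ → ℂ) (L1 L2 L3 : ℂ → Prop) (d : ℝ)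
    (h : Cfg (2 * Real.pi / 3) g gi L1 L2 L3) (h0 : gi 0 = d)
    (h1 : gi (E (2 * Real.pi / 3) * (E (2 * Real.pi / 3) * d)) = 0) : False := by
  have hn1 : ¬ L1 0 := by
    intro h2
    have h3 := h.r12 0 h2
    rw [mul_zero] at h3
    exact h.n12 0 h2 h3
  have hn2 : ¬ L2 0 := by
    intro h2
    have h3 := h.r21 0 h2
    rw [mul_zero] at h3
    exact h.n12 0 h3 h2
  have h30 : L3 0 := by
    rcases h.cov 0 (by simp) with h2 | h2 | h2
    · exact absurd h2 hn1
    · exact absurd h2 hn2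
    · exact h2
  have hd : L1 (d : ℂ) := by
    have := h.g31 0 h30
    rwa [h0] at this
  have h2 : L2 (E (2 * Real.pi / 3) * d) := h.r12 _ hd
  have hnorm : ‖E (2 * Real.pi / 3) * (E (2 * Real.pi / 3) * (d : ℂ))‖ ≤ 1 := by
    rw [norm_mul, norm_mul, norm_E, one_mul, one_mul]
    exact h.in1 _ hd
  rcases h.cov _ hnorm with h4 | h4 | h4
  · have h5 := h.r12 _ h4
    have e : E (2 * Real.pi / 3) * (E (2 * Real.pi / 3) * (E (2 * Real.pi / 3) * (d : ℂ))) = d := by
      rw [← mul_assoc, ← mul_assoc, E_add, E_add,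
        show 2 * Real.pi / 3 + 2 * Real.pi / 3 + 2 * Real.pi / 3 = 2 * Real.pi by ring, E_two_pi,
        one_mul]
    rw [e] at h5
    exact h.n12 _ hd h5
  · have h5 := h.r21 _ h4
    rw [← mul_assoc, E_add, neg_add_cancel, E_zero, one_mul] at h5
    exact h.n12 _ h5 h2
  · have h5 := h.g31 _ h4
    rw [h1] at h5
    exact hn1 h5

theorem t : TCorner := by
  intro o e L1 L2 L3 _ _ h
  unfold CfgO at h
  cases o with
  | true =>
    rw [if_pos rfl] at h
    refine aux _ _ L1 L2 L3 (2 * Real.sin (e / 2)) h ?_ ?_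
    · simp [giP]
    · unfold giP
      rw [← mul_assoc (E (2 * Real.pi / 3)), E_add, ← mul_assoc, E_add,
        show -(Real.pi / 3) + (2 * Real.pi / 3 + 2 * Real.pi / 3) = Real.pi by ring, E_pi]
      ring
  | false =>
    rw [if_neg (by simp)] at h
    refine aux _ _ L1 L2 L3 (2 * Real.sin (e / 2)) h ?_ ?_
    · simp [giR]
    · unfold giR
      rw [← mul_assoc (E (2 * Real.pi / 3)), E_add, map_mul, conj_E, Complex.conj_ofReal,
        ← mul_assoc, E_add,
        show Real.pi / 3 + -(2 * Real.pi / 3 + 2 * Real.pi / 3) = -Real.pi by ring, E_neg_pi]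
      ring

end Pool.Agent.H373R4.Disc.TCorner
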