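import Pool.Agent.H373R4.Disc.Stmts
import Pool.Agent.H908R3.Disc.Basic

/-!
# Range of the angle `c`
-/

set_option autoImplicit false

namespace Pool.Agent.H373R4.Disc.TRange

open Complex ComplexConjugate Pool.Agent.H908R3.Disc

theorem t : Pool.Agent.H373R4.Disc.TRange := by
  intro o b c e L1 L2 L3 hb0 hb1 he0 he1 hc0 hc1 h
  have hpi := Real.pi_pos
  have hl := h.lab
  -- every point of the unit circle lies in one of the three lenses
  have key : ∀ a : ℝ, Real.cos a < Real.sin (e / 2) → Real.cos (a - b) < Real.sin (e / 2) →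
      - Real.cos (a - c) < Real.sin (e / 2) → False := by
    intro a h1 h2 h3
    rcases hl.cov (E a) (norm_E a).le with h4 | h4 | h4
    · exact hl.not1 he0 he1 h1 h4
    · exact hl.not2 he0 he1 h2 h4
    · exact hl.not3 he0 he1 h3 h4
  constructor
  · by_contra hce
    push Not at hce
    refine key (-(Real.pi - c) / 2) ?_ ?_ ?_
    · rw [← Real.cos_neg]
      apply cos_lt_sin he0 he1 <;> linarith
    · rw [← Real.cos_neg]
      apply cos_lt_sin he0 he1 <;> linarith
    · rw [← Real.cos_neg, ← Real.cos_pi_sub]
      apply cos_lt_sin he0 he1 <;> linarith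
  · by_contra hce
    push Not at hce
    obtain ⟨ε, h1, h2, h3⟩ : ∃ ε : ℝ, 0 < ε ∧ ε < e ∧ ε < c - b + e := by
      refine ⟨min e (c - b + e) / 2, ?_, ?_, ?_⟩
      · have : 0 < min e (c - b + e) := lt_min he0 (by linarith)
        linarith
      · have := min_le_left e (c - b + e)
        linarith
      · have := min_le_right e (c - b + e)
        linarith
    refine key (b + (Real.pi - e) / 2 + ε) ?_ ?_ ?_
    · apply cos_lt_sin he0 he1 <;> linarith
    · apply cos_lt_sin he0 he1 <;> linarith
    · have h4 : - Real.cos (b + (Real.pi - e) / 2 + ε - c) =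
          Real.cos (b + (Real.pi - e) / 2 + ε - c + Real.pi) := by
        rw [Real.cos_add_pi]
      rw [h4]
      apply cos_lt_sin he0 he1 <;> linarith

end Pool.Agent.H373R4.Disc.TRange
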